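import Mathlib

/-!
# Unitarily invariant seminorms and almost representations: definitions
-/

set_option autoImplicit false

namespace Pool.Agent.Helper28.UI

open Matrix

/-- A seminorm `N` on the complex `n × n` matrices is unitarily invariant if `N (u x v) = N x` for
all unitary matrices `u`, `v`. There is no normalisation. -/
def UnitarilyInvariant {n : ℕ} (N : Seminorm ℂ (Matrix (Fin n) (Fin n) ℂ)) : Prop :=
  ∀ (u v : unitaryGroup (Fin n) ℂ) (x : Matrix (Fin n) (Fin n) ℂ), N (u.1 * x * v.1) = N x

/-- Uniformly in all `n` and all unitarily invariant seminorms on the `n × n` matrices, the maps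
`G → U(n)` which are almost multiplicative on a large finite set are almost trivial at the given
element `g`. -/
def AlmostRepsTrivial (G : Type) [Group G] : Prop :=
  ∀ (g : G) (ε : ℝ), 0 < ε → ∃ (A : Finset G) (δ : ℝ), 0 < δ ∧
    ∀ (n : ℕ) (N : Seminorm ℂ (Matrix (Fin n) (Fin n) ℂ)), UnitarilyInvariant N →
      ∀ φ : G → unitaryGroup (Fin n) ℂ,
        (∀ a ∈ A, ∀ b ∈ A, N ((φ (a * b)).1 - (φ a).1 * (φ b).1) ≤ δ) →
          N ((φ g).1 - 1) ≤ ε

end Pool.Agent.Helper28.UI
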