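import Pool.Graph.R_seed8.W661.RC.All
import Pool.Graph.R_seed8.W637.RC.PTD

/-!
# The spectral gap of approximate representations of Kazhdan groups on projections
-/

set_option autoImplicit false

namespace Pool.Agent.Helper28.UI

open Matrix
open scoped ComplexOrder
open Pool.Agent.W661.RC Pool.Agent.W683.RC Pool.Agent.W637.RC.PTD

noncomputable section

variable {d k : ℕ}

/-! ### left multiplication -/

/-- left multiplication by a unitary matrix -/
def lme (V : Matrix.unitaryGroup (Fin d) ℂ) : Mt d ≃ₗ[ℂ] Mt d where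
  toFun x := (V : Mt d) * x
  map_add' x y := by rw [Matrix.mul_add]
  map_smul' c x := by simp
  invFun x := (V : Mt d)ᴴ * x
  left_inv x := by
    have h1 := uni V
    calc (V : Mt d)ᴴ * ((V : Mt d) * x) = ((V : Mt d)ᴴ * (V : Mt d)) * x := by
          simp only [Matrix.mul_assoc]
      _ = x := by rw [h1, Matrix.one_mul]
  right_inv x := by
    have h1 := unit_symm (uni V)
    calc (V : Mt d) * ((V : Mt d)ᴴ * x) = ((V : Mt d) * (V : Mt d)ᴴ) * x := by
          simp only [Matrix.mul_assoc]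
      _ = x := by rw [h1, Matrix.one_mul]

/-- left multiplication as an isometry -/
def li (V : Matrix.unitaryGroup (Fin d) ℂ) :
    EuclideanSpace ℂ (Fin d × Fin d) ≃ₗᵢ[ℂ] EuclideanSpace ℂ (Fin d × Fin d) where
  toLinearEquiv := vle.symm.trans ((lme V).trans vle)
  norm_map' v := by
    obtain ⟨x, rfl⟩ := vle.surjective v
    show ‖vle (lme V (vle.symm (vle x)))‖ = ‖vle x‖
    rw [LinearEquiv.symm_apply_apply]
    show ‖vc ((V : Mt d) * x)‖ = ‖vc x‖
    apply norm_vc_eq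
    rw [hs_unit_mul (uni V)]

lemma li_vc (V : Matrix.unitaryGroup (Fin d) ℂ) (x : Mt d) :
    li V (vc x) = vc ((V : Mt d) * x) := rfl

lemma li_one : li (1 : Matrix.unitaryGroup (Fin d) ℂ) = 1 := by
  apply LinearIsometryEquiv.ext
  intro v
  obtain ⟨x, rfl⟩ := vle.surjective v
  show li 1 (vc x) = vc x
  rw [li_vc]
  simp

lemma li_mul (V W : Matrix.unitaryGroup (Fin d) ℂ) : li (V * W) = li V * li W := by
  apply LinearIsometryEquiv.ext
  intro v
  obtain ⟨x, rfl⟩ := vle.surjective v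
  show li (V * W) (vc x) = li V (li W (vc x))
  rw [li_vc, li_vc, li_vc]
  congr 1
  simp only [Submonoid.coe_mul, Matrix.mul_assoc]

/-- the unitary representation by left multiplication -/
def lr : Matrix.unitaryGroup (Fin d) ℂ →*
    unitary (EuclideanSpace ℂ (Fin d × Fin d) →L[ℂ] EuclideanSpace ℂ (Fin d × Fin d)) where
  toFun V := Unitary.linearIsometryEquiv.symm (li V)
  map_one' := by rw [li_one, map_one]
  map_mul' V W := by rw [li_mul, map_mul]

/-- the representation of the free group -/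
def lf (U : Fin k → Matrix.unitaryGroup (Fin d) ℂ) : FreeGroup (Fin k) →*
    unitary (EuclideanSpace ℂ (Fin d × Fin d) →L[ℂ] EuclideanSpace ℂ (Fin d × Fin d)) :=
  lr.comp (FreeGroup.lift U)

lemma lf_vc (U : Fin k → Matrix.unitaryGroup (Fin d) ℂ) (w : FreeGroup (Fin k)) (x : Mt d) :
    ((lf U w : unitary _) :
      EuclideanSpace ℂ (Fin d × Fin d) →L[ℂ] EuclideanSpace ℂ (Fin d × Fin d)) (vc x)
      = vc ((FreeGroup.lift U w : Mt d) * x) := rfl

/-- the lazy Markov matrix -/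
def Lz (U : Fin k → Matrix.unitaryGroup (Fin d) ℂ) : Mt d :=
  ((1 / 2 : ℝ) : ℂ) • (1 : Mt d) + ((ck k : ℝ) : ℂ) •
      (1 + ∑ s, ((U s : Mt d) + (U s : Mt d)ᴴ))

lemma MkL_vc (U : Fin k → Matrix.unitaryGroup (Fin d) ℂ) (x : Mt d) :
    Mk (lf U) (vc x) = vc (Lz U * x) := by
  unfold Mk
  have h1 : ∀ s, ((lf U (FreeGroup.of s) : unitary _) :
      EuclideanSpace ℂ (Fin d × Fin d) →L[ℂ] EuclideanSpace ℂ (Fin d × Fin d)) (vc x)
      = vc ((U s : Mt d) * x) := by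
    intro s
    rw [lf_vc, FreeGroup.lift_apply_of]
  have h2 : ∀ s, ((lf U (FreeGroup.of s)⁻¹ : unitary _) :
      EuclideanSpace ℂ (Fin d × Fin d) →L[ℂ] EuclideanSpace ℂ (Fin d × Fin d)) (vc x)
      = vc ((U s : Mt d)ᴴ * x) := by
    intro s
    rw [lf_vc, map_inv, FreeGroup.lift_apply_of, Matrix.UnitaryGroup.inv_val,
      Matrix.star_eq_conjTranspose]
  have h3 : Lz U * x = ((1 / 2 : ℝ) : ℂ) • x + ((ck k : ℝ) : ℂ) •
      (x + ∑ s, ((U s : Mt d) * x + (U s : Mt d)ᴴ * x)) := by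
    unfold Lz
    rw [Matrix.add_mul, Matrix.smul_mul, Matrix.smul_mul, Matrix.add_mul, Matrix.one_mul,
      Matrix.sum_mul]
    simp only [Matrix.add_mul]
  rw [h3, vc_add, vc_smul, vc_smul, vc_add, vc_sum]
  simp only [_root_.add_apply, _root_.smul_apply,
    _root_.sum_apply, one_apply_eq_self, h1, h2, vc_add]
  unfold ck
  push_cast
  rfl

lemma MkL_pow_vc (U : Fin k → Matrix.unitaryGroup (Fin d) ℂ) (K : ℕ) (x : Mt d) :
    (Mk (lf U) ^ K) (vc x) = vc (Lz U ^ K * x) := by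
  induction K with
  | zero => simp
  | succ K ih =>
    rw [pow_succ', pow_succ', mul_apply_eq_comp, ih, MkL_vc, Matrix.mul_assoc]

lemma lf_sub (U : Fin k → Matrix.unitaryGroup (Fin d) ℂ) (w : FreeGroup (Fin k)) (x : Mt d) :
    ‖((lf U w : unitary _) :
      EuclideanSpace ℂ (Fin d × Fin d) →L[ℂ] EuclideanSpace ℂ (Fin d × Fin d)) (vc x) - vc x‖ ^ 2
      = hs (((FreeGroup.lift U w : Mt d) - 1) * x) := by
  rw [lf_vc, ← vc_sub, ← hs_eq_norm, Matrix.sub_mul, Matrix.one_mul]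

/-- The smoothing estimate for left multiplication. -/
theorem smooth_left (G : Type) [Group G] (γ : FreeGroup (Fin k) →* G) (hT : HasT G)
    (hγ : Function.Surjective γ) :
    ∃ C : ℝ, 1 ≤ C ∧ ∀ η : ℝ, 0 < η → ∃ (K : ℕ) (δ : ℝ) (R : Finset (FreeGroup (Fin k))),
      0 < δ ∧ (∀ w ∈ R, γ w = 1) ∧
      ∀ (d : ℕ) (U : Fin k → Matrix.unitaryGroup (Fin d) ℂ) (x : Mt d),
        (∀ w ∈ R, hs (((FreeGroup.lift U w : Mt d) - 1) * x) ≤ δ * hs x) →
        ∑ s, hs (((U s : Mt d) - 1) * (Lz U ^ K * x)) ≤ η * hs x ∧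
        hs (Lz U ^ K * x - x) ≤ C * ∑ s, hs (((U s : Mt d) - 1) * x) + η * hs x := by
  obtain ⟨C, hC1, hK⟩ := Pool.Agent.W661.RC.All.ptb G k γ hT hγ
  refine ⟨C, hC1, fun η hη => ?_⟩
  obtain ⟨K, hK⟩ := hK (η / 2) (by positivity)
  obtain ⟨δ0, hδ0, R, hR, hmain⟩ := Pool.Agent.W661.RC.All.ptc k γ.ker K C (η / 2) (by positivity)
    (fun H _ _ _ ρ hρ ξ => hK H ρ (fun w hw => hρ w hw) ξ)
  refine ⟨K, δ0 ^ 2, R, by positivity, fun w hw => hR w hw, fun d U x hx => ?_⟩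
  have hbound : ∀ w ∈ R, ‖((lf U w : unitary _) :
      EuclideanSpace ℂ (Fin d × Fin d) →L[ℂ] EuclideanSpace ℂ (Fin d × Fin d)) (vc x) - vc x‖
      ≤ δ0 * ‖vc x‖ := by
    intro w hw
    apply le_of_sq_le_sq _ (by positivity)
    rw [lf_sub, mul_pow, ← hs_eq_norm]
    exact hx w hw
  obtain ⟨h3, h4⟩ := hmain (EuclideanSpace ℂ (Fin d × Fin d)) (lf U) (vc x) hbound
  have e2 : 2 * (η / 2) = η := by ring
  rw [e2, MkL_pow_vc, ← hs_eq_norm] at h3 h4
  have hen : ∀ y : Mt d, ∑ s, ‖((lf U (FreeGroup.of s) : unitary _) :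
      EuclideanSpace ℂ (Fin d × Fin d) →L[ℂ] EuclideanSpace ℂ (Fin d × Fin d)) (vc y) - vc y‖ ^ 2
      = ∑ s, hs (((U s : Mt d) - 1) * y) := by
    intro y
    refine Finset.sum_congr rfl fun s _ => ?_
    rw [lf_sub, FreeGroup.lift_apply_of]
  rw [hen] at h3
  rw [hen, ← vc_sub, ← hs_eq_norm] at h4
  exact ⟨h3, h4⟩

/-! ### the Laplacian and its spectral projections -/

/-- the Laplacian -/
def Lp (U : Fin k → Matrix.unitaryGroup (Fin d) ℂ) : Mt d :=
  ∑ s, ((U s : Mt d) - 1)ᴴ * ((U s : Mt d) - 1)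

lemma Lp_psd (U : Fin k → Matrix.unitaryGroup (Fin d) ℂ) : (Lp U).PosSemidef :=
  Matrix.posSemidef_sum _ fun _ _ => Matrix.posSemidef_conjTranspose_mul_self _

lemma Lp_eq (U : Fin k → Matrix.unitaryGroup (Fin d) ℂ) :
    Lp U = (2 * k : ℂ) • (1 : Mt d) - ∑ s, ((U s : Mt d) + (U s : Mt d)ᴴ) := by
  unfold Lp
  have h1 : ∀ s, ((U s : Mt d) - 1)ᴴ * ((U s : Mt d) - 1) =
      (2 : ℂ) • (1 : Mt d) - ((U s : Mt d) + (U s : Mt d)ᴴ) := by
    intro s
    have h := uni (U s)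
    rw [Matrix.conjTranspose_sub, Matrix.conjTranspose_one, Matrix.sub_mul, Matrix.mul_sub,
      Matrix.mul_sub, h, Matrix.one_mul, Matrix.one_mul, Matrix.mul_one, two_smul]
    abel
  rw [Finset.sum_congr rfl fun s _ => h1 s, Finset.sum_sub_distrib, Finset.sum_const,
    Finset.card_univ, Fintype.card_fin, ← Nat.cast_smul_eq_nsmul ℂ, smul_smul, mul_comm (2 : ℂ)]

lemma Lz_eq (U : Fin k → Matrix.unitaryGroup (Fin d) ℂ) :
    Lz U = 1 - ((ck k : ℝ) : ℂ) • Lp U := by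
  have h1 := Lp_eq U
  have h2 : ∑ s, ((U s : Mt d) + (U s : Mt d)ᴴ) = (2 * k : ℂ) • (1 : Mt d) - Lp U := by
    rw [h1]; abel
  unfold Lz
  rw [h2]
  have h3 : ((1 / 2 : ℝ) : ℂ) + ((ck k : ℝ) : ℂ) * (1 + 2 * k) = 1 := by
    have := ck_eq k
    exact_mod_cast congrArg (fun x : ℝ => (x : ℂ)) this
  calc ((1 / 2 : ℝ) : ℂ) • (1 : Mt d) + ((ck k : ℝ) : ℂ) • (1 + ((2 * k : ℂ) • (1 : Mt d) - Lp U))
      = (((1 / 2 : ℝ) : ℂ) + ((ck k : ℝ) : ℂ) * (1 + 2 * k)) • (1 : Mt d) -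
          ((ck k : ℝ) : ℂ) • Lp U := by
        rw [add_smul, smul_add, smul_sub, mul_add, mul_one, add_smul, smul_smul]
        abel
    _ = 1 - ((ck k : ℝ) : ℂ) • Lp U := by rw [h3, one_smul]

lemma hs_Lp (U : Fin k → Matrix.unitaryGroup (Fin d) ℂ) (y : Mt d) :
    ∑ s, hs (((U s : Mt d) - 1) * y) = tr (yᴴ * (Lp U) * y) := by
  unfold Lp
  rw [Matrix.mul_sum, Matrix.sum_mul, tr_sum]
  refine Finset.sum_congr rfl fun s _ => ?_
  rw [hs_eq_tr, Matrix.conjTranspose_mul]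
  congr 1
  simp only [Matrix.mul_assoc]

/-- Spectral projections of Hermitian matrices. -/
theorem exists_spec (T : Mt d) (hT : T.IsHermitian) (δ : ℝ) :
    ∃ Q : Mt d, IsPr Q ∧ Q * T = T * Q ∧ Le ((δ : ℂ) • Q) (T * Q) ∧
      Le (T * (1 - Q)) ((δ : ℂ) • (1 - Q)) := by
  classical
  set V : unitaryGroup (Fin d) ℂ := hT.eigenvectorUnitary with hV
  set f : Fin d → ℝ := hT.eigenvalues with hf
  have hVV : V.1 * star V.1 = 1 := mem_unitaryGroup_iff.1 V.2
  have hVV' : star V.1 * V.1 = 1 := UnitaryGroup.star_mul_self V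
  have hD : star V.1 * T * V.1 = diagonal (fun i => (f i : ℂ)) := by
    have h1 := hT.conjStarAlgAut_star_eigenvectorUnitary
    rw [Unitary.conjStarAlgAut_star_apply] at h1
    exact h1
  have hT2 : T = V.1 * diagonal (fun i => (f i : ℂ)) * star V.1 := by
    rw [← hD]
    calc T = (V.1 * star V.1) * T * (V.1 * star V.1) := by rw [hVV, Matrix.one_mul, Matrix.mul_one]
      _ = _ := by simp only [Matrix.mul_assoc]
  have hmul : ∀ a b : Fin d → ℂ, V.1 * diagonal a * star V.1 * (V.1 * diagonal b * star V.1) =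
      V.1 * diagonal (fun i => a i * b i) * star V.1 := by
    intro a b
    calc V.1 * diagonal a * star V.1 * (V.1 * diagonal b * star V.1)
        = V.1 * diagonal a * (star V.1 * V.1) * diagonal b * star V.1 := by
          simp only [Matrix.mul_assoc]
      _ = V.1 * (diagonal a * diagonal b) * star V.1 := by
          rw [hVV', Matrix.mul_one]; simp only [Matrix.mul_assoc]
      _ = _ := by rw [diagonal_mul_diagonal]
  have hsub : ∀ a b : Fin d → ℂ, V.1 * diagonal a * star V.1 - V.1 * diagonal b * star V.1 =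
      V.1 * diagonal (fun i => a i - b i) * star V.1 := by
    intro a b
    rw [← Matrix.sub_mul, ← Matrix.mul_sub, diagonal_sub]
  have hone : (1 : Mt d) = V.1 * diagonal (fun _ => 1) * star V.1 := by
    rw [diagonal_one, Matrix.mul_one, hVV]
  have hsm : ∀ (c : ℂ) (a : Fin d → ℂ), c • (V.1 * diagonal a * star V.1) =
      V.1 * diagonal (fun i => c * a i) * star V.1 := by
    intro c a
    rw [← Matrix.smul_mul, ← Matrix.mul_smul]
    congr 2
    ext i j
    by_cases h : i = j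
    · subst h; simp
    · simp [h]
  have hpsd : ∀ a : Fin d → ℝ, (∀ i, 0 ≤ a i) →
      (V.1 * diagonal (fun i => (a i : ℂ)) * star V.1).PosSemidef := by
    intro a ha
    rw [Matrix.star_eq_conjTranspose]
    refine Matrix.PosSemidef.mul_mul_conjTranspose_same ?_ _
    rw [Matrix.posSemidef_diagonal_iff]
    intro i
    exact ofReal_nonneg' (ha i)
  let e : Fin d → ℝ := fun i => if δ ≤ f i then 1 else 0
  refine ⟨V.1 * diagonal (fun i => (e i : ℂ)) * star V.1, ⟨?_, ?_⟩, ?_, ?_, ?_⟩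
  · rw [Matrix.star_eq_conjTranspose, Matrix.conjTranspose_mul, Matrix.conjTranspose_mul,
      Matrix.conjTranspose_conjTranspose, Matrix.diagonal_conjTranspose, Matrix.mul_assoc]
    congr 2
    ext i j
    by_cases h : i = j
    · subst h; simp [e]
    · simp [h]
  · rw [hmul]
    have h0 : (fun i => (e i : ℂ) * (e i : ℂ)) = fun i => (e i : ℂ) := by
      funext i
      simp only [e]
      split_ifs <;> simp
    rw [h0]
  · rw [hT2, hmul, hmul]
    congr 2
    ext i j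
    by_cases h : i = j
    · subst h; simp [mul_comm]
    · simp [h]
  · unfold Le
    rw [hsm]
    nth_rewrite 1 [hT2]
    rw [hmul, hsub]
    have h1 := hpsd (fun i => (f i - δ) * e i) (fun i => by
      simp only [e]
      split_ifs with h
      · nlinarith
      · simp)
    have h0 : (fun i => ((f i : ℂ)) * (e i : ℂ) - (δ : ℂ) * (e i : ℂ)) =
        fun i => (((f i - δ) * e i : ℝ) : ℂ) := by
      funext i
      push_cast
      ring
    rw [h0]
    exact h1
  · unfold Le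
    have hc : (1 : Mt d) - V.1 * diagonal (fun i => (e i : ℂ)) * star V.1 =
        V.1 * diagonal (fun i => 1 - (e i : ℂ)) * star V.1 := by
      nth_rewrite 1 [hone]
      rw [hsub]
    rw [hc, hsm]
    nth_rewrite 1 [hT2]
    rw [hmul, hsub]
    have h1 := hpsd (fun i => (δ - f i) * (1 - e i)) (fun i => by
      simp only [e]
      split_ifs with h
      · simp
      · push Not at h
        nlinarith)
    have h0 : (fun i => (δ : ℂ) * (1 - (e i : ℂ)) - ((f i : ℂ)) * (1 - (e i : ℂ))) =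
        fun i => (((δ - f i) * (1 - e i) : ℝ) : ℂ) := by
      funext i
      push_cast
      ring
    rw [h0]
    exact h1

lemma Lz_comm {U : Fin k → Matrix.unitaryGroup (Fin d) ℂ} {Q : Mt d}
    (hQ : Q * Lp U = Lp U * Q) (K : ℕ) : Q * Lz U ^ K = Lz U ^ K * Q := by
  have h1 : Commute Q (Lz U) := by
    unfold Commute SemiconjBy
    rw [Lz_eq, Matrix.mul_sub, Matrix.sub_mul, Matrix.mul_one, Matrix.one_mul, Matrix.mul_smul,
      Matrix.smul_mul, hQ]
  exact h1.pow_right K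

/-- The data of a spectral projection of the Laplacian. -/
structure SpQ (U : Fin k → Matrix.unitaryGroup (Fin d) ℂ) (δ : ℝ) (Q : Mt d) : Prop where
  pr : IsPr Q
  comm : Q * Lp U = Lp U * Q
  ge : Le ((δ : ℂ) • Q) (Lp U * Q)
  le : Le (Lp U * (1 - Q)) ((δ : ℂ) • (1 - Q))

theorem exists_spQ (U : Fin k → Matrix.unitaryGroup (Fin d) ℂ) (δ : ℝ) :
    ∃ Q : Mt d, SpQ U δ Q := by
  obtain ⟨Q, h1, h2, h3, h4⟩ := exists_spec (Lp U) (Lp_psd U).1 δ
  exact ⟨Q, h1, h2, h3, h4⟩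

/-- the complement of `Q` consists of almost invariant vectors -/
theorem SpQ.small {U : Fin k → Matrix.unitaryGroup (Fin d) ℂ} {δ : ℝ} {Q : Mt d}
    (h : SpQ U δ Q) {x : Mt d} (hx : (1 - Q) * x = x) :
    ∑ s, hs (((U s : Mt d) - 1) * x) ≤ δ * hs x := by
  rw [hs_Lp, hs_eq_tr, ← tr_smul]
  have h1 := Le_tr (Le_conj h.le x)
  have e1 : xᴴ * (Lp U * (1 - Q)) * x = xᴴ * Lp U * x := by
    calc xᴴ * (Lp U * (1 - Q)) * x = xᴴ * Lp U * ((1 - Q) * x) := by
          simp only [Matrix.mul_assoc]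
      _ = _ := by rw [hx]
  have e2 : xᴴ * ((δ : ℂ) • (1 - Q)) * x = (δ : ℂ) • (xᴴ * x) := by
    rw [Matrix.mul_smul, Matrix.smul_mul, Matrix.mul_assoc, hx]
  rw [e1, e2] at h1
  exact h1

/-- on `Q` the energy is large -/
theorem SpQ.large {U : Fin k → Matrix.unitaryGroup (Fin d) ℂ} {δ : ℝ} {Q : Mt d}
    (h : SpQ U δ Q) {x : Mt d} (hx : Q * x = x) :
    δ * hs x ≤ ∑ s, hs (((U s : Mt d) - 1) * x) := by
  rw [hs_Lp, hs_eq_tr, ← tr_smul]
  have h1 := Le_tr (Le_conj h.ge x)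
  have e1 : xᴴ * (Lp U * Q) * x = xᴴ * Lp U * x := by
    calc xᴴ * (Lp U * Q) * x = xᴴ * Lp U * (Q * x) := by
          simp only [Matrix.mul_assoc]
      _ = _ := by rw [hx]
  have e2 : xᴴ * ((δ : ℂ) • Q) * x = (δ : ℂ) • (xᴴ * x) := by
    rw [Matrix.mul_smul, Matrix.smul_mul, Matrix.mul_assoc, hx]
  rw [e1, e2] at h1
  exact h1

/-- `Q` is almost invariant. -/
theorem SpQ.almost {U : Fin k → Matrix.unitaryGroup (Fin d) ℂ} {δ : ℝ} {Q : Mt d} (hδ : 0 ≤ δ)
    (h : SpQ U δ Q) (s : Fin k) : hs ((U s : Mt d) * Q - Q * (U s : Mt d)) ≤ 2 * (δ * hs Q) := by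
  have hQ := h.pr
  have hP : IsPr (1 - Q) := pr_compl hQ
  have hPQ : (1 - Q) * Q = 0 := by rw [Matrix.sub_mul, Matrix.one_mul, hQ.2, sub_self]
  have hQP : Q * (1 - Q) = 0 := by rw [Matrix.mul_sub, Matrix.mul_one, hQ.2, sub_self]
  -- the two parts
  have key : ∀ W : Mt d, Wᴴ * W = 1 → (∀ x : Mt d, (1 - Q) * x = x → hs (Wᴴ * x - x) ≤ δ * hs x) →
      hs ((1 - Q) * (W * Q)) ≤ δ * hs Q := by
    intro W hW hs1
    set v := (1 - Q) * (W * Q) with hv
    have hPv : (1 - Q) * v = v := by rw [hv, ← Matrix.mul_assoc, hP.2]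
    have hvQ : Qᴴ * v = 0 := by
      rw [hQ.1, hv, ← Matrix.mul_assoc, hQP, Matrix.zero_mul]
    have h1 : hs v = tr ((Wᴴ * v - v)ᴴ * Q) := by
      have e1 : (Wᴴ * v - v)ᴴ * Q = vᴴ * (W * Q) - vᴴ * Q := by
        rw [Matrix.conjTranspose_sub, Matrix.conjTranspose_mul, Matrix.conjTranspose_conjTranspose,
          Matrix.sub_mul, Matrix.mul_assoc]
      have e2 : vᴴ * Q = 0 := by
        have := congrArg Matrix.conjTranspose hvQ
        rwa [Matrix.conjTranspose_mul, Matrix.conjTranspose_conjTranspose,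
          Matrix.conjTranspose_zero] at this
      have e3 : vᴴ * (W * Q) = vᴴ * v := by
        have : vᴴ = vᴴ * (1 - Q) := by
          have := congrArg Matrix.conjTranspose hPv
          rw [Matrix.conjTranspose_mul, hP.1] at this
          exact this.symm
        calc vᴴ * (W * Q) = vᴴ * (1 - Q) * (W * Q) := by rw [← this]
          _ = vᴴ * v := by rw [Matrix.mul_assoc]
      rw [e1, e2, sub_zero, e3, ← hs_eq_tr]
    have h2 : hs v ≤ √(δ * hs v) * √(hs Q) := by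
      calc hs v = tr ((Wᴴ * v - v)ᴴ * Q) := h1
        _ ≤ √(hs (Wᴴ * v - v)) * √(hs Q) := tr_conj_mul_le _ _
        _ ≤ √(δ * hs v) * √(hs Q) := by
            gcongr
            exact hs1 v hPv
    have h3 : (hs v) ^ 2 ≤ δ * hs v * hs Q := by
      have h4 := pow_le_pow_left₀ (hs_nonneg v) h2 2
      rwa [mul_pow, Real.sq_sqrt (mul_nonneg hδ (hs_nonneg _)), Real.sq_sqrt (hs_nonneg _)] at h4
    rcases (hs_nonneg v).eq_or_lt with h0 | h0
    · rw [← h0]
      exact mul_nonneg hδ (hs_nonneg _)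
    · have h5 : hs v * hs v ≤ hs v * (δ * hs Q) := by
        calc hs v * hs v = (hs v) ^ 2 := by ring
          _ ≤ δ * hs v * hs Q := h3
          _ = _ := by ring
      exact le_of_mul_le_mul_left h5 h0
  have hone : ∀ x : Mt d, (1 - Q) * x = x → hs (((U s : Mt d) - 1) * x) ≤ δ * hs x := fun x hx =>
    (Finset.single_le_sum (f := fun s => hs (((U s : Mt d) - 1) * x))
      (fun s _ => hs_nonneg _) (Finset.mem_univ s)).trans (h.small hx)
  have hU := uni (U s)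
  have hU' := unit_symm hU
  have k1 : hs ((1 - Q) * ((U s : Mt d) * Q)) ≤ δ * hs Q := by
    apply key _ hU
    intro x hx
    have e : (U s : Mt d)ᴴ * x - x = -((U s : Mt d)ᴴ * (((U s : Mt d) - 1) * x)) := by
      rw [Matrix.sub_mul, Matrix.one_mul, Matrix.mul_sub, ← Matrix.mul_assoc, hU, Matrix.one_mul]
      abel
    rw [e, hs_neg, hs_unit_mul (unit_conj hU)]
    exact hone x hx
  have k2 : hs ((1 - Q) * ((U s : Mt d)ᴴ * Q)) ≤ δ * hs Q := by
    apply key _ (unit_conj hU)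
    intro x hx
    rw [Matrix.conjTranspose_conjTranspose]
    have e : (U s : Mt d) * x - x = ((U s : Mt d) - 1) * x := by
      rw [Matrix.sub_mul, Matrix.one_mul]
    rw [e]
    exact hone x hx
  have k3 : hs (Q * (U s : Mt d) * (1 - Q)) ≤ δ * hs Q := by
    rw [← hs_conjTranspose]
    have e : (Q * (U s : Mt d) * (1 - Q))ᴴ = (1 - Q) * ((U s : Mt d)ᴴ * Q) := by
      rw [Matrix.conjTranspose_mul, Matrix.conjTranspose_mul, hQ.1, hP.1]
    rw [e]
    exact k2
  -- orthogonal decomposition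
  have e : (U s : Mt d) * Q - Q * (U s : Mt d) =
      (1 - Q) * ((U s : Mt d) * Q) - Q * (U s : Mt d) * (1 - Q) := by
    noncomm_ring
  have e2 : hs ((1 - Q) * ((U s : Mt d) * Q) - Q * (U s : Mt d) * (1 - Q)) =
      hs ((1 - Q) * ((U s : Mt d) * Q)) + hs (Q * (U s : Mt d) * (1 - Q)) := by
    set a := (1 - Q) * ((U s : Mt d) * Q) with ha
    set b := Q * (U s : Mt d) * (1 - Q) with hb
    have h1 : aᴴ * b = 0 := by
      rw [ha, hb, Matrix.conjTranspose_mul, hP.1]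
      calc ((U s : Mt d) * Q)ᴴ * (1 - Q) * (Q * (U s : Mt d) * (1 - Q)) =
          ((U s : Mt d) * Q)ᴴ * ((1 - Q) * Q) * ((U s : Mt d) * (1 - Q)) := by
            simp only [Matrix.mul_assoc]
        _ = 0 := by rw [hPQ]; simp
    have h2 : bᴴ * a = 0 := by
      have := congrArg Matrix.conjTranspose h1
      rwa [Matrix.conjTranspose_mul, Matrix.conjTranspose_conjTranspose,
        Matrix.conjTranspose_zero] at this
    rw [hs_eq_tr, hs_eq_tr a, hs_eq_tr b, Matrix.conjTranspose_sub, Matrix.sub_mul, Matrix.mul_sub,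
      Matrix.mul_sub, h1, h2, ← tr_add]
    congr 1
    abel
  rw [e, e2]
  linarith

/-- **The gap.** -/
theorem gap (G : Type) [Group G] (γ : FreeGroup (Fin k) →* G) (hT : HasT G)
    (hγ : Function.Surjective γ) :
    ∃ C : ℝ, 0 < C ∧ ∀ δ' : ℝ, 0 < δ' → ∃ (δ : ℝ) (R : Finset (FreeGroup (Fin k))),
      0 < δ ∧ (∀ w ∈ R, γ w = 1) ∧
      ∀ (d : ℕ) (U : Fin k → Matrix.unitaryGroup (Fin d) ℂ) (Q : Mt d), SpQ U δ' Q →
        (∀ w ∈ R, hs (((FreeGroup.lift U w : Mt d) - 1) * Q) ≤ δ * hs Q) →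
        hs Q ≤ C * ∑ s, hs (((U s : Mt d) - 1) * Q) := by
  obtain ⟨C, hC, H⟩ := smooth_left G γ hT hγ
  refine ⟨4 * C, by linarith, fun δ' hδ' => ?_⟩
  set η : ℝ := min (1 / 8) (δ' / 8) with hη
  have hη0 : 0 < η := by rw [hη]; positivity
  have hη1 : η ≤ 1 / 8 := min_le_left _ _
  have hη2 : η ≤ δ' / 8 := min_le_right _ _
  obtain ⟨K, δ, R, hδ, hR, H⟩ := H η hη0
  refine ⟨δ, R, hδ, hR, fun d U Q hQ hw => ?_⟩
  obtain ⟨h1, h2⟩ := H d U Q hw
  have h0 := hs_nonneg Q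
  have hQy : Q * (Lz U ^ K * Q) = Lz U ^ K * Q := by
    rw [← Matrix.mul_assoc, Lz_comm hQ.comm, Matrix.mul_assoc, hQ.pr.2]
  have h3 := hQ.large hQy
  have h4 : hs (Lz U ^ K * Q) ≤ 1 / 8 * hs Q := by
    have h5 : δ' * hs (Lz U ^ K * Q) ≤ δ' * (1 / 8 * hs Q) := by
      calc δ' * hs (Lz U ^ K * Q) ≤ η * hs Q := h3.trans h1
        _ ≤ δ' / 8 * hs Q := mul_le_mul_of_nonneg_right hη2 h0
        _ = _ := by ring
    exact le_of_mul_le_mul_left h5 hδ'
  have h6 : hs Q ≤ 2 * hs (Lz U ^ K * Q) + 2 * hs (Lz U ^ K * Q - Q) := by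
    have := hs_sub_le (Lz U ^ K * Q) (Lz U ^ K * Q - Q)
    rwa [sub_sub_cancel] at this
  have h7 : η * hs Q ≤ 1 / 8 * hs Q := mul_le_mul_of_nonneg_right hη1 h0
  nlinarith

end

end Pool.Agent.Helper28.UI
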