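import Pool.Agent.Helper28.UI.UNorm
import Pool.Agent.Helper28.UI.Gap

/-!
# Almost representations and words
-/

set_option autoImplicit false

namespace Pool.Agent.Helper28.UI

open Matrix Finset
open scoped ComplexOrder
open Pool.Agent.W661.RC Pool.Agent.W683.RC
open Pool.Agent.H80R2.HG.PSAux (uh hu)

noncomputable section

variable {G : Type} [Group G]

/-- `P` holds for all sufficiently good almost representations (in any unitarily invariant
seminorm). -/
def Ev (G : Type) [Group G]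
    (P : ∀ (n : ℕ), Seminorm ℂ (Mt n) → (G → unitaryGroup (Fin n) ℂ) → Prop) : Prop :=
  ∃ (A : Finset G) (δ : ℝ), 0 < δ ∧ ∀ (n : ℕ) (N : Seminorm ℂ (Mt n)), UnitarilyInvariant N →
    ∀ φ : G → unitaryGroup (Fin n) ℂ,
      (∀ a ∈ A, ∀ b ∈ A, N ((φ (a * b)).1 - (φ a).1 * (φ b).1) ≤ δ) → P n N φ

theorem Ev.mono {P P' : ∀ (n : ℕ), Seminorm ℂ (Mt n) → (G → unitaryGroup (Fin n) ℂ) → Prop}
    (h : Ev G P) (hP : ∀ n N φ, UnitarilyInvariant N → P n N φ → P' n N φ) : Ev G P' := by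
  obtain ⟨A, δ, hδ, h⟩ := h
  exact ⟨A, δ, hδ, fun n N hN φ hφ => hP n N φ hN (h n N hN φ hφ)⟩

theorem Ev.and {P P' : ∀ (n : ℕ), Seminorm ℂ (Mt n) → (G → unitaryGroup (Fin n) ℂ) → Prop}
    (h : Ev G P) (h' : Ev G P') : Ev G fun n N φ => P n N φ ∧ P' n N φ := by
  classical
  obtain ⟨A, δ, hδ, h⟩ := h
  obtain ⟨A', δ', hδ', h'⟩ := h'
  refine ⟨A ∪ A', min δ δ', lt_min hδ hδ', fun n N hN φ hφ => ⟨h n N hN φ fun a ha b hb => ?_,
    h' n N hN φ fun a ha b hb => ?_⟩⟩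
  · exact (hφ a (mem_union_left _ ha) b (mem_union_left _ hb)).trans (min_le_left _ _)
  · exact (hφ a (mem_union_right _ ha) b (mem_union_right _ hb)).trans (min_le_right _ _)

theorem Ev.all {ι : Type*} (s : Finset ι)
    {P : ι → ∀ (n : ℕ), Seminorm ℂ (Mt n) → (G → unitaryGroup (Fin n) ℂ) → Prop}
    (h : ∀ i ∈ s, Ev G (P i)) : Ev G fun n N φ => ∀ i ∈ s, P i n N φ := by
  classical
  induction s using Finset.induction_on with
  | empty => exact ⟨∅, 1, one_pos, fun _ _ _ _ _ i hi => absurd hi (notMem_empty i)⟩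
  | insert a s ha ih =>
    have h1 := h a (mem_insert_self a s)
    have h2 := ih fun i hi => h i (mem_insert_of_mem hi)
    refine (h1.and h2).mono fun n N φ _ hp i hi => ?_
    rcases mem_insert.1 hi with rfl | hi
    · exact hp.1
    · exact hp.2 i hi

theorem Ev.err (a b : G) {η : ℝ} (hη : 0 < η) :
    Ev G fun n N φ => N ((φ (a * b)).1 - (φ a).1 * (φ b).1) ≤ η := by
  classical
  exact ⟨{a, b}, η, hη, fun n N _ φ hφ => hφ a (by simp) b (by simp)⟩

theorem N_sub_comm {n : ℕ} {N : Seminorm ℂ (Mt n)} (x y : Mt n) : N (x - y) = N (y - x) := by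
  rw [← map_neg_eq_map, neg_sub]

theorem N_tri {n : ℕ} {N : Seminorm ℂ (Mt n)} (x y z : Mt n) : N (x - z) ≤ N (x - y) + N (y - z) := by
  have := map_add_le_add N (x - y) (y - z)
  rwa [sub_add_sub_cancel] at this

theorem Ev.one {η : ℝ} (hη : 0 < η) : Ev G fun n N φ => N ((φ 1).1 - 1) ≤ η := by
  refine (Ev.err 1 1 hη).mono fun n N φ hN h => ?_
  have e : (φ (1 * 1)).1 - (φ 1).1 * (φ 1).1 = (φ 1).1 * (1 - (φ 1).1) := by
    rw [one_mul, Matrix.mul_sub, Matrix.mul_one]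
  rw [e, hN.left] at h
  rw [N_sub_comm]
  exact h

theorem Ev.inv (a : G) {η : ℝ} (hη : 0 < η) :
    Ev G fun n N φ => N (((φ a)⁻¹).1 - (φ a⁻¹).1) ≤ η := by
  refine ((Ev.err a a⁻¹ (half_pos hη)).and (Ev.one (half_pos hη))).mono fun n N φ hN h => ?_
  obtain ⟨h1, h2⟩ := h
  rw [mul_inv_cancel] at h1
  have e : N (((φ a)⁻¹).1 - (φ a⁻¹).1) = N (1 - (φ a).1 * (φ a⁻¹).1) := by
    rw [← hN.left (φ a), Matrix.mul_sub, ← UnitaryGroup.mul_val, mul_inv_cancel]
    rfl
  rw [e]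
  have := N_tri (N := N) 1 (φ 1).1 ((φ a).1 * (φ a⁻¹).1)
  have h3 := N_sub_comm (N := N) 1 (φ 1).1
  linarith

variable {k : ℕ}

/-- the unitaries of the generators -/
def gU (γ : FreeGroup (Fin k) →* G) {n : ℕ} (φ : G → unitaryGroup (Fin n) ℂ) (s : Fin k) :
    unitaryGroup (Fin n) ℂ := φ (γ (FreeGroup.of s))

theorem N_mul_sub {n : ℕ} {N : Seminorm ℂ (Mt n)} (hN : UnitarilyInvariant N)
    (u v u' v' : unitaryGroup (Fin n) ℂ) :
    N (u.1 * v.1 - u'.1 * v'.1) ≤ N (u.1 - u'.1) + N (v.1 - v'.1) := by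
  have e : u.1 * v.1 - u'.1 * v'.1 = (u.1 - u'.1) * v.1 + u'.1 * (v.1 - v'.1) := by
    rw [Matrix.sub_mul, Matrix.mul_sub]; abel
  rw [e]
  refine (map_add_le_add N _ _).trans ?_
  rw [hN.right, hN.left]

/-- words are close to the values of `φ` -/
theorem Ev.word (γ : FreeGroup (Fin k) →* G) (w : FreeGroup (Fin k)) {η : ℝ} (hη : 0 < η) :
    Ev G fun n N φ => N ((FreeGroup.lift (gU γ φ) w).1 - (φ (γ w)).1) ≤ η := by
  induction w using FreeGroup.induction_on generalizing η with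
  | C1 =>
    refine (Ev.one hη).mono fun n N φ hN h => ?_
    rw [map_one, map_one, N_sub_comm]
    exact h
  | of s =>
    refine (Ev.one hη).mono fun n N φ hN h => ?_
    rw [FreeGroup.lift_apply_of]
    show N ((φ (γ (FreeGroup.of s))).1 - (φ (γ (FreeGroup.of s))).1) ≤ η
    rw [sub_self, map_zero]
    exact hη.le
  | inv_of s _ =>
    refine (Ev.inv (γ (FreeGroup.of s)) hη).mono fun n N φ hN h => ?_
    rw [map_inv, map_inv, FreeGroup.lift_apply_of]
    exact h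
  | mul w w' h1 h2 =>
    have h3 : 0 < η / 3 := by positivity
    refine (((h1 h3).and (h2 h3)).and (Ev.err (γ w) (γ w') h3)).mono fun n N φ hN h => ?_
    obtain ⟨⟨h4, h5⟩, h6⟩ := h
    rw [map_mul, map_mul, UnitaryGroup.mul_val]
    have h7 := N_tri (N := N) ((FreeGroup.lift (gU γ φ) w).1 * (FreeGroup.lift (gU γ φ) w').1)
      ((φ (γ w)).1 * (φ (γ w')).1) (φ (γ w * γ w')).1
    have h8 := N_mul_sub hN (FreeGroup.lift (gU γ φ) w) (FreeGroup.lift (gU γ φ) w') (φ (γ w))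
      (φ (γ w'))
    rw [N_sub_comm ((φ (γ w)).1 * (φ (γ w')).1)] at h7
    linarith

/-- relations almost hold -/
theorem Ev.rel (γ : FreeGroup (Fin k) →* G) (w : FreeGroup (Fin k)) (hw : γ w = 1) {η : ℝ}
    (hη : 0 < η) : Ev G fun n N φ => N ((FreeGroup.lift (gU γ φ) w).1 - 1) ≤ η := by
  refine ((Ev.word γ w (half_pos hη)).and (Ev.one (half_pos hη))).mono fun n N φ hN h => ?_
  obtain ⟨h1, h2⟩ := h
  rw [hw] at h1
  have := N_tri (N := N) (FreeGroup.lift (gU γ φ) w).1 (φ 1).1 1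
  linarith

/-! ### estimates for words -/

/-- the sum of the sizes of the generators -/
def mx {n : ℕ} (N : Seminorm ℂ (Mt n)) (U : Fin k → unitaryGroup (Fin n) ℂ) (x : Mt n) : ℝ :=
  ∑ s, N (((U s).1 - 1) * x)

theorem mx_nonneg {n : ℕ} (N : Seminorm ℂ (Mt n)) (U : Fin k → unitaryGroup (Fin n) ℂ) (x : Mt n) :
    0 ≤ mx N U x := sum_nonneg fun _ _ => apply_nonneg N _

/-- linear growth -/
theorem word_le (w : FreeGroup (Fin k)) : ∃ ℓ : ℝ, 1 ≤ ℓ ∧ ∀ (n : ℕ) (N : Seminorm ℂ (Mt n)),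
    UnitarilyInvariant N → ∀ (U : Fin k → unitaryGroup (Fin n) ℂ) (x : Mt n),
      N (((FreeGroup.lift U w).1 - 1) * x) ≤ ℓ * mx N U x := by
  induction w using FreeGroup.induction_on with
  | C1 =>
    refine ⟨1, le_rfl, fun n N hN U x => ?_⟩
    rw [map_one]
    have e : ((1 : unitaryGroup (Fin n) ℂ).1 - 1) * x = 0 := by
      rw [OneMemClass.coe_one, sub_self, Matrix.zero_mul]
    rw [e, map_zero, one_mul]
    exact mx_nonneg N U x
  | of s =>
    refine ⟨1, le_rfl, fun n N hN U x => ?_⟩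
    rw [FreeGroup.lift_apply_of, one_mul]
    exact single_le_sum (f := fun s => N (((U s).1 - 1) * x)) (fun _ _ => apply_nonneg N _)
      (mem_univ s)
  | inv_of s _ =>
    refine ⟨1, le_rfl, fun n N hN U x => ?_⟩
    rw [map_inv, FreeGroup.lift_apply_of, one_mul]
    have e : (((U s)⁻¹).1 - 1) * x = -(((U s)⁻¹).1 * (((U s).1 - 1) * x)) := by
      rw [← Matrix.mul_assoc, Matrix.mul_sub, ← UnitaryGroup.mul_val, inv_mul_cancel, Matrix.mul_one,
        ← Matrix.neg_mul, OneMemClass.coe_one, neg_sub]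
    rw [e, map_neg_eq_map, hN.left]
    exact single_le_sum (f := fun s => N (((U s).1 - 1) * x)) (fun _ _ => apply_nonneg N _)
      (mem_univ s)
  | mul w w' h1 h2 =>
    obtain ⟨ℓ1, hℓ1, h1⟩ := h1
    obtain ⟨ℓ2, hℓ2, h2⟩ := h2
    refine ⟨ℓ1 + ℓ2, by linarith, fun n N hN U x => ?_⟩
    have e : ((FreeGroup.lift U (w * w')).1 - 1) * x =
        (FreeGroup.lift U w).1 * (((FreeGroup.lift U w').1 - 1) * x) +
          ((FreeGroup.lift U w).1 - 1) * x := by
      rw [map_mul, UnitaryGroup.mul_val, Matrix.sub_mul, Matrix.sub_mul, Matrix.sub_mul,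
        Matrix.mul_sub, Matrix.one_mul]
      simp only [Matrix.mul_assoc]
      abel
    rw [e]
    refine (map_add_le_add N _ _).trans ?_
    rw [hN.left]
    have := h1 n N hN U x
    have := h2 n N hN U x
    linarith

/-- words almost commute with `Q` -/
theorem word_comm (w : FreeGroup (Fin k)) : ∃ ℓ : ℝ, 0 ≤ ℓ ∧ ∀ (n : ℕ)
    (U : Fin k → unitaryGroup (Fin n) ℂ) (Q : Mt n) (c : ℝ),
      (∀ s, hs ((U s).1 * Q - Q * (U s).1) ≤ c) →
      hs ((FreeGroup.lift U w).1 * Q - Q * (FreeGroup.lift U w).1) ≤ ℓ * c := by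
  induction w using FreeGroup.induction_on with
  | C1 =>
    refine ⟨0, le_rfl, fun n U Q c _ => ?_⟩
    rw [map_one, OneMemClass.coe_one, Matrix.one_mul, Matrix.mul_one, sub_self, hs_zero, zero_mul]
  | of s =>
    refine ⟨1, zero_le_one, fun n U Q c h => ?_⟩
    rw [FreeGroup.lift_apply_of, one_mul]
    exact h s
  | inv_of s _ =>
    refine ⟨1, zero_le_one, fun n U Q c h => ?_⟩
    rw [map_inv, FreeGroup.lift_apply_of, one_mul, UnitaryGroup.inv_val,
      Matrix.star_eq_conjTranspose, hs_comm_adj (uh (U s))]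
    exact h s
  | mul w w' h1 h2 =>
    obtain ⟨ℓ1, hℓ1, h1⟩ := h1
    obtain ⟨ℓ2, hℓ2, h2⟩ := h2
    refine ⟨2 * ℓ1 + 2 * ℓ2, by linarith, fun n U Q c h => ?_⟩
    have e : (FreeGroup.lift U (w * w')).1 * Q - Q * (FreeGroup.lift U (w * w')).1 =
        ((FreeGroup.lift U w).1 * Q - Q * (FreeGroup.lift U w).1) * (FreeGroup.lift U w').1 +
          (FreeGroup.lift U w).1 *
            ((FreeGroup.lift U w').1 * Q - Q * (FreeGroup.lift U w').1) := by
      rw [map_mul, UnitaryGroup.mul_val]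
      noncomm_ring
    rw [e]
    refine (hs_add_le _ _).trans ?_
    rw [hs_mul_unit (uh _), hs_unit_mul (uh _)]
    have := h1 n U Q c h
    have := h2 n U Q c h
    linarith

/-- commutators are small of second order -/
theorem comm_le (w : FreeGroup (Fin k)) (hw : w ∈ commutator (FreeGroup (Fin k))) :
    ∃ L : ℝ, 1 ≤ L ∧ ∀ (n : ℕ) (N : Seminorm ℂ (Mt n)), UnitarilyInvariant N →
      ∀ (U : Fin k → unitaryGroup (Fin n) ℂ) (κ b : ℝ), 0 ≤ κ → 0 ≤ b →
      (∀ (v : unitaryGroup (Fin n) ℂ), mx N U (v.1 - 1) ≤ κ * N (v.1 - 1) + b) →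
      N ((FreeGroup.lift U w).1 - 1) ≤ L * (κ * mx N U 1 + b) := by
  rw [commutator_eq_closure] at hw
  induction hw using Subgroup.closure_induction with
  | mem x hx =>
    obtain ⟨a, b, rfl⟩ := hx
    obtain ⟨ℓ1, hℓ1, h1⟩ := word_le a
    obtain ⟨ℓ2, hℓ2, h2⟩ := word_le b
    refine ⟨2 * ℓ1 * ℓ2 + ℓ1 + ℓ2, by nlinarith, fun n N hN U κ β hκ hβ hU => ?_⟩
    set u := FreeGroup.lift U a with hu'
    set v := FreeGroup.lift U b with hv'
    open scoped commutatorElement in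
    have e1 : N ((FreeGroup.lift U ⁅a, b⁆).1 - 1) = N (u.1 * v.1 - v.1 * u.1) := by
      have e0 : FreeGroup.lift U ⁅a, b⁆ * (v * u) = u * v := by
        rw [commutatorElement_def, map_mul, map_mul, map_mul, map_inv, map_inv, ← hu', ← hv']
        group
      rw [← hN.right (v * u), Matrix.sub_mul, Matrix.one_mul, ← UnitaryGroup.mul_val, e0,
        UnitaryGroup.mul_val, UnitaryGroup.mul_val]
    have e2 : u.1 * v.1 - v.1 * u.1 = (u.1 - 1) * (v.1 - 1) - (v.1 - 1) * (u.1 - 1) := by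
      noncomm_ring
    have h3 := h1 n N hN U (v.1 - 1)
    have h4 := h2 n N hN U (u.1 - 1)
    have h5 := hU v
    have h6 := hU u
    have h7 : N (v.1 - 1) ≤ ℓ2 * mx N U 1 := by
      have := h2 n N hN U 1
      rwa [Matrix.mul_one] at this
    have h8 : N (u.1 - 1) ≤ ℓ1 * mx N U 1 := by
      have := h1 n N hN U 1
      rwa [Matrix.mul_one] at this
    have hm := mx_nonneg N U 1
    have h9 : N ((u.1 - 1) * (v.1 - 1)) ≤ ℓ1 * (κ * (ℓ2 * mx N U 1) + β) := by
      refine h3.trans (mul_le_mul_of_nonneg_left (h5.trans ?_) (by linarith))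
      have := mul_le_mul_of_nonneg_left h7 hκ
      linarith
    have h10 : N ((v.1 - 1) * (u.1 - 1)) ≤ ℓ2 * (κ * (ℓ1 * mx N U 1) + β) := by
      refine h4.trans (mul_le_mul_of_nonneg_left (h6.trans ?_) (by linarith))
      have := mul_le_mul_of_nonneg_left h8 hκ
      linarith
    have h11 := map_sub_le_add N ((u.1 - 1) * (v.1 - 1)) ((v.1 - 1) * (u.1 - 1))
    rw [e1, e2]
    have hkm : 0 ≤ κ * mx N U 1 := mul_nonneg hκ hm
    have : (2 * ℓ1 * ℓ2 + ℓ1 + ℓ2) * (κ * mx N U 1 + β) =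
        ℓ1 * (κ * (ℓ2 * mx N U 1) + β) + ℓ2 * (κ * (ℓ1 * mx N U 1) + β) +
          ((ℓ1 + ℓ2) * (κ * mx N U 1) + 2 * ℓ1 * ℓ2 * β) := by ring
    have h12 : 0 ≤ (ℓ1 + ℓ2) * (κ * mx N U 1) + 2 * ℓ1 * ℓ2 * β := by positivity
    linarith
  | one =>
    refine ⟨1, le_rfl, fun n N hN U κ β hκ hβ hU => ?_⟩
    rw [map_one, OneMemClass.coe_one, sub_self, map_zero, one_mul]
    exact add_nonneg (mul_nonneg hκ (mx_nonneg _ _ _)) hβ
  | mul x y _ _ hx hy =>
    obtain ⟨L1, hL1, h1⟩ := hx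
    obtain ⟨L2, hL2, h2⟩ := hy
    refine ⟨L1 + L2, by linarith, fun n N hN U κ β hκ hβ hU => ?_⟩
    have e : (FreeGroup.lift U (x * y)).1 - 1 = (FreeGroup.lift U x).1 *
        ((FreeGroup.lift U y).1 - 1) + ((FreeGroup.lift U x).1 - 1) := by
      rw [map_mul, UnitaryGroup.mul_val, Matrix.mul_sub, Matrix.mul_one]
      abel
    rw [e]
    refine (map_add_le_add N _ _).trans ?_
    rw [hN.left]
    have := h1 n N hN U κ β hκ hβ hU
    have := h2 n N hN U κ β hκ hβ hU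
    linarith
  | inv x _ hx =>
    obtain ⟨L1, hL1, h1⟩ := hx
    refine ⟨L1, hL1, fun n N hN U κ β hκ hβ hU => ?_⟩
    have e : N ((FreeGroup.lift U x⁻¹).1 - 1) = N ((FreeGroup.lift U x).1 - 1) := by
      rw [← hN.left (FreeGroup.lift U x), Matrix.mul_sub, ← UnitaryGroup.mul_val, ← map_mul,
        mul_inv_cancel, map_one, Matrix.mul_one, N_sub_comm, OneMemClass.coe_one]
    rw [e]
    exact h1 n N hN U κ β hκ hβ hU

/-- the hypothesis of `comm_le` for a spectral projection of the Laplacian -/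
theorem mx_le {n : ℕ} {N : Seminorm ℂ (Mt n)} (hN : UnitarilyInvariant N)
    (U : Fin k → unitaryGroup (Fin n) ℂ) {κ : ℝ} (hκ : 0 < κ) {Q : Mt n} (hQ : SpQ U (κ ^ 2) Q)
    (v : unitaryGroup (Fin n) ℂ) :
    mx N U (v.1 - 1) ≤ k * κ * N (v.1 - 1) + 4 * k * N Q := by
  have h1 : ∀ s, N (((U s).1 - 1) * (v.1 - 1)) ≤ κ * N (v.1 - 1) + 4 * N Q := by
    intro s
    have e : ((U s).1 - 1) * (v.1 - 1) = ((U s).1 - 1) * (1 - Q) * (v.1 - 1) +
        (((U s).1 * (Q * (v.1 - 1))) - Q * (v.1 - 1)) := by noncomm_ring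
    rw [e]
    refine (map_add_le_add N _ _).trans ?_
    have h2 : N (((U s).1 - 1) * (1 - Q) * (v.1 - 1)) ≤ κ * N (v.1 - 1) := by
      apply hN.mul_le hκ
      -- ((U - 1)(1 - Q))* ((U - 1)(1 - Q)) ≤ κ²
      have hP := pr_compl hQ.pr
      have h3 : Le ((((U s).1 - 1) * (1 - Q))ᴴ * (((U s).1 - 1) * (1 - Q)))
          ((1 - Q) * Lp U * (1 - Q)) := by
        have h4 : Le (((U s).1 - 1)ᴴ * ((U s).1 - 1)) (Lp U) := by
          unfold Le Lp
          rw [← Finset.add_sum_erase univ _ (mem_univ s), add_sub_cancel_left]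
          exact Matrix.posSemidef_sum _ fun _ _ => Matrix.posSemidef_conjTranspose_mul_self _
        have h5 := Le_conj h4 (1 - Q)
        rw [hP.1] at h5
        have e1 : (((U s).1 - 1) * (1 - Q))ᴴ * (((U s).1 - 1) * (1 - Q)) =
            (1 - Q) * (((U s).1 - 1)ᴴ * ((U s).1 - 1)) * (1 - Q) := by
          rw [Matrix.conjTranspose_mul, hP.1]
          simp only [Matrix.mul_assoc]
        rw [e1]
        exact h5
      have h6 : (1 - Q) * Lp U * (1 - Q) = Lp U * (1 - Q) := by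
        rw [Matrix.sub_mul, Matrix.one_mul, hQ.comm, Matrix.sub_mul, Matrix.mul_assoc (Lp U) Q,
          Matrix.mul_sub Q, Matrix.mul_one, hQ.pr.2, sub_self, Matrix.mul_zero, sub_zero]
      rw [h6] at h3
      refine Le_trans h3 (Le_trans hQ.le ?_)
      exact Le_smul (pr_le_one hP) (by positivity)
    have h7 : N (Q * (v.1 - 1)) ≤ 2 * N Q := by
      rw [Matrix.mul_sub, Matrix.mul_one]
      refine (map_sub_le_add N _ _).trans ?_
      rw [hN.right]
      linarith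
    have h8 : N ((U s).1 * (Q * (v.1 - 1)) - Q * (v.1 - 1)) ≤ 4 * N Q := by
      refine (map_sub_le_add N _ _).trans ?_
      rw [hN.left]
      linarith
    linarith
  unfold mx
  calc ∑ s, N (((U s).1 - 1) * (v.1 - 1)) ≤ ∑ _s : Fin k, (κ * N (v.1 - 1) + 4 * N Q) :=
        sum_le_sum fun s _ => h1 s
    _ = k * κ * N (v.1 - 1) + 4 * k * N Q := by
        rw [sum_const, card_univ, Fintype.card_fin, nsmul_eq_mul]
        ring

end

end Pool.Agent.Helper28.UI
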