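import Pool.Agent.Helper28.UI.Sv

/-!
# Domination of singular numbers gives a factorisation
-/

set_option autoImplicit false
set_option linter.deprecated false

namespace Pool.Agent.Helper28.UI

open Matrix Finset Module
open scoped ComplexOrder Matrix.Norms.L2Operator
open Pool.Agent.W661.RC Pool.Agent.W683.RC
open Pool.Agent.H80R2.HG Pool.Agent.H80R2.HG.PSAux

noncomputable section

variable {n : ℕ}

/-! ### matching -/

theorem matching (C : ℕ) (hC : 1 ≤ C) (f x : Fin n → ℝ) (hf : ∀ i, 0 ≤ f i)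
    (h : ∀ s : ℝ, 0 ≤ s → (univ.filter fun i => (C : ℝ) ^ 2 * s < x i).card ≤
      C * (univ.filter fun i => s < f i).card) :
    ∃ (τ : Fin n → Fin n) (c : Fin n → Fin C), (∀ i j, c i = c j → τ i = τ j → i = j) ∧
      ∀ i, x i ≤ (C : ℝ) ^ 2 * f (τ i) := by
  set σ := Tuple.sort fun i => -f i with hσ
  set ρ := Tuple.sort fun i => -x i with hρ
  have hσm : ∀ a b : Fin n, a ≤ b → f (σ b) ≤ f (σ a) := by
    intro a b hab
    have := Tuple.monotone_sort (fun i => -f i) hab
    simp only [Function.comp] at this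
    rw [← hσ] at this
    linarith
  have hρm : ∀ a b : Fin n, a ≤ b → x (ρ b) ≤ x (ρ a) := by
    intro a b hab
    have := Tuple.monotone_sort (fun i => -x i) hab
    simp only [Function.comp] at this
    rw [← hρ] at this
    linarith
  let q : Fin n → Fin n := fun a => ⟨(a : ℕ) / C, lt_of_le_of_lt (Nat.div_le_self _ _) a.2⟩
  refine ⟨fun i => σ (q (ρ.symm i)), fun i => ⟨(ρ.symm i : ℕ) % C, Nat.mod_lt _ hC⟩, ?_, ?_⟩
  · intro i j h1 h2
    have h3 : (ρ.symm i : ℕ) % C = (ρ.symm j : ℕ) % C := congrArg Fin.val h1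
    have h4 : (ρ.symm i : ℕ) / C = (ρ.symm j : ℕ) / C := congrArg Fin.val (σ.injective h2)
    have h5 : (ρ.symm i : ℕ) = (ρ.symm j : ℕ) := by
      rw [← Nat.div_add_mod (ρ.symm i : ℕ) C, ← Nat.div_add_mod (ρ.symm j : ℕ) C, h3, h4]
    exact ρ.symm.injective (Fin.ext h5)
  · intro i
    by_contra hcon
    push Not at hcon
    set a := ρ.symm i with ha
    have hai : ρ a = i := ρ.apply_symm_apply i
    have h1 := h (f (σ (q a))) (hf _)
    have h2 : (Iic a).card ≤ (univ.filter fun i => (C : ℝ) ^ 2 * f (σ (q a)) < x i).card := by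
      rw [← card_map ρ.toEmbedding]
      apply card_le_card
      intro j hj
      obtain ⟨b, hb, rfl⟩ := mem_map.1 hj
      rw [mem_filter]
      refine ⟨mem_univ _, hcon.trans_le ?_⟩
      rw [← hai]
      exact hρm b a (mem_Iic.1 hb)
    have h3 : (univ.filter fun i => f (σ (q a)) < f i).card ≤ (Iio (q a)).card := by
      rw [← card_map (s := Iio (q a)) σ.toEmbedding]
      apply card_le_card
      intro j hj
      rw [mem_filter] at hj
      refine mem_map.2 ⟨σ.symm j, ?_, σ.apply_symm_apply j⟩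
      rw [mem_Iio]
      by_contra hlt
      push Not at hlt
      have := hσm _ _ hlt
      rw [Equiv.apply_symm_apply] at this
      linarith [hj.2]
    rw [Fin.card_Iic] at h2
    rw [Fin.card_Iio] at h3
    have h4 : (q a : ℕ) = (a : ℕ) / C := rfl
    have h5 : C * ((a : ℕ) / C) ≤ (a : ℕ) := Nat.mul_div_le _ _
    have h6 : C * (univ.filter fun i => f (σ (q a)) < f i).card ≤ C * (q a : ℕ) :=
      Nat.mul_le_mul_left _ h3
    rw [h4] at h6
    omega

/-! ### counting eigenvalues -/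

theorem inner_diag (a : Fin n → ℝ) (w : EE n) :
    (inner ℂ w (ev (diagonal fun i => (a i : ℂ)) w)).re = ∑ i, a i * ‖w i‖ ^ 2 := by
  rw [PiLp.inner_apply, Complex.re_sum]
  refine sum_congr rfl fun i _ => ?_
  have e : (ev (diagonal fun i => (a i : ℂ)) w) i = (a i : ℂ) * w i := by
    unfold ev
    rw [show (Matrix.toEuclideanCLM (𝕜 := ℂ) (diagonal fun i => (a i : ℂ)) w) i =
      ((diagonal fun i => (a i : ℂ)) *ᵥ (WithLp.ofLp w)) i from rfl, mulVec_diagonal]
  rw [e]
  have e2 : inner ℂ (w i) ((a i : ℂ) * w i) = ((a i * ‖w i‖ ^ 2 : ℝ) : ℂ) := by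
    rw [RCLike.inner_apply]
    push_cast
    rw [mul_assoc, Complex.mul_conj, Complex.normSq_eq_norm_sq]
    push_cast
    ring
  rw [e2, Complex.ofReal_re]

theorem inner_conj (U : unitaryGroup (Fin n) ℂ) (a : Fin n → ℝ) (v : EE n) :
    (inner ℂ v (ev ((U : Mt n) * diagonal (fun i => (a i : ℂ)) * (U : Mt n)ᴴ) v)).re =
      ∑ i, a i * ‖(ev (U : Mt n)ᴴ v) i‖ ^ 2 := by
  rw [Matrix.mul_assoc, ev_mul]
  have h := ev_inner (U : Mt n)ᴴ v (ev (diagonal (fun i => (a i : ℂ)) * (U : Mt n)ᴴ) v)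
  rw [Matrix.conjTranspose_conjTranspose] at h
  rw [← h, ev_mul, inner_diag]

theorem norm_sq_conj (U : unitaryGroup (Fin n) ℂ) (v : EE n) :
    ‖v‖ ^ 2 = ∑ i, ‖(ev (U : Mt n)ᴴ v) i‖ ^ 2 := by
  have h : ‖ev (U : Mt n)ᴴ v‖ = ‖v‖ := norm_ev_unit (by
    rw [Matrix.conjTranspose_conjTranspose]; exact hu U) v
  rw [← h, EuclideanSpace.norm_sq_eq]

/-- the kernel of the coordinates in a set -/
theorem exists_ker (U : unitaryGroup (Fin n) ℂ) (p : Fin n → Prop) [DecidablePred p] :
    ∃ W : Submodule ℂ (EE n), n ≤ finrank ℂ W + (univ.filter p).card ∧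
      ∀ v ∈ W, ∀ i, p i → (ev (U : Mt n)ᴴ v) i = 0 := by
  set D : Mt n := diagonal fun i => if p i then (1 : ℂ) else 0 with hD
  refine ⟨LinearMap.ker (Matrix.toEuclideanLin (𝕜 := ℂ) (D * (U : Mt n)ᴴ)), ?_, ?_⟩
  · have h1 := ker_big (D * (U : Mt n)ᴴ)
    have h2 : rk (D * (U : Mt n)ᴴ) ≤ (univ.filter p).card := by
      rw [rk_eq]
      refine (Matrix.rank_mul_le_left _ _).trans ?_
      rw [hD, Matrix.rank_diagonal, Fintype.card_subtype]
      apply card_le_card
      intro i hi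
      rw [mem_filter] at hi ⊢
      refine ⟨mem_univ _, ?_⟩
      by_contra hp
      exact hi.2 (if_neg hp)
    exact h1.le.trans (Nat.add_le_add_left h2 _)
  · intro v hv i hi
    have h1 : ev (D * (U : Mt n)ᴴ) v = 0 := hv
    rw [ev_mul] at h1
    have h2 : (ev D (ev (U : Mt n)ᴴ v)) i = (if p i then (1 : ℂ) else 0) * (ev (U : Mt n)ᴴ v) i := by
      generalize ev (U : Mt n)ᴴ v = w
      unfold ev
      rw [show (Matrix.toEuclideanCLM (𝕜 := ℂ) D w) i = (D *ᵥ (WithLp.ofLp w)) i from rfl, hD,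
        mulVec_diagonal]
    rw [h1, if_pos hi, one_mul] at h2
    exact h2.symm

theorem count {ι : Type*} [Fintype ι] (C : ℕ) (E : ι → Mt n) (X : Mt n)
    (h : ∀ (r : ℕ) (t : ℝ), 0 ≤ t → (∀ j, Sm (E j) r t) → Sm X (C * r) (C * t))
    (U V : unitaryGroup (Fin n) ℂ) (f x : Fin n → ℝ)
    (hF : ∑ j, (E j)ᴴ * E j = (U : Mt n) * diagonal (fun i => (f i : ℂ)) * (U : Mt n)ᴴ)
    (hX : Xᴴ * X = (V : Mt n) * diagonal (fun i => (x i : ℂ)) * (V : Mt n)ᴴ) (s : ℝ) (hs : 0 ≤ s) :
    (univ.filter fun i => (C : ℝ) ^ 2 * s < x i).card ≤ C * (univ.filter fun i => s < f i).card := by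
  classical
  set r := (univ.filter fun i => s < f i).card with hr
  obtain ⟨W, hW, h1⟩ := exists_ker U fun i => s < f i
  have h2 : ∀ j, Sm (E j) r (√s) := by
    intro j
    refine ⟨W, hW, fun v hv => ?_⟩
    have h3 : ‖ev (E j) v‖ ^ 2 ≤ s * ‖v‖ ^ 2 := by
      have h4 : ‖ev (E j) v‖ ^ 2 ≤ ∑ j, ‖ev (E j) v‖ ^ 2 :=
        single_le_sum (f := fun j => ‖ev (E j) v‖ ^ 2) (fun _ _ => sq_nonneg _) (mem_univ j)
      have h5 : ∑ j, ‖ev (E j) v‖ ^ 2 = (inner ℂ v (ev (∑ j, (E j)ᴴ * E j) v)).re := by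
        have : ev (∑ j, (E j)ᴴ * E j) v = ∑ j, ev ((E j)ᴴ * E j) v := by
          unfold ev
          rw [map_sum]
          exact sum_apply _ _ _
        rw [this, inner_sum, Complex.re_sum]
        exact sum_congr rfl fun j _ => norm_sq_ev _ _
      rw [h5, hF, inner_conj] at h4
      refine h4.trans ?_
      rw [norm_sq_conj U v, mul_sum]
      refine sum_le_sum fun i _ => ?_
      by_cases hi : s < f i
      · rw [h1 v hv i hi, norm_zero]
        simp
      · push Not at hi
        exact mul_le_mul_of_nonneg_right hi (sq_nonneg _)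
    have h6 : (√s * ‖v‖) ^ 2 = s * ‖v‖ ^ 2 := by rw [mul_pow, Real.sq_sqrt hs]
    rw [← h6] at h3
    exact le_of_sq_le_sq h3 (by positivity)
  obtain ⟨W', hW', h3⟩ := h r (√s) (Real.sqrt_nonneg s) h2
  obtain ⟨K, hK, h4⟩ := exists_ker V fun i => ¬ ((C : ℝ) ^ 2 * s < x i)
  have hdisj : K ⊓ W' = ⊥ := by
    rw [eq_bot_iff]
    intro v hv
    have h5 := h3 v hv.2
    have h6 := h4 v hv.1
    have h7 : ‖ev X v‖ ^ 2 ≤ (C : ℝ) ^ 2 * s * ‖v‖ ^ 2 := by
      have := pow_le_pow_left₀ (norm_nonneg _) h5 2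
      rwa [mul_pow, mul_pow, Real.sq_sqrt hs] at this
    rw [norm_sq_ev, hX, inner_conj, norm_sq_conj V v, mul_sum] at h7
    have h8 : ∀ i ∈ univ, (C : ℝ) ^ 2 * s * ‖(ev (V : Mt n)ᴴ v) i‖ ^ 2 ≤
        x i * ‖(ev (V : Mt n)ᴴ v) i‖ ^ 2 := by
      intro i _
      by_cases hi : (C : ℝ) ^ 2 * s < x i
      · exact mul_le_mul_of_nonneg_right hi.le (sq_nonneg _)
      · rw [h6 i hi, norm_zero]
        simp
    have h9 := (sum_eq_sum_iff_of_le h8).1 (le_antisymm (sum_le_sum h8) h7)
    have h10 : ∀ i, (ev (V : Mt n)ᴴ v) i = 0 := by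
      intro i
      by_cases hi : (C : ℝ) ^ 2 * s < x i
      · have h11 := h9 i (mem_univ i)
        have h12 : ‖(ev (V : Mt n)ᴴ v) i‖ ^ 2 = 0 := by
          by_contra hne
          have : (C : ℝ) ^ 2 * s = x i := mul_right_cancel₀ hne h11
          linarith
        exact norm_eq_zero.1 (pow_eq_zero_iff two_ne_zero |>.1 h12)
      · exact h6 i hi
    have h13 : ‖v‖ ^ 2 = 0 := by
      rw [norm_sq_conj V v]
      exact sum_eq_zero fun i _ => by rw [h10 i, norm_zero]; simp
    exact norm_eq_zero.1 (pow_eq_zero_iff two_ne_zero |>.1 h13)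
  have h5 := Submodule.finrank_sup_add_finrank_inf_eq K W'
  have h6 := (K ⊔ W').finrank_le
  rw [finrank_euclideanSpace, Fintype.card_fin] at h6
  rw [hdisj, finrank_bot] at h5
  have h7 : (univ.filter fun i => (C : ℝ) ^ 2 * s < x i).card +
      (univ.filter fun i => ¬ ((C : ℝ) ^ 2 * s < x i)).card = n := by
    rw [card_filter_add_card_filter_not, card_univ, Fintype.card_fin]
  omega

/-! ### norms from Gram matrices -/

theorem norm_le_of_gram_sum {ι : Type*} [Fintype ι] (M : ι → Mt n) (a : Fin n → ℝ) {c : ℝ}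
    (hc : 0 ≤ c) (hM : ∑ j, (M j)ᴴ * M j = diagonal fun i => (a i : ℂ)) (ha : ∀ i, a i ≤ c ^ 2)
    (j : ι) : ‖M j‖ ≤ c := by
  apply norm_le_of_ev hc
  intro v
  have h4 : ‖ev (M j) v‖ ^ 2 ≤ ∑ j, ‖ev (M j) v‖ ^ 2 :=
    single_le_sum (f := fun j => ‖ev (M j) v‖ ^ 2) (fun _ _ => sq_nonneg _) (mem_univ j)
  have h5 : ∑ j, ‖ev (M j) v‖ ^ 2 = (inner ℂ v (ev (∑ j, (M j)ᴴ * M j) v)).re := by
    have : ev (∑ j, (M j)ᴴ * M j) v = ∑ j, ev ((M j)ᴴ * M j) v := by
      unfold ev
      rw [map_sum]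
      exact sum_apply _ _ _
    rw [this, inner_sum, Complex.re_sum]
    exact sum_congr rfl fun j _ => norm_sq_ev _ _
  rw [h5, hM, inner_diag] at h4
  apply le_of_sq_le_sq _ (by positivity)
  refine h4.trans ?_
  rw [mul_pow, EuclideanSpace.norm_sq_eq, mul_sum]
  exact sum_le_sum fun i _ => mul_le_mul_of_nonneg_right (ha i) (sq_nonneg _)

theorem norm_le_of_gram (M : Mt n) (a : Fin n → ℝ) {c : ℝ} (hc : 0 ≤ c)
    (hM : Mᴴ * M = diagonal fun i => (a i : ℂ)) (ha : ∀ i, a i ≤ c ^ 2) : ‖M‖ ≤ c :=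
  norm_le_of_gram_sum (ι := Unit) (fun _ => M) a hc (by simpa using hM) ha ()

/-! ### the factorisation -/

/-- the partial permutation matrix -/
def TT {C : ℕ} (τ : Fin n → Fin n) (c : Fin n → Fin C) (k : Fin C) : Mt n :=
  Matrix.of fun q i => if c i = k ∧ τ i = q then 1 else 0

theorem TT_conj {C : ℕ} (τ : Fin n → Fin n) (c : Fin n → Fin C)
    (hinj : ∀ i j, c i = c j → τ i = τ j → i = j) (k : Fin C) (a : Fin n → ℂ) :
    (TT τ c k)ᴴ * diagonal a * TT τ c k = diagonal fun i => if c i = k then a (τ i) else 0 := by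
  ext i j
  rw [Matrix.mul_apply]
  simp only [mul_diagonal, conjTranspose_apply, TT, of_apply]
  by_cases hij : i = j
  · subst hij
    rw [diagonal_apply_eq]
    by_cases hk : c i = k
    · rw [if_pos hk, sum_eq_single (τ i)]
      · simp [hk]
      · intro q _ hq
        simp [hk, hq.symm]
      · intro h
        exact absurd (mem_univ _) h
    · rw [if_neg hk]
      simp [hk]
  · rw [diagonal_apply_ne _ hij]
    apply sum_eq_zero
    intro q _
    by_cases h1 : c i = k ∧ τ i = q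
    · by_cases h2 : c j = k ∧ τ j = q
      · exact absurd (hinj i j (h1.1.trans h2.1.symm) (h1.2.trans h2.2.symm)) hij
      · rw [if_neg h2, mul_zero]
    · rw [if_neg h1]
      simp

theorem factor {ι : Type*} [Fintype ι] (C : ℕ) (hC : 1 ≤ C) (E : ι → Mt n) (X : Mt n)
    (h : ∀ (r : ℕ) (t : ℝ), 0 ≤ t → (∀ j, Sm (E j) r t) → Sm X (C * r) (C * t)) :
    ∃ (a : Fin C → ι → Mt n) (b : Fin C → Mt n), (∀ k j, ‖a k j‖ ≤ C) ∧ (∀ k, ‖b k‖ ≤ 1) ∧
      X = ∑ k, ∑ j, a k j * E j * b k := by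
  classical
  have hFp : (∑ j, (E j)ᴴ * E j).PosSemidef :=
    Matrix.posSemidef_sum _ fun _ _ => Matrix.posSemidef_conjTranspose_mul_self _
  have hXp : (Xᴴ * X).PosSemidef := Matrix.posSemidef_conjTranspose_mul_self _
  have hF := herm_eq _ hFp.1
  have hX := herm_eq _ hXp.1
  unfold conjD at hF hX
  have hf0 : ∀ i, 0 ≤ hFp.1.eigenvalues i := hFp.eigenvalues_nonneg
  have hx0 : ∀ i, 0 ≤ hXp.1.eigenvalues i := hXp.eigenvalues_nonneg
  set U := hFp.1.eigenvectorUnitary
  set f := hFp.1.eigenvalues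
  set V := hXp.1.eigenvectorUnitary
  set x := hXp.1.eigenvalues
  obtain ⟨τ, c, hinj, hle⟩ := matching C hC f x hf0 (count C E X h U V f x hF hX)
  set g : Fin n → ℝ := fun i => (√(f (τ i)))⁻¹ with hg
  have hg2 : ∀ i, g i * g i * f (τ i) = if f (τ i) = 0 then 0 else 1 := by
    intro i
    split_ifs with h0
    · rw [h0, mul_zero]
    · have h1 : √(f (τ i)) ≠ 0 := by
        rw [Real.sqrt_ne_zero (hf0 _)]
        exact h0
      have h2 : √(f (τ i)) * √(f (τ i)) = f (τ i) := Real.mul_self_sqrt (hf0 _)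
      rw [hg]
      field_simp
      rw [sq, h2]
  let D : Fin C → Mt n := fun k => diagonal fun i => if c i = k then (g i : ℂ) else 0
  have hDh : ∀ k, (D k)ᴴ = D k := by
    intro k
    show (diagonal _)ᴴ = diagonal _
    rw [diagonal_conjTranspose]
    congr 1
    funext i
    rw [Pi.star_apply]
    split_ifs
    · exact Complex.conj_ofReal _
    · exact star_zero _
  have hUF : (U : Mt n)ᴴ * (∑ j, (E j)ᴴ * E j) * (U : Mt n) = diagonal fun i => (f i : ℂ) := by
    rw [hF]
    calc (U : Mt n)ᴴ * ((U : Mt n) * diagonal (fun i => (f i : ℂ)) * (U : Mt n)ᴴ) * (U : Mt n)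
        = ((U : Mt n)ᴴ * (U : Mt n)) * diagonal (fun i => (f i : ℂ)) *
          ((U : Mt n)ᴴ * (U : Mt n)) := by simp only [Matrix.mul_assoc]
      _ = _ := by rw [uh U, Matrix.one_mul, Matrix.mul_one]
  have hVX : (V : Mt n)ᴴ * (Xᴴ * X) * (V : Mt n) = diagonal fun i => (x i : ℂ) := by
    rw [hX]
    calc (V : Mt n)ᴴ * ((V : Mt n) * diagonal (fun i => (x i : ℂ)) * (V : Mt n)ᴴ) * (V : Mt n)
        = ((V : Mt n)ᴴ * (V : Mt n)) * diagonal (fun i => (x i : ℂ)) *
          ((V : Mt n)ᴴ * (V : Mt n)) := by simp only [Matrix.mul_assoc]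
      _ = _ := by rw [uh V, Matrix.one_mul, Matrix.mul_one]
  have hgram : ∀ k, ∑ j, (E j * (U : Mt n) * TT τ c k)ᴴ * (E j * (U : Mt n) * TT τ c k) =
      diagonal fun i => if c i = k then (f (τ i) : ℂ) else 0 := by
    intro k
    rw [← TT_conj τ c hinj k fun i => (f i : ℂ), ← hUF, Matrix.mul_sum, Matrix.sum_mul,
      Matrix.mul_sum, Matrix.sum_mul]
    refine sum_congr rfl fun j _ => ?_
    simp only [Matrix.conjTranspose_mul, Matrix.mul_assoc]
  refine ⟨fun k j => (X * (V : Mt n) * D k) * (E j * (U : Mt n) * TT τ c k * D k)ᴴ,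
    fun k => (U : Mt n) * TT τ c k * (V : Mt n)ᴴ, ?_, ?_, ?_⟩
  · intro k j
    have h1 : ‖X * (V : Mt n) * D k‖ ≤ C := by
      apply norm_le_of_gram _ (fun i => if c i = k then g i * g i * x i else 0) (Nat.cast_nonneg C)
      · have e : (X * (V : Mt n) * D k)ᴴ * (X * (V : Mt n) * D k) =
            D k * ((V : Mt n)ᴴ * (Xᴴ * X) * (V : Mt n)) * D k := by
          rw [Matrix.conjTranspose_mul, Matrix.conjTranspose_mul, hDh]
          simp only [Matrix.mul_assoc]
        rw [e, hVX]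
        show diagonal _ * diagonal _ * diagonal _ = _
        rw [diagonal_mul_diagonal, diagonal_mul_diagonal]
        congr 1
        funext i
        split_ifs
        · push_cast; ring
        · simp
      · intro i
        show (if c i = k then g i * g i * x i else 0) ≤ _
        split_ifs
        · have h2 : g i * g i * x i ≤ g i * g i * ((C : ℝ) ^ 2 * f (τ i)) :=
            mul_le_mul_of_nonneg_left (hle i) (mul_self_nonneg _)
          have h3 : g i * g i * ((C : ℝ) ^ 2 * f (τ i)) = (C : ℝ) ^ 2 * (g i * g i * f (τ i)) := by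
            ring
          rw [h3, hg2] at h2
          refine h2.trans ?_
          split_ifs
          · rw [mul_zero]; positivity
          · rw [mul_one]
        · positivity
    have h2 : ‖E j * (U : Mt n) * TT τ c k * D k‖ ≤ 1 := by
      apply norm_le_of_gram_sum (fun j => E j * (U : Mt n) * TT τ c k * D k)
        (fun i => if c i = k then g i * g i * f (τ i) else 0) zero_le_one
      · have e : ∀ j, (E j * (U : Mt n) * TT τ c k * D k)ᴴ * (E j * (U : Mt n) * TT τ c k * D k) =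
            D k * ((E j * (U : Mt n) * TT τ c k)ᴴ * (E j * (U : Mt n) * TT τ c k)) * D k := by
          intro j
          rw [Matrix.conjTranspose_mul, hDh]
          simp only [Matrix.mul_assoc]
        rw [sum_congr rfl fun j _ => e j, ← Matrix.sum_mul, ← Matrix.mul_sum, hgram]
        show diagonal _ * diagonal _ * diagonal _ = _
        rw [diagonal_mul_diagonal, diagonal_mul_diagonal]
        congr 1
        funext i
        split_ifs
        · push_cast; ring
        · simp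
      · intro i
        show (if c i = k then g i * g i * f (τ i) else 0) ≤ _
        rw [hg2]
        split_ifs <;> norm_num
    calc ‖(X * (V : Mt n) * D k) * (E j * (U : Mt n) * TT τ c k * D k)ᴴ‖
        ≤ ‖X * (V : Mt n) * D k‖ * ‖(E j * (U : Mt n) * TT τ c k * D k)ᴴ‖ := norm_mul_le _ _
      _ ≤ C * 1 := by
          rw [← Matrix.star_eq_conjTranspose, norm_star]
          exact mul_le_mul h1 h2 (norm_nonneg _) (Nat.cast_nonneg C)
      _ = C := mul_one _
  · intro k
    have h1 : ‖TT τ c k‖ ≤ 1 := by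
      apply norm_le_of_gram _ (fun i => if c i = k then 1 else 0) zero_le_one
      · have := TT_conj τ c hinj k fun _ => (1 : ℂ)
        rw [diagonal_one, Matrix.mul_one] at this
        rw [this]
        congr 1
        funext i
        split_ifs <;> simp
      · intro i
        show (if c i = k then (1 : ℝ) else 0) ≤ _
        split_ifs <;> norm_num
    have h2 := norm_u_le U
    have h3 : ‖(V : Mt n)ᴴ‖ ≤ 1 := by
      rw [← Matrix.star_eq_conjTranspose, norm_star]
      exact norm_u_le V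
    calc ‖(U : Mt n) * TT τ c k * (V : Mt n)ᴴ‖ ≤ ‖(U : Mt n) * TT τ c k‖ * ‖(V : Mt n)ᴴ‖ :=
          norm_mul_le _ _
      _ ≤ (‖(U : Mt n)‖ * ‖TT τ c k‖) * ‖(V : Mt n)ᴴ‖ :=
          mul_le_mul_of_nonneg_right (norm_mul_le _ _) (norm_nonneg _)
      _ ≤ (1 * 1) * 1 := by gcongr
      _ = 1 := by norm_num
  · -- the identity
    have e1 : ∀ k, ∑ j, (X * (V : Mt n) * D k) * (E j * (U : Mt n) * TT τ c k * D k)ᴴ * E j *
        ((U : Mt n) * TT τ c k * (V : Mt n)ᴴ) =
        X * (V : Mt n) * (diagonal fun i => if c i = k then ((g i * g i * f (τ i) : ℝ) : ℂ) else 0) *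
          (V : Mt n)ᴴ := by
      intro k
      have e2 : ∀ j, (X * (V : Mt n) * D k) * (E j * (U : Mt n) * TT τ c k * D k)ᴴ * E j *
          ((U : Mt n) * TT τ c k * (V : Mt n)ᴴ) = X * (V : Mt n) * (D k * D k) *
            ((E j * (U : Mt n) * TT τ c k)ᴴ * (E j * (U : Mt n) * TT τ c k)) * (V : Mt n)ᴴ := by
        intro j
        rw [Matrix.conjTranspose_mul, hDh]
        simp only [Matrix.mul_assoc]
      rw [sum_congr rfl fun j _ => e2 j, ← Matrix.sum_mul, ← Matrix.mul_sum, hgram]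
      have e3 : D k * D k * (diagonal fun i => if c i = k then (f (τ i) : ℂ) else 0) =
          diagonal fun i => if c i = k then ((g i * g i * f (τ i) : ℝ) : ℂ) else 0 := by
        show diagonal _ * diagonal _ * diagonal _ = _
        rw [diagonal_mul_diagonal, diagonal_mul_diagonal]
        congr 1
        funext i
        split_ifs
        · push_cast; ring
        · simp
      rw [← e3]
      simp only [Matrix.mul_assoc]
    rw [sum_congr rfl fun k _ => e1 k, ← Matrix.sum_mul, ← Matrix.mul_sum]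
    have e4 : (∑ k : Fin C, diagonal fun i => if c i = k then ((g i * g i * f (τ i) : ℝ) : ℂ)
        else 0) = diagonal fun i => if f (τ i) = 0 then (0 : ℂ) else 1 := by
      ext i j
      rw [Matrix.sum_apply]
      by_cases hij : i = j
      · subst hij
        simp only [diagonal_apply_eq]
        rw [sum_ite_eq univ (c i) fun _ => ((g i * g i * f (τ i) : ℝ) : ℂ), if_pos (mem_univ _), hg2]
        split_ifs <;> simp
      · simp only [diagonal_apply_ne _ hij, sum_const_zero]
    rw [e4]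
    set PP : Mt n := diagonal fun i => if f (τ i) = 0 then (0 : ℂ) else 1 with hPP
    have hcomp : (1 : Mt n) - PP = diagonal fun i => if f (τ i) = 0 then (1 : ℂ) else 0 := by
      rw [hPP, ← diagonal_one, diagonal_sub]
      congr 1
      funext i
      split_ifs <;> simp
    have hZ : X * (V : Mt n) * (1 - PP) = 0 := by
      rw [← Matrix.conjTranspose_mul_self_eq_zero]
      have e : (X * (V : Mt n) * (1 - PP))ᴴ * (X * (V : Mt n) * (1 - PP)) =
          (1 - PP)ᴴ * ((V : Mt n)ᴴ * (Xᴴ * X) * (V : Mt n)) * (1 - PP) := by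
        rw [Matrix.conjTranspose_mul, Matrix.conjTranspose_mul]
        simp only [Matrix.mul_assoc]
      rw [e, hVX, hcomp, Matrix.mul_assoc, diagonal_mul_diagonal]
      have e5 : (fun i => (x i : ℂ) * if f (τ i) = 0 then (1 : ℂ) else 0) = fun _ => 0 := by
        funext i
        split_ifs with h0
        · have h1 := hle i
          rw [h0, mul_zero] at h1
          rw [le_antisymm h1 (hx0 i)]
          simp
        · rw [mul_zero]
      rw [e5, diagonal_zero, Matrix.mul_zero]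
    have e6 : X * (V : Mt n) = X * (V : Mt n) * PP := by
      rw [Matrix.mul_sub, Matrix.mul_one, sub_eq_zero] at hZ
      exact hZ
    rw [← e6, Matrix.mul_assoc, hu V, Matrix.mul_one]

end

end Pool.Agent.Helper28.UI
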