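import Pool.Agent.Helper28.UI.Main

/-!
# The characterisation for Kazhdan groups
-/

set_option autoImplicit false

namespace Pool.Agent.Helper28.UI

open Matrix Finset
open Pool.Agent.H21R2 (IsHyperlinear hyperlinear_of_criterion hsNorm hsNorm_eq hs_eq fro2
  fro2_mul_unitary fro2_unitary_mul fro2_nonneg)
open Pool.Agent.W661.RC (HasT)

noncomputable section

/-! ### Abelian groups -/

/-- the character `q ↦ exp (2 π i q)` of `ℚ` -/
def eQ : ℚ →+ Additive Circle where
  toFun q := Additive.ofMul (Circle.exp ((q : ℝ) * (2 * Real.pi)))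
  map_zero' := by simp
  map_add' a b := by
    rw [← ofMul_mul, ← Circle.exp_add]
    push_cast
    rw [add_mul]

theorem eQ_eq {q : ℚ} (h : eQ q = 0) : ∃ n : ℤ, q = n := by
  have h1 : Circle.exp ((q : ℝ) * (2 * Real.pi)) = 1 := h
  rw [Circle.exp_eq_one] at h1
  obtain ⟨n, hn⟩ := h1
  have h2 : (2 * Real.pi) ≠ 0 := by positivity
  exact ⟨n, by exact_mod_cast mul_right_cancel₀ h2 hn⟩

theorem eQ_int (n : ℤ) : eQ n = 0 := by
  have h1 : Circle.exp (((n : ℚ) : ℝ) * (2 * Real.pi)) = 1 :=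
    Circle.exp_eq_one.2 ⟨n, by push_cast; ring⟩
  exact h1

/-- the embedding of `ℚ / ℤ` into the circle -/
def eQZ : AddCircle (1 : ℚ) →+ Additive Circle :=
  QuotientAddGroup.lift (AddSubgroup.zmultiples (1 : ℚ)) eQ (by
    intro x hx
    obtain ⟨n, rfl⟩ := AddSubgroup.mem_zmultiples_iff.1 hx
    rw [AddMonoidHom.mem_ker]
    have := eQ_int n
    simpa using this)

theorem exists_char {H : Type} [CommGroup H] {g : H} (hg : g ≠ 1) : ∃ χ : H →* Circle, χ g ≠ 1 := by
  obtain ⟨c, hc⟩ := CharacterModule.exists_character_apply_ne_zero_of_ne_zero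
    (A := Additive H) (a := Additive.ofMul g) (fun h => hg h)
  refine ⟨MonoidHom.toAdditive.symm (eQZ.comp c), fun h => hc ?_⟩
  obtain ⟨q, hq⟩ := QuotientAddGroup.mk_surjective (c (Additive.ofMul g))
  have h1 : eQZ (c (Additive.ofMul g)) = 0 := h
  rw [← hq] at h1
  obtain ⟨n, hn⟩ := eQ_eq (q := q) h1
  rw [← hq, QuotientAddGroup.eq_zero_iff]
  exact AddSubgroup.mem_zmultiples_iff.2 ⟨n, by simp [hn]⟩

/-- the unitary `1 × 1` matrix of a complex number of modulus one -/
def u1 : Circle →* unitaryGroup (Fin 1) ℂ where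
  toFun z := ⟨Matrix.diagonal fun _ => (z : ℂ), by
    rw [mem_unitaryGroup_iff]
    ext i j
    fin_cases i; fin_cases j
    simp [Matrix.mul_apply, star_eq_conjTranspose, Complex.mul_conj]⟩
  map_one' := by
    apply Subtype.ext
    simp
  map_mul' a b := by
    apply Subtype.ext
    simp [Matrix.diagonal_mul_diagonal]

theorem u1_coe (z : Circle) : (u1 z).1 = Matrix.diagonal fun _ => (z : ℂ) := rfl

theorem hyp_comm (H : Type) [CommGroup H] : IsHyperlinear H := by
  apply hyperlinear_of_criterion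
  intro A h1A g hgA hg ε hε
  obtain ⟨χ, hχ⟩ := exists_char hg
  have h0 : Pool.Agent.H21R2.hs (0 : Matrix (Fin 1) (Fin 1) ℂ) = 0 := by
    simp [Pool.Agent.H21R2.hs]
  have hp : 0 < Pool.Agent.H21R2.hs ((((u1.comp χ) g).1 - 1) * 1) := by
    rw [hs_eq]
    apply Real.sqrt_pos.2
    rw [Matrix.mul_one]
    have e : (((u1.comp χ) g).1 - 1) 0 0 = (χ g : ℂ) - 1 := by
      rw [MonoidHom.comp_apply, u1_coe]
      simp
    rw [fro2, Fin.sum_univ_one, Fin.sum_univ_one, e]
    have : (χ g : ℂ) - 1 ≠ 0 := by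
      intro h
      apply hχ
      apply Circle.ext
      rw [sub_eq_zero] at h
      simpa using h
    positivity
  refine ⟨1, u1.comp χ, 1, isHermitian_one, map_one _, hp, ?_, ?_⟩
  · intro a _
    rw [Matrix.mul_one, Matrix.one_mul, sub_self, h0]
    positivity
  · intro a _ b _ _
    rw [map_mul, UnitaryGroup.mul_val, sub_self, Matrix.zero_mul, h0]
    positivity

/-! ### Perfect groups -/

theorem perfect_of_noHyp {G : Type} [Group G] (h : NoHyp G) : commutator G = ⊤ := by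
  rw [eq_top_iff]
  intro g _
  have h1 := h (Abelianization G) (hyp_comm _) Abelianization.of g
  rwa [← MonoidHom.mem_ker, Abelianization.ker_of] at h1

theorem almost_of_noHyp {G : Type} [Group G] (hT : HasT G) (hno : NoHyp G) :
    AlmostRepsTrivial G :=
  almost_of_noHyp' hT (perfect_of_noHyp hno) hno

/-! ### The Frobenius norm -/

/-- the Frobenius norm as a seminorm -/
def fro (n : ℕ) : Seminorm ℂ (Matrix (Fin n) (Fin n) ℂ) :=
  letI := Matrix.frobeniusNormedAddCommGroup (m := Fin n) (n := Fin n) (α := ℂ)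
  letI := Matrix.frobeniusNormedSpace (R := ℂ) (m := Fin n) (n := Fin n) (α := ℂ)
  normSeminorm ℂ (Matrix (Fin n) (Fin n) ℂ)

theorem fro_apply {n : ℕ} (X : Matrix (Fin n) (Fin n) ℂ) : fro n X = Real.sqrt (fro2 X) := by
  have h1 : fro n X = (∑ i, ∑ j, ‖X i j‖ ^ (2 : ℝ)) ^ (1 / 2 : ℝ) := Matrix.frobenius_norm_def X
  rw [h1, ← Real.sqrt_eq_rpow, fro2]
  congr 1
  refine sum_congr rfl fun i _ => sum_congr rfl fun j _ => ?_
  rw [← Real.rpow_natCast]
  norm_num

theorem fro_ui (n : ℕ) : UnitarilyInvariant (fro n) := by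
  intro u v x
  rw [fro_apply, fro_apply, fro2_mul_unitary, fro2_unitary_mul]

/-- the scaled seminorm -/
def scl {n : ℕ} (t : NNReal) (N : Seminorm ℂ (Matrix (Fin n) (Fin n) ℂ)) :
    Seminorm ℂ (Matrix (Fin n) (Fin n) ℂ) := t • N

theorem scl_apply {n : ℕ} (t : NNReal) (N : Seminorm ℂ (Matrix (Fin n) (Fin n) ℂ))
    (x : Matrix (Fin n) (Fin n) ℂ) : scl t N x = (t : ℝ) * N x := rfl

theorem scl_ui {n : ℕ} (t : NNReal) {N : Seminorm ℂ (Matrix (Fin n) (Fin n) ℂ)}
    (hN : UnitarilyInvariant N) : UnitarilyInvariant (scl t N) := by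
  intro u v x
  rw [scl_apply, scl_apply, hN]

/-- the normalised Hilbert-Schmidt norm -/
def nhs (n : ℕ) : Seminorm ℂ (Matrix (Fin n) (Fin n) ℂ) :=
  scl (Real.toNNReal (Real.sqrt (1 / n))) (fro n)

theorem nhs_apply {n : ℕ} (X : Matrix (Fin n) (Fin n) ℂ) : nhs n X = hsNorm X := by
  rw [nhs, scl_apply, fro_apply, hsNorm_eq, Real.coe_toNNReal _ (Real.sqrt_nonneg _),
    ← Real.sqrt_mul (by positivity)]
  congr 1
  ring

theorem nhs_ui (n : ℕ) : UnitarilyInvariant (nhs n) := scl_ui _ (fro_ui n)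

/-! ### The converse -/

/-- uniformly in `n`, almost representations in the normalised Hilbert-Schmidt norm are almost
trivial -/
def HSTrivial (G : Type) [Group G] : Prop :=
  ∀ (g : G) (ε : ℝ), 0 < ε → ∃ (A : Finset G) (δ : ℝ), 0 < δ ∧
    ∀ (n : ℕ) (φ : G → unitaryGroup (Fin n) ℂ),
      (∀ a ∈ A, ∀ b ∈ A, hsNorm ((φ (a * b)).1 - (φ a).1 * (φ b).1) ≤ δ) →
        hsNorm ((φ g).1 - 1) ≤ ε

theorem hsTrivial_of_almost {G : Type} [Group G] (h : AlmostRepsTrivial G) : HSTrivial G := by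
  intro g ε hε
  obtain ⟨A, δ, hδ, hA⟩ := h g ε hε
  refine ⟨A, δ, hδ, fun n φ hφ => ?_⟩
  rw [← nhs_apply]
  exact hA n (nhs n) (nhs_ui n) φ fun a ha b hb => by rw [nhs_apply]; exact hφ a ha b hb

theorem noHyp_of_hsTrivial {G : Type} [Group G] (h : HSTrivial G) : NoHyp G := by
  classical
  intro H _ hH f g
  by_contra hfg
  obtain ⟨A, δ, hδ, hA⟩ := h g (1 / 2) (by norm_num)
  let B : Finset H := insert 1 (insert (f g) (A.image f ∪ (A ×ˢ A).image fun p => f (p.1 * p.2)))
  have h1B : (1 : H) ∈ B := mem_insert_self _ _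
  have hgB : f g ∈ B := mem_insert_of_mem (mem_insert_self _ _)
  have hAB : ∀ a ∈ A, f a ∈ B := fun a ha =>
    mem_insert_of_mem (mem_insert_of_mem (mem_union_left _ (mem_image_of_mem _ ha)))
  have hAAB : ∀ a ∈ A, ∀ b ∈ A, f a * f b ∈ B := fun a ha b hb =>
    mem_insert_of_mem (mem_insert_of_mem (mem_union_right _ (mem_image.2
      ⟨(a, b), mem_product.2 ⟨ha, hb⟩, map_mul f a b⟩)))
  obtain ⟨n, hn, φ, p1, p2, p3⟩ := hH B h1B δ hδ
  have h2 := hA n (fun x => φ (f x)) (by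
    intro a ha b hb
    have := (p2 (f a) (hAB a ha) (f b) (hAB b hb) (hAAB a ha b hb)).le
    rw [← map_mul] at this
    exact this)
  have h3 := p3 (f g) hgB hfg
  linarith

/-! ### The linear estimate -/

/-- the linear estimate -/
def LinearlyTrivial (G : Type) [Group G] : Prop :=
  ∀ g : G, ∃ (A : Finset G) (C : ℝ),
    ∀ (n : ℕ) (N : Seminorm ℂ (Matrix (Fin n) (Fin n) ℂ)), UnitarilyInvariant N →
      ∀ φ : G → unitaryGroup (Fin n) ℂ,
        N ((φ g).1 - 1) ≤ C * ∑ a ∈ A, ∑ b ∈ A, N ((φ (a * b)).1 - (φ a).1 * (φ b).1)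

theorem linear_of_almost {G : Type} [Group G] (h : AlmostRepsTrivial G) : LinearlyTrivial G := by
  intro g
  obtain ⟨A, δ, hδ, hA⟩ := h g 1 one_pos
  refine ⟨A, 1 / δ, fun n N hN φ => ?_⟩
  set S := ∑ a ∈ A, ∑ b ∈ A, N ((φ (a * b)).1 - (φ a).1 * (φ b).1) with hS
  have hS0 : 0 ≤ S := sum_nonneg fun a _ => sum_nonneg fun b _ => apply_nonneg N _
  have hle : ∀ a ∈ A, ∀ b ∈ A, N ((φ (a * b)).1 - (φ a).1 * (φ b).1) ≤ S := by
    intro a ha b hb
    have h1 := single_le_sum (f := fun b => N ((φ (a * b)).1 - (φ a).1 * (φ b).1))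
      (fun b _ => apply_nonneg N _) hb
    have h2 := single_le_sum (f := fun a => ∑ b ∈ A, N ((φ (a * b)).1 - (φ a).1 * (φ b).1))
      (fun a _ => sum_nonneg fun b _ => apply_nonneg N _) ha
    exact h1.trans h2
  have key : ∀ t : ℝ, 0 < t → t * S ≤ δ → t * N ((φ g).1 - 1) ≤ 1 := by
    intro t ht hts
    have h1 := hA n (scl (Real.toNNReal t) N) (scl_ui _ hN) φ (by
      intro a ha b hb
      rw [scl_apply, Real.coe_toNNReal _ ht.le]
      exact (mul_le_mul_of_nonneg_left (hle a ha b hb) ht.le).trans hts)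
    rwa [scl_apply, Real.coe_toNNReal _ ht.le] at h1
  rcases eq_or_lt_of_le hS0 with h0 | h0
  · rw [← h0, mul_zero]
    by_contra hcon
    push Not at hcon
    have h1 := key (2 / N ((φ g).1 - 1)) (by positivity) (by rw [← h0, mul_zero]; exact hδ.le)
    rw [div_mul_cancel₀ _ hcon.ne'] at h1
    norm_num at h1
  · have h1 := key (δ / S) (by positivity) (by rw [div_mul_cancel₀ _ h0.ne'])
    rw [div_mul_eq_mul_div, div_le_one h0] at h1
    rw [div_mul_eq_mul_div, one_mul, le_div_iff₀ hδ]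
    linarith

theorem almost_of_linear {G : Type} [Group G] (h : LinearlyTrivial G) : AlmostRepsTrivial G := by
  intro g ε hε
  obtain ⟨A, C, hA⟩ := h g
  refine ⟨A, ε / ((|C| + 1) * ((A.card : ℝ) * A.card + 1)), by positivity, fun n N hN φ hφ => ?_⟩
  refine (hA n N hN φ).trans ?_
  set δ := ε / ((|C| + 1) * ((A.card : ℝ) * A.card + 1)) with hδ
  have h1 : ∑ a ∈ A, ∑ b ∈ A, N ((φ (a * b)).1 - (φ a).1 * (φ b).1) ≤ A.card * (A.card * δ) := by
    have h2 : ∀ a ∈ A, ∑ b ∈ A, N ((φ (a * b)).1 - (φ a).1 * (φ b).1) ≤ A.card * δ := by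
      intro a ha
      have := sum_le_card_nsmul A (fun b => N ((φ (a * b)).1 - (φ a).1 * (φ b).1)) δ
        fun b hb => hφ a ha b hb
      rwa [nsmul_eq_mul] at this
    have := sum_le_card_nsmul A
      (fun a => ∑ b ∈ A, N ((φ (a * b)).1 - (φ a).1 * (φ b).1)) _ h2
    rwa [nsmul_eq_mul] at this
  have h3 : 0 ≤ ∑ a ∈ A, ∑ b ∈ A, N ((φ (a * b)).1 - (φ a).1 * (φ b).1) :=
    sum_nonneg fun a _ => sum_nonneg fun b _ => apply_nonneg N _
  calc C * ∑ a ∈ A, ∑ b ∈ A, N ((φ (a * b)).1 - (φ a).1 * (φ b).1)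
      ≤ (|C| + 1) * (A.card * (A.card * δ)) :=
        mul_le_mul (by linarith [le_abs_self C]) h1 h3 (by positivity)
    _ ≤ (|C| + 1) * (((A.card : ℝ) * A.card + 1) * δ) := by
        apply mul_le_mul_of_nonneg_left _ (by positivity)
        have : 0 < δ := by positivity
        nlinarith
    _ = ε := by
        rw [hδ]
        field_simp

/-- **The characterisation for Kazhdan groups.** -/
theorem noHyp_iff {G : Type} [Group G] (hT : HasT G) : NoHyp G ↔ LinearlyTrivial G :=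
  ⟨fun h => linear_of_almost (almost_of_noHyp hT h),
    fun h => noHyp_of_hsTrivial (hsTrivial_of_almost (almost_of_linear h))⟩

/-! ### Approximation -/

/-- approximation by unitary matrices in unitarily invariant seminorms -/
def Approximable (G : Type) [Group G] : Prop :=
  ∃ c : G → ℝ, (∀ g, g ≠ 1 → 0 < c g) ∧ ∀ (A : Finset G) (ε : ℝ), 0 < ε →
    ∃ (n : ℕ) (N : Seminorm ℂ (Matrix (Fin n) (Fin n) ℂ)) (φ : G → unitaryGroup (Fin n) ℂ),
      UnitarilyInvariant N ∧
      (∀ a ∈ A, ∀ b ∈ A, N ((φ (a * b)).1 - (φ a).1 * (φ b).1) < ε) ∧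
      ∀ a ∈ A, a ≠ 1 → c a ≤ N ((φ a).1 - 1)

theorem not_approx {G : Type} [Group G] (h : AlmostRepsTrivial G) {g : G} (hg : g ≠ 1) :
    ¬ Approximable G := by
  classical
  rintro ⟨c, hc, hap⟩
  obtain ⟨A, δ, hδ, hA⟩ := h g (c g / 2) (half_pos (hc g hg))
  obtain ⟨n, N, φ, hN, h1, h2⟩ := hap (insert g A) δ hδ
  have h3 := hA n N hN φ fun a ha b hb =>
    (h1 a (mem_insert_of_mem ha) b (mem_insert_of_mem hb)).le
  have h4 := h2 g (mem_insert_self _ _) hg
  linarith [hc g hg]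

/-- Simple Kazhdan groups which are approximable in unitarily invariant seminorms are
hyperlinear. -/
theorem hyp_of_simple {G : Type} [Group G] [IsSimpleGroup G] (hT : HasT G)
    (hap : Approximable G) : IsHyperlinear G := by
  by_contra hnot
  obtain ⟨g, hg⟩ := exists_ne (1 : G)
  have hno : NoHyp G := by
    intro H _ hH f x
    rcases (inferInstance : f.ker.Normal).eq_bot_or_eq_top with h | h
    · exact absurd (hyp_of_inj f ((MonoidHom.ker_eq_bot_iff f).1 h) hH) hnot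
    · have : x ∈ f.ker := by rw [h]; exact Subgroup.mem_top x
      exact this
  exact not_approx (almost_of_noHyp hT hno) hg hap

/-! ### The operator norm -/

section op

open scoped Matrix.Norms.L2Operator

/-- the operator norm as a seminorm -/
def opN (n : ℕ) : Seminorm ℂ (Matrix (Fin n) (Fin n) ℂ) := normSeminorm ℂ _

theorem opN_apply {n : ℕ} (X : Matrix (Fin n) (Fin n) ℂ) : opN n X = ‖X‖ := rfl

theorem opN_ui (n : ℕ) : UnitarilyInvariant (opN n) := by
  intro u v x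
  rw [opN_apply, opN_apply, CStarRing.norm_mul_coe_unitary, CStarRing.norm_coe_unitary_mul]

end op

end

end Pool.Agent.Helper28.UI
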