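import Pool.Agent.Helper28.UI.Res
import Pool.Graph.R_seed8.W683.RC.Bas
import Pool.Graph.R_seed8.H80R2.HG.PS

/-!
# Relative approximations give a proper normal subgroup with a hyperlinear quotient
-/

set_option autoImplicit false

namespace Pool.Agent.Helper28.UI

open Matrix Finset Filter Topology
open scoped ComplexOrder
open Pool.Agent.W661.RC Pool.Agent.W683.RC
open Pool.Agent.H21R2 (IsHyperlinear hyperlinear_of_criterion)
open Pool.Agent.H80R2.HG.PSAux (uh hu)

noncomputable section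

/-- relative approximations which do not become trivial -/
def RelData (G : Type) [Group G] : Prop :=
  ∃ (k : ℕ) (σ : Fin k → G) (c : ℝ), 0 < c ∧ ∀ (A : Finset G) (ε : ℝ), 0 < ε →
    ∃ (d : ℕ) (φ : G → unitaryGroup (Fin d) ℂ) (Q : Mt d), IsPr Q ∧ 0 < hs Q ∧
      (∀ a ∈ A, ∀ b ∈ A, hs (((φ (a * b)).1 - (φ a).1 * (φ b).1) * Q) ≤ ε * hs Q) ∧
      (∀ a ∈ A, hs ((φ a).1 * Q - Q * (φ a).1) ≤ ε * hs Q) ∧
      c * hs Q ≤ ∑ s, hs (((φ (σ s)).1 - 1) * Q)

section seq

variable {I : Type} (F : Filter I) {d : I → ℕ} (Q : ∀ i, Mt (d i))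

/-- equality of families of unitaries on `Q` up to small errors -/
def Eqv (u v : ∀ i, unitaryGroup (Fin (d i)) ℂ) : Prop :=
  Tendsto (fun i => hs (((u i).1 - (v i).1) * Q i) / hs (Q i)) F (𝓝 0)

variable {F Q}

theorem Eqv.refl (u : ∀ i, unitaryGroup (Fin (d i)) ℂ) : Eqv F Q u u := by
  unfold Eqv
  simp only [sub_self, Matrix.zero_mul, hs_zero, zero_div]
  exact tendsto_const_nhds

theorem Eqv.symm {u v : ∀ i, unitaryGroup (Fin (d i)) ℂ} (h : Eqv F Q u v) : Eqv F Q v u := by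
  unfold Eqv at *
  refine h.congr fun i => ?_
  rw [← hs_neg]
  congr 2
  rw [← Matrix.neg_mul, neg_sub]

theorem tendsto_of_le {f g : I → ℝ} (hf : ∀ i, 0 ≤ f i) (hfg : ∀ i, f i ≤ g i)
    (hg : Tendsto g F (𝓝 0)) : Tendsto f F (𝓝 0) :=
  squeeze_zero hf hfg hg

theorem Eqv.trans {u v w : ∀ i, unitaryGroup (Fin (d i)) ℂ} (h : Eqv F Q u v) (h' : Eqv F Q v w) :
    Eqv F Q u w := by
  unfold Eqv at *
  have h1 := (h.const_mul 2).add (h'.const_mul 2)
  rw [mul_zero, add_zero] at h1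
  refine tendsto_of_le (fun i => div_nonneg (hs_nonneg _) (hs_nonneg _)) (fun i => ?_) h1
  have e : ((u i).1 - (w i).1) * Q i = ((u i).1 - (v i).1) * Q i + ((v i).1 - (w i).1) * Q i := by
    rw [← Matrix.add_mul]; congr 1; abel
  rw [e, ← mul_div_assoc, ← mul_div_assoc, ← add_div]
  exact div_le_div_of_nonneg_right (hs_add_le _ _) (hs_nonneg _)

theorem Eqv.left {u v : ∀ i, unitaryGroup (Fin (d i)) ℂ} (h : Eqv F Q u v)
    (w : ∀ i, unitaryGroup (Fin (d i)) ℂ) : Eqv F Q (fun i => w i * u i) fun i => w i * v i := by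
  unfold Eqv at *
  refine h.congr fun i => ?_
  rw [UnitaryGroup.mul_val, UnitaryGroup.mul_val, ← Matrix.mul_sub, Matrix.mul_assoc,
    hs_unit_mul (uh (w i))]

/-- families which almost commute with `Q` -/
def Cm (F : Filter I) (Q : ∀ i, Mt (d i)) (w : ∀ i, unitaryGroup (Fin (d i)) ℂ) : Prop :=
  Tendsto (fun i => hs ((w i).1 * Q i - Q i * (w i).1) / hs (Q i)) F (𝓝 0)

theorem Eqv.right {u v : ∀ i, unitaryGroup (Fin (d i)) ℂ} (h : Eqv F Q u v)
    {w : ∀ i, unitaryGroup (Fin (d i)) ℂ} (hw : Cm F Q w) :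
    Eqv F Q (fun i => u i * w i) fun i => v i * w i := by
  unfold Eqv Cm at *
  have h1 := (hw.const_mul 8).add (h.const_mul 2)
  rw [mul_zero, mul_zero, add_zero] at h1
  refine tendsto_of_le (fun i => div_nonneg (hs_nonneg _) (hs_nonneg _)) (fun i => ?_) h1
  set z : Mt (d i) := (u i).1 - (v i).1 with hz
  have hzb : ∀ y : Mt (d i), hs (z * y) ≤ 4 * hs y := by
    intro y
    rw [hz, Matrix.sub_mul]
    refine (hs_sub_le _ _).trans ?_
    rw [hs_unit_mul (uh (u i)), hs_unit_mul (uh (v i))]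
    linarith
  have e : ((u i * w i).1 - (v i * w i).1) * Q i =
      z * ((w i).1 * Q i - Q i * (w i).1) + (z * Q i) * (w i).1 := by
    rw [UnitaryGroup.mul_val, UnitaryGroup.mul_val, ← Matrix.sub_mul, ← hz, Matrix.mul_sub]
    simp only [Matrix.mul_assoc]
    abel
  show hs (((u i * w i).1 - (v i * w i).1) * Q i) / hs (Q i) ≤ _
  rw [e, ← mul_div_assoc, ← mul_div_assoc, ← add_div]
  refine div_le_div_of_nonneg_right ?_ (hs_nonneg _)
  refine (hs_add_le _ _).trans ?_
  rw [hs_mul_unit (uh (w i))]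
  have := hzb ((w i).1 * Q i - Q i * (w i).1)
  linarith

theorem Cm.one : Cm F Q (fun _ => 1) := by
  unfold Cm
  have : (fun i => hs ((1 : unitaryGroup (Fin (d i)) ℂ).1 * Q i -
      Q i * (1 : unitaryGroup (Fin (d i)) ℂ).1) / hs (Q i)) = fun _ => 0 := by
    funext i
    rw [OneMemClass.coe_one, Matrix.one_mul, Matrix.mul_one, sub_self, hs_zero, zero_div]
  rw [this]
  exact tendsto_const_nhds

end seq

/-- almost multiplicative and almost commuting families -/
structure Fam {G : Type} [Group G] {I : Type} (F : Filter I) {d : I → ℕ} (Q : ∀ i, Mt (d i))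
    (φ : ∀ i, G → unitaryGroup (Fin (d i)) ℂ) : Prop where
  mul : ∀ a b : G, Eqv F Q (fun i => φ i (a * b)) fun i => φ i a * φ i b
  com : ∀ a : G, Cm F Q fun i => φ i a

section fam

variable {G : Type} [Group G] {I : Type} {F : Filter I} {d : I → ℕ} {Q : ∀ i, Mt (d i)}
  {φ : ∀ i, G → unitaryGroup (Fin (d i)) ℂ}

theorem Fam.one (h : Fam F Q φ) : Eqv F Q (fun i => φ i 1) fun _ => 1 := by
  have h1 := (h.mul 1 1).left fun i => (φ i 1)⁻¹
  simp only [mul_one, inv_mul_cancel, inv_mul_cancel_left] at h1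
  exact h1.symm

theorem Fam.mul_mem (h : Fam F Q φ) {a b : G} (ha : Eqv F Q (fun i => φ i a) fun _ => 1)
    (hb : Eqv F Q (fun i => φ i b) fun _ => 1) : Eqv F Q (fun i => φ i (a * b)) fun _ => 1 := by
  have h1 := h.mul a b
  have h2 := Eqv.left hb fun i => φ i a
  simp only [mul_one] at h2
  exact (h1.trans h2).trans ha

theorem Fam.inv_mem (h : Fam F Q φ) {a : G} (ha : Eqv F Q (fun i => φ i a) fun _ => 1) :
    Eqv F Q (fun i => φ i a⁻¹) fun _ => 1 := by
  have h1 := h.mul a⁻¹ a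
  rw [inv_mul_cancel] at h1
  have h2 := Eqv.left ha fun i => φ i a⁻¹
  simp only [mul_one] at h2
  exact (h2.symm.trans h1.symm).trans h.one

theorem Fam.conj_mem (h : Fam F Q φ) {g : G} (hg : Eqv F Q (fun i => φ i g) fun _ => 1) (x : G) :
    Eqv F Q (fun i => φ i (x * g * x⁻¹)) fun _ => 1 := by
  have h1 := h.mul (x * g) x⁻¹
  have h2 := (h.mul x g).right (h.com x⁻¹)
  have h3 := (hg.right (h.com x⁻¹)).left fun i => φ i x
  have h4 := h.mul x x⁻¹
  rw [mul_inv_cancel] at h4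
  simp only [one_mul] at h3
  simp only [mul_assoc] at h2
  simp only [mul_assoc] at h1 h4
  rw [mul_assoc]
  exact ((h1.trans h2).trans h3).trans (h4.symm.trans h.one)

/-- the kernel -/
def Fam.ker (h : Fam F Q φ) : Subgroup G where
  carrier := {g | Eqv F Q (fun i => φ i g) fun _ => 1}
  one_mem' := h.one
  mul_mem' := fun ha hb => h.mul_mem ha hb
  inv_mem' := fun ha => h.inv_mem ha

theorem Fam.mem_ker (h : Fam F Q φ) {g : G} :
    g ∈ h.ker ↔ Eqv F Q (fun i => φ i g) fun _ => 1 := Iff.rfl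

theorem Fam.normal (h : Fam F Q φ) : h.ker.Normal :=
  ⟨fun _ hg x => h.conj_mem hg x⟩

/-- the maps on the quotient -/
def Fam.psi (K : Subgroup G) [K.Normal] (φ : ∀ i, G → unitaryGroup (Fin (d i)) ℂ) (i : I) (x : G ⧸ K) :
    unitaryGroup (Fin (d i)) ℂ := by
  classical exact if x = 1 then 1 else φ i (Quotient.out x)

theorem Fam.psi_one (K : Subgroup G) [K.Normal] (i : I) : Fam.psi K φ i (1 : G ⧸ K) = 1 := by
  unfold Fam.psi
  exact if_pos rfl

theorem Fam.psi_ne (K : Subgroup G) [K.Normal] (i : I) {x : G ⧸ K} (hx : x ≠ 1) :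
    Fam.psi K φ i x = φ i (Quotient.out x) := by
  unfold Fam.psi
  exact if_neg hx

theorem out_eq' (K : Subgroup G) [K.Normal] (x : G ⧸ K) :
    ((Quotient.out x : G) : G ⧸ K) = x := Quotient.out_eq x

theorem Fam.psi_eqv (h : Fam F Q φ) [h.ker.Normal] (x : G ⧸ h.ker) :
    Eqv F Q (fun i => Fam.psi h.ker φ i x) fun i => φ i (Quotient.out x) := by
  by_cases hx : x = 1
  · have h1 : (Quotient.out x : G) ∈ h.ker := by rw [← QuotientGroup.eq_one_iff, out_eq', hx]
    have h2 : (fun i => Fam.psi h.ker φ i x) = fun _ => 1 := by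
      funext i
      rw [hx, Fam.psi_one]
    rw [h2]
    exact (h.mem_ker.1 h1).symm
  · have : (fun i => Fam.psi h.ker φ i x) = fun i => φ i (Quotient.out x) := by
      funext i
      exact Fam.psi_ne _ i hx
    rw [this]
    exact Eqv.refl _

theorem Fam.psi_com (h : Fam F Q φ) [h.ker.Normal] (x : G ⧸ h.ker) :
    Cm F Q fun i => Fam.psi h.ker φ i x := by
  by_cases hx : x = 1
  · have h2 : (fun i => Fam.psi h.ker φ i x) = fun _ => 1 := by
      funext i
      rw [hx, Fam.psi_one]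
    rw [h2]
    exact Cm.one
  · have : (fun i => Fam.psi h.ker φ i x) = fun i => φ i (Quotient.out x) := by
      funext i
      exact Fam.psi_ne _ i hx
    rw [this]
    exact h.com _

theorem Fam.psi_mul (h : Fam F Q φ) [h.ker.Normal] (x y : G ⧸ h.ker) :
    Eqv F Q (fun i => Fam.psi h.ker φ i (x * y))
      fun i => Fam.psi h.ker φ i x * Fam.psi h.ker φ i y := by
  obtain ⟨κ, hκ, he⟩ : ∃ κ ∈ h.ker, (Quotient.out (x * y) : G) =
      Quotient.out x * Quotient.out y * κ := by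
    refine ⟨(Quotient.out x * Quotient.out y)⁻¹ * Quotient.out (x * y), ?_, by group⟩
    rw [← QuotientGroup.eq_one_iff, QuotientGroup.mk_mul, QuotientGroup.mk_inv,
      QuotientGroup.mk_mul, out_eq', out_eq', out_eq', inv_mul_cancel]
  have h1 := h.psi_eqv (x * y)
  rw [he] at h1
  have h2 := h.mul (Quotient.out x * Quotient.out y) κ
  have h3 := Eqv.left (h.mem_ker.1 hκ) fun i => φ i (Quotient.out x * Quotient.out y)
  simp only [mul_one] at h3
  have h4 := h.mul (Quotient.out x) (Quotient.out y)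
  have h5 := (h.psi_eqv y).symm.left fun i => φ i (Quotient.out x)
  have h6 := (h.psi_eqv x).symm.right (h.psi_com y)
  exact ((((h1.trans h2).trans h3).trans h4).trans h5).trans h6

end fam

/-- the quotient by the kernel is hyperlinear -/
theorem Fam.hyp {G : Type} [Group G] {I : Type} {F : Ultrafilter I} {d : I → ℕ}
    {Q : ∀ i, Mt (d i)} {φ : ∀ i, G → unitaryGroup (Fin (d i)) ℂ}
    (h : Fam (F : Filter I) Q φ) [h.ker.Normal] (hQ : ∀ i, IsPr (Q i)) (hQ0 : ∀ i, 0 < hs (Q i)) :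
    IsHyperlinear (G ⧸ h.ker) := by
  classical
  apply hyperlinear_of_criterion
  intro A h1A g hgA hg ε hε
  have hgK : ¬ Eqv (F : Filter I) Q (fun i => φ i (Quotient.out g)) fun _ => 1 := by
    intro h1
    apply hg
    rw [← out_eq' h.ker g, QuotientGroup.eq_one_iff]
    exact h.mem_ker.2 h1
  obtain ⟨c0, hc0, hev⟩ : ∃ c0 : ℝ, 0 < c0 ∧ ∀ᶠ i in (F : Filter I),
      c0 ≤ hs (((Fam.psi h.ker φ i g).1 - 1) * Q i) / hs (Q i) := by
    by_contra hcon
    push Not at hcon
    apply hgK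
    unfold Eqv
    rw [Metric.tendsto_nhds]
    intro c1 hc1
    have h1 := hcon c1 hc1
    have h2 : ∀ᶠ i in (F : Filter I),
        ¬ c1 ≤ hs (((Fam.psi h.ker φ i g).1 - 1) * Q i) / hs (Q i) :=
      h1.mono fun i hi => not_le.2 hi
    filter_upwards [h2] with i hi
    rw [Fam.psi_ne _ i hg] at hi
    rw [Real.dist_eq, sub_zero, abs_of_nonneg (div_nonneg (hs_nonneg _) (hs_nonneg _))]
    exact not_le.1 hi
  have hη : 0 < ε ^ 2 * c0 := by positivity
  have hev1 : ∀ a ∈ A, ∀ᶠ i in (F : Filter I),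
      hs ((Fam.psi h.ker φ i a).1 * Q i - Q i * (Fam.psi h.ker φ i a).1) / hs (Q i) < ε ^ 2 * c0 :=
    fun a _ => (h.psi_com a).eventually (gt_mem_nhds hη)
  have hev2 : ∀ a ∈ A, ∀ b ∈ A, ∀ᶠ i in (F : Filter I),
      hs (((Fam.psi h.ker φ i (a * b)).1 -
        (Fam.psi h.ker φ i a).1 * (Fam.psi h.ker φ i b).1) * Q i) / hs (Q i) < ε ^ 2 * c0 := by
    intro a _ b _
    exact (h.psi_mul a b).eventually (gt_mem_nhds hη)
  have hev1' := (Filter.eventually_all_finset A).2 hev1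
  have hev2' := (Filter.eventually_all_finset A).2 fun a ha =>
    (Filter.eventually_all_finset A).2 (hev2 a ha)
  obtain ⟨i, h0, h1, h2⟩ := (hev.and (hev1'.and hev2')).exists
  have hq := hQ0 i
  have hconv : ∀ X : Mt (d i), Pool.Agent.H21R2.hs X = √(hs X) := by
    intro X
    rw [Pool.Agent.H21R2.hs, hs_eq]
  rw [le_div_iff₀ hq] at h0
  have key : ∀ X : Mt (d i), hs X / hs (Q i) < ε ^ 2 * c0 →
      √(hs X) ≤ ε * √(hs (((Fam.psi h.ker φ i g).1 - 1) * Q i)) := by
    intro X hX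
    rw [div_lt_iff₀ hq] at hX
    apply Real.sqrt_le_iff.2
    refine ⟨by positivity, ?_⟩
    rw [mul_pow, Real.sq_sqrt (hs_nonneg _)]
    calc hs X ≤ ε ^ 2 * c0 * hs (Q i) := hX.le
      _ = ε ^ 2 * (c0 * hs (Q i)) := by ring
      _ ≤ _ := mul_le_mul_of_nonneg_left h0 (by positivity)
  refine ⟨d i, Fam.psi h.ker φ i, Q i, (hQ i).1, Fam.psi_one _ i, ?_, ?_, ?_⟩
  · rw [hconv, Real.sqrt_pos]
    exact lt_of_lt_of_le (mul_pos hc0 hq) h0
  · intro a ha
    rw [hconv, hconv]
    exact key _ (h1 a ha)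
  · intro a ha b hb _
    rw [hconv, hconv]
    exact key _ (h2 a ha b hb)

theorem quot_of_rel {G : Type} [Group G] (h : RelData G) :
    ∃ (K : Subgroup G) (_ : K.Normal), K ≠ ⊤ ∧ IsHyperlinear (G ⧸ K) := by
  classical
  obtain ⟨k, σ, c, hc, h⟩ := h
  have hpos : ∀ i : Finset G × ℕ, (0 : ℝ) < 1 / ((i.2 : ℝ) + 1) := fun i => by positivity
  choose d φ Q hQ hQ0 hmul hcom hbig using fun i : Finset G × ℕ =>
    h i.1 (1 / ((i.2 : ℝ) + 1)) (hpos i)
  obtain ⟨F, hF⟩ : ∃ F : Ultrafilter (Finset G × ℕ), (F : Filter (Finset G × ℕ)) ≤ atTop :=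
    ⟨Ultrafilter.of atTop, Ultrafilter.of_le _⟩
  have hsmall : Tendsto (fun i : Finset G × ℕ => 1 / ((i.2 : ℝ) + 1))
      (F : Filter (Finset G × ℕ)) (𝓝 0) := by
    have h1 : Tendsto (fun i : Finset G × ℕ => i.2) atTop atTop := by
      rw [← prod_atTop_atTop_eq]
      exact tendsto_snd
    exact (tendsto_one_div_add_atTop_nhds_zero_nat.comp h1).mono_left hF
  have hmem : ∀ a : G, ∀ᶠ i : Finset G × ℕ in (F : Filter (Finset G × ℕ)), a ∈ i.1 := by
    intro a
    apply hF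
    filter_upwards [eventually_ge_atTop (({a} : Finset G), 0)] with i hi
    exact hi.1 (mem_singleton_self a)
  have hfam : Fam (F : Filter (Finset G × ℕ)) Q φ := by
    constructor
    · intro a b
      refine squeeze_zero' (Eventually.of_forall fun i => div_nonneg (hs_nonneg _) (hs_nonneg _))
        ?_ hsmall
      filter_upwards [hmem a, hmem b] with i ha hb
      rw [div_le_iff₀ (hQ0 i), UnitaryGroup.mul_val]
      exact hmul i a ha b hb
    · intro a
      refine squeeze_zero' (Eventually.of_forall fun i => div_nonneg (hs_nonneg _) (hs_nonneg _))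
        ?_ hsmall
      filter_upwards [hmem a] with i ha
      rw [div_le_iff₀ (hQ0 i)]
      exact hcom i a ha
  have := hfam.normal
  refine ⟨hfam.ker, hfam.normal, ?_, hfam.hyp hQ hQ0⟩
  -- proper
  intro htop
  have h1 : Tendsto (fun i => ∑ s, hs (((φ i (σ s)).1 - 1) * Q i) / hs (Q i))
      (F : Filter (Finset G × ℕ)) (𝓝 0) := by
    have h2 : ∀ s ∈ (univ : Finset (Fin k)), Tendsto
        (fun i => hs (((φ i (σ s)).1 - 1) * Q i) / hs (Q i)) (F : Filter (Finset G × ℕ)) (𝓝 0) := by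
      intro s _
      have : σ s ∈ hfam.ker := by rw [htop]; exact Subgroup.mem_top _
      exact hfam.mem_ker.1 this
    have := tendsto_finsetSum (univ : Finset (Fin k)) h2
    simpa using this
  have h3 := (h1.eventually (gt_mem_nhds hc)).exists
  obtain ⟨i, hi⟩ := h3
  rw [← sum_div, div_lt_iff₀ (hQ0 i)] at hi
  exact absurd (hbig i) (not_le.2 hi)

end

end Pool.Agent.Helper28.UI
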