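import Pool.Agent.Helper28.UI.Ev
import Pool.Agent.Helper28.UI.Rel

/-!
# Kazhdan groups without nontrivial hyperlinear quotients
-/

set_option autoImplicit false

namespace Pool.Agent.Helper28.UI

open Matrix Finset
open scoped ComplexOrder
open Pool.Agent.W661.RC Pool.Agent.W683.RC
open Pool.Agent.H80R2.HG.PSAux (uh hu)
open Pool.Agent.H21R2 (IsHyperlinear)

noncomputable section

variable {G : Type} [Group G]

/-- elements of a perfect group are images of products of commutators -/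
theorem exists_comm_word {k : ℕ} (γ : FreeGroup (Fin k) →* G) (hγ : Function.Surjective γ)
    (hp : commutator G = ⊤) (g : G) :
    ∃ w ∈ commutator (FreeGroup (Fin k)), γ w = g := by
  have h1 : (commutator (FreeGroup (Fin k))).map γ = ⊤ := by
    rw [commutator_def, Subgroup.map_commutator, ← MonoidHom.range_eq_map,
      MonoidHom.range_eq_top.2 hγ, ← commutator_def, hp]
  have h2 : g ∈ (commutator (FreeGroup (Fin k))).map γ := by rw [h1]; exact Subgroup.mem_top g
  obtain ⟨w, hw, rfl⟩ := h2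
  exact ⟨w, hw, rfl⟩

/-- the key proposition -/
theorem relData_of (hT : HasT G) (hp : commutator G = ⊤) (hnot : ¬ AlmostRepsTrivial G) :
    RelData G := by
  classical
  unfold AlmostRepsTrivial at hnot
  push Not at hnot
  obtain ⟨g0, ε0, hε0, hbad⟩ := hnot
  have hex : ∀ P : ∀ (n : ℕ), Seminorm ℂ (Mt n) → (G → unitaryGroup (Fin n) ℂ) → Prop, Ev G P →
      ∃ (n : ℕ) (N : Seminorm ℂ (Mt n)) (φ : G → unitaryGroup (Fin n) ℂ),
        UnitarilyInvariant N ∧ P n N φ ∧ ε0 < N ((φ g0).1 - 1) := by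
    rintro P ⟨A, δ, hδ, hP⟩
    obtain ⟨n, N, hN, φ, h1, h2⟩ := hbad A δ hδ
    exact ⟨n, N, φ, hN, hP n N hN φ h1, h2⟩
  obtain ⟨k, γ, hγ⟩ := Pool.Agent.N303.KQ.exists_free hT
  obtain ⟨C, hC, hgap⟩ := gap G γ hT hγ
  choose ws hws1 hws2 using fun s : Fin k => exists_comm_word γ hγ hp (γ (FreeGroup.of s))
  choose L hL1 hL using fun s : Fin k => comm_le (ws s) (hws1 s)
  obtain ⟨w0, hw0⟩ := hγ g0
  obtain ⟨ℓ0, hℓ0, hword0⟩ := word_le w0
  set LL : ℝ := ∑ s, L s + 1 with hLL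
  have hLL0 : 0 ≤ ∑ s, L s := sum_nonneg fun s _ => by linarith [hL1 s]
  have hLL1 : 1 ≤ LL := by linarith
  have hk0 : (0 : ℝ) ≤ k := Nat.cast_nonneg k
  set c0 : ℝ := ε0 / (16 * LL * (k + 1) * ℓ0) with hc0
  have hden : 0 < 16 * LL * (k + 1) * ℓ0 := by positivity
  have hc00 : 0 < c0 := div_pos hε0 hden
  refine ⟨k, fun s => γ (FreeGroup.of s), 1 / C, by positivity, fun A ε hε => ?_⟩
  choose wa hwa using fun a : G => hγ a
  choose ℓa hℓa hcomm using fun a : G => word_comm (wa a)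
  set ℓA : ℝ := ∑ a ∈ A, ℓa a + 1 with hℓA
  have hℓA0 : ∀ a ∈ A, ℓa a ≤ ℓA := by
    intro a ha
    have := single_le_sum (f := ℓa) (fun a _ => hℓa a) ha
    linarith
  have hℓA1 : 1 ≤ ℓA := by
    have := sum_nonneg (s := A) fun a _ => hℓa a
    linarith
  -- the choice of κ
  set κ : ℝ := min (1 / (2 * LL * (k + 1))) (min 1 (ε / (18 * ℓA))) with hκ
  have hκ0 : 0 < κ := by
    rw [hκ]
    refine lt_min (by positivity) (lt_min one_pos (by positivity))
  have hκ1 : κ ≤ 1 / (2 * LL * (k + 1)) := min_le_left _ _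
  have hκ2 : κ ≤ 1 := (min_le_right _ _).trans (min_le_left _ _)
  have hκ3 : κ ≤ ε / (18 * ℓA) := (min_le_right _ _).trans (min_le_right _ _)
  obtain ⟨δ1, R, hδ1, hR, hgap⟩ := hgap (κ ^ 2) (by positivity)
  have hη3 : 0 < δ1 * c0 / 2 := by positivity
  have hη1 : 0 < ε0 / (8 * (k + 1) * ℓ0) := by positivity
  have hη2 : 0 < ε0 / 4 := by positivity
  have hη4 : 0 < ε * c0 / 2 := by positivity
  have hη5 : 0 < ε * c0 / 18 := by positivity
  have hrel : ∀ s : Fin k, γ (FreeGroup.of s * (ws s)⁻¹) = 1 := by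
    intro s
    rw [map_mul, map_inv, hws2, mul_inv_cancel]
  obtain ⟨n, N, φ, hN, ⟨⟨⟨⟨q1, q2⟩, q3⟩, q4⟩, q5⟩, hbig⟩ := hex _
    (((((Ev.all R fun w hw => Ev.rel γ w (hR w hw) hη3).and
      (Ev.all (univ : Finset (Fin k)) fun s _ => Ev.rel γ _ (hrel s) hη1)).and
      (Ev.word γ w0 hη2)).and
      (Ev.all A fun a _ => Ev.all A fun b _ => Ev.err a b hη4)).and
      (Ev.all A fun a _ => Ev.word γ (wa a) hη5))
  set U := gU γ φ with hU
  obtain ⟨Q, hQ⟩ := exists_spQ U (κ ^ 2)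
  -- lower bound for N Q
  have hNQ : c0 ≤ N Q := by
    by_contra hcon
    push Not at hcon
    have hb : ∀ v : unitaryGroup (Fin n) ℂ, mx N U (v.1 - 1) ≤ (k * κ) * N (v.1 - 1) + 4 * k * N Q :=
      fun v => mx_le hN U hκ0 hQ v
    set M := mx N U 1 with hM
    have hM0 : 0 ≤ M := mx_nonneg _ _ _
    have hNQ0 : 0 ≤ N Q := apply_nonneg N Q
    have h1 : ∀ s, N (((U s).1 - 1) * 1) ≤
        ε0 / (8 * (k + 1) * ℓ0) + L s * (k * κ * M + 4 * k * N Q) := by
      intro s
      have h2 := hL s n N hN U (k * κ) (4 * k * N Q) (by positivity) (by positivity) hb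
      have h3 := q2 s (mem_univ s)
      have e1 : N ((FreeGroup.lift U (FreeGroup.of s * (ws s)⁻¹)).1 - 1) =
          N ((U s).1 - (FreeGroup.lift U (ws s)).1) := by
        rw [← hN.right (FreeGroup.lift U (ws s)), Matrix.sub_mul, Matrix.one_mul,
          ← UnitaryGroup.mul_val, ← map_mul, inv_mul_cancel_right, FreeGroup.lift_apply_of]
      rw [e1] at h3
      rw [Matrix.mul_one]
      have h4 := N_tri (N := N) (U s).1 (FreeGroup.lift U (ws s)).1 1
      linarith
    have h2 : M ≤ k * (ε0 / (8 * (k + 1) * ℓ0)) + LL * (k * κ * M + 4 * k * N Q) := by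
      have h3 : M ≤ ∑ s : Fin k, (ε0 / (8 * (k + 1) * ℓ0) + L s * (k * κ * M + 4 * k * N Q)) :=
        sum_le_sum fun s _ => h1 s
      rw [sum_add_distrib, sum_const, card_univ, Fintype.card_fin, nsmul_eq_mul, ← sum_mul] at h3
      have h4 : 0 ≤ k * κ * M + 4 * k * N Q := by positivity
      have h5 : (∑ s, L s) * (k * κ * M + 4 * k * N Q) ≤ LL * (k * κ * M + 4 * k * N Q) :=
        mul_le_mul_of_nonneg_right (by linarith) h4
      linarith
    have h6 : LL * (k * κ * M) ≤ 1 / 2 * M := by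
      have h7 : LL * (k * κ) ≤ 1 / 2 := by
        have h8 : κ * (2 * LL * (k + 1)) ≤ 1 := by
          rw [le_div_iff₀ (by positivity)] at hκ1
          exact hκ1
        nlinarith [mul_nonneg (by linarith : (0 : ℝ) ≤ LL) hκ0.le]
      calc LL * (k * κ * M) = (LL * (k * κ)) * M := by ring
        _ ≤ 1 / 2 * M := mul_le_mul_of_nonneg_right h7 hM0
    have h9 : M ≤ 2 * (k * (ε0 / (8 * (k + 1) * ℓ0))) + 8 * LL * k * N Q := by
      have : LL * (k * κ * M + 4 * k * N Q) = LL * (k * κ * M) + 4 * LL * k * N Q := by ring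
      rw [this] at h2
      linarith
    have h10 : N ((FreeGroup.lift U w0).1 - 1) ≤ ℓ0 * M := by
      have := hword0 n N hN U 1
      rwa [Matrix.mul_one] at this
    have h11 : N ((φ g0).1 - 1) ≤ ε0 / 4 + ℓ0 * M := by
      have h12 := N_tri (N := N) (φ g0).1 (FreeGroup.lift U w0).1 1
      rw [hw0, N_sub_comm] at q3
      linarith
    have h13 : ℓ0 * (2 * (k * (ε0 / (8 * (k + 1) * ℓ0)))) ≤ ε0 / 4 := by
      have e : ℓ0 * (2 * (k * (ε0 / (8 * (k + 1) * ℓ0)))) = (k / (k + 1)) * (ε0 / 4) := by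
        field_simp
        ring
      rw [e]
      have h14 : (k : ℝ) / (k + 1) ≤ 1 := by
        rw [div_le_one (by positivity)]
        linarith
      calc (k : ℝ) / (k + 1) * (ε0 / 4) ≤ 1 * (ε0 / 4) :=
            mul_le_mul_of_nonneg_right h14 (by positivity)
        _ = ε0 / 4 := one_mul _
    have h15 : ℓ0 * (8 * LL * k * N Q) ≤ ε0 / 2 := by
      have h16 : N Q * (16 * LL * (k + 1) * ℓ0) ≤ ε0 := by
        rw [hc0, lt_div_iff₀ hden] at hcon
        exact hcon.le
      nlinarith [mul_nonneg (mul_nonneg (by linarith : (0 : ℝ) ≤ LL) (by linarith : (0 : ℝ) ≤ ℓ0)) hNQ0]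
    have h17 : ℓ0 * M ≤ ℓ0 * (2 * (k * (ε0 / (8 * (k + 1) * ℓ0))) + 8 * LL * k * N Q) :=
      mul_le_mul_of_nonneg_left h9 (by linarith)
    rw [mul_add] at h17
    linarith
  have hNQ0 : 0 < N Q := lt_of_lt_of_le hc00 hNQ
  have hQ0 : 0 < hs Q := by
    apply hs_pos
    intro h0
    rw [h0, map_zero] at hNQ0
    exact lt_irrefl _ hNQ0
  -- conversion of errors
  have hconv : ∀ (u v : unitaryGroup (Fin n) ℂ) (η : ℝ), N (u.1 - v.1) ≤ η * c0 / 2 →
      hs ((u.1 - v.1) * Q) ≤ η * hs Q ∧ hs (Q * (u.1 - v.1)) ≤ η * hs Q := by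
    intro u v η hη
    have h1 := hN.hs_le hQ.pr u v
    have h2 := hN.hs_le' hQ.pr u v
    have h3 : 2 * (hs Q * N (u.1 - v.1)) ≤ η * hs Q * N Q := by
      have h4 : hs Q * N (u.1 - v.1) ≤ hs Q * (η * c0 / 2) := mul_le_mul_of_nonneg_left hη hQ0.le
      have hη0 : 0 ≤ η := by
        by_contra hneg
        push Not at hneg
        have : η * c0 / 2 < 0 := by
          have := mul_neg_of_neg_of_pos hneg hc00
          linarith
        linarith [apply_nonneg N (u.1 - v.1)]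
      have h5 : η * hs Q * c0 ≤ η * hs Q * N Q := mul_le_mul_of_nonneg_left hNQ (by positivity)
      nlinarith
    exact ⟨le_of_mul_le_mul_right (h1.trans h3) hNQ0, le_of_mul_le_mul_right (h2.trans h3) hNQ0⟩
  refine ⟨n, φ, Q, hQ.pr, hQ0, ?_, ?_, ?_⟩
  · -- multiplicativity
    intro a ha b hb
    have h1 := q4 a ha b hb
    have h2 := (hconv (φ (a * b)) (φ a * φ b) ε (by
      rw [UnitaryGroup.mul_val]; exact h1)).1
    rwa [UnitaryGroup.mul_val] at h2
  · -- commutators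
    intro a ha
    have h1 := q5 a ha
    rw [hwa a] at h1
    obtain ⟨h2, h3⟩ := hconv (FreeGroup.lift U (wa a)) (φ a) (ε / 9) (by
      have : ε / 9 * c0 / 2 = ε * c0 / 18 := by ring
      rw [this]
      exact h1)
    have h4 := hcomm a n U Q (2 * (κ ^ 2 * hs Q)) fun s => hQ.almost (by positivity) s
    have h5 : ℓa a * (2 * (κ ^ 2 * hs Q)) ≤ ε / 9 * hs Q := by
      have h6 : ℓa a * (2 * κ ^ 2) ≤ ε / 9 := by
        have h7 : κ ^ 2 ≤ ε / (18 * ℓA) := by
          calc κ ^ 2 = κ * κ := sq κ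
            _ ≤ κ * 1 := mul_le_mul_of_nonneg_left hκ2 hκ0.le
            _ = κ := mul_one κ
            _ ≤ _ := hκ3
        have h8 : ℓA * (ε / (18 * ℓA)) = ε / 18 := by field_simp
        have h9 : ℓa a * κ ^ 2 ≤ ℓA * (ε / (18 * ℓA)) :=
          mul_le_mul (hℓA0 a ha) h7 (by positivity) (by linarith)
        linarith
      calc ℓa a * (2 * (κ ^ 2 * hs Q)) = (ℓa a * (2 * κ ^ 2)) * hs Q := by ring
        _ ≤ _ := mul_le_mul_of_nonneg_right h6 hQ0.le
    set W := (FreeGroup.lift U (wa a)).1 with hW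
    have e : (φ a).1 * Q - Q * (φ a).1 = -((W - (φ a).1) * Q) + (W * Q - Q * W) +
        Q * (W - (φ a).1) := by noncomm_ring
    rw [e]
    refine (hs_add3_le _ _ _).trans ?_
    rw [hs_neg]
    linarith
  · -- the gap
    have h1 : ∀ w ∈ R, hs (((FreeGroup.lift U w : Mt n) - 1) * Q) ≤ δ1 * hs Q := by
      intro w hw
      have h2 := (hconv (FreeGroup.lift U w) 1 δ1 (by
        rw [OneMemClass.coe_one]; exact q1 w hw)).1
      rwa [OneMemClass.coe_one] at h2
    have h3 := hgap n U Q hQ h1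
    have h4 : 1 / C * hs Q ≤ 1 / C * (C * ∑ s, hs (((U s : Mt n) - 1) * Q)) :=
      mul_le_mul_of_nonneg_left h3 (by positivity)
    rw [← mul_assoc, one_div_mul_cancel hC.ne', one_mul] at h4
    exact h4

/-- perfect Kazhdan groups without nontrivial hyperlinear quotients -/
theorem almost_of_noHyp' (hT : HasT G) (hp : commutator G = ⊤) (hno : NoHyp G) :
    AlmostRepsTrivial G := by
  by_contra hnot
  obtain ⟨K, hK, hne, hh⟩ := quot_of_rel (relData_of hT hp hnot)
  apply hne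
  rw [eq_top_iff]
  intro g _
  exact (QuotientGroup.eq_one_iff g).1 (hno (G ⧸ K) hh (QuotientGroup.mk' K) g)

end

end Pool.Agent.Helper28.UI
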