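import Pool.Agent.Helper28.UI.Wd
import Pool.Agent.Helper28.UI.Fin

/-!
# Domination of singular numbers
-/

set_option autoImplicit false

namespace Pool.Agent.Helper28.UI

open Matrix Finset Module
open scoped ComplexOrder Matrix.Norms.L2Operator
open Pool.Agent.W661.RC Pool.Agent.W683.RC
open Pool.Agent.H80R2.HG Pool.Agent.H80R2.HG.PSAux
open Pool.Agent.H21R2 (IsHyperlinear)

noncomputable section

variable {G : Type} [Group G] {k : ℕ}

theorem psd_inner {n : ℕ} {M : Mt n} (hM : M.PosSemidef) (v : EE n) :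
    0 ≤ (inner ℂ v (ev M v)).re := by
  have h := herm_eq M hM.1
  unfold conjD at h
  have h0 : ∀ i, 0 ≤ hM.1.eigenvalues i := hM.eigenvalues_nonneg
  rw [h, inner_conj]
  exact sum_nonneg fun i _ => mul_nonneg (h0 i) (sq_nonneg _)

/-- vectors in the kernel of `Q` are almost invariant -/
theorem ker_small {n : ℕ} {U : Fin k → unitaryGroup (Fin n) ℂ} {κ : ℝ} (hκ : 0 ≤ κ) {Q : Mt n}
    (hQ : SpQ U (κ ^ 2) Q) {v : EE n} (hv : ev Q v = 0) (s : Fin k) :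
    ‖ev ((U s).1 - 1) v‖ ≤ κ * ‖v‖ := by
  have h1 : ‖ev ((U s).1 - 1) v‖ ^ 2 ≤ (inner ℂ v (ev (Lp U) v)).re := by
    have h2 : ev (Lp U) v = ∑ s, ev (((U s : Mt n) - 1)ᴴ * ((U s : Mt n) - 1)) v := by
      unfold ev Lp
      rw [map_sum]
      exact sum_apply _ _ _
    rw [h2, inner_sum, Complex.re_sum]
    simp only [← norm_sq_ev]
    exact single_le_sum (f := fun s => ‖ev ((U s).1 - 1) v‖ ^ 2) (fun _ _ => sq_nonneg _)
      (mem_univ s)
  have h3 := psd_inner hQ.le v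
  have h4 : ev ((((κ ^ 2 : ℝ)) : ℂ) • (1 - Q) - Lp U * (1 - Q)) v =
      (((κ ^ 2 : ℝ)) : ℂ) • v - ev (Lp U) v := by
    have h5 : ev (1 - Q) v = v := by rw [ev_sub, ev_one, hv, sub_zero]
    have h6 : ev ((((κ ^ 2 : ℝ)) : ℂ) • (1 - Q)) v = (((κ ^ 2 : ℝ)) : ℂ) • ev (1 - Q) v := by
      unfold ev
      rw [map_smul]
      rfl
    rw [ev_sub, h6, ev_mul, h5]
  rw [h4, inner_sub_right, inner_smul_right, Complex.sub_re, Complex.re_ofReal_mul] at h3
  have h7 : (inner ℂ v v).re = ‖v‖ ^ 2 := (norm_sq_eq_re_inner (𝕜 := ℂ) v).symm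
  rw [h7] at h3
  apply le_of_sq_le_sq _ (by positivity)
  rw [mul_pow]
  linarith

/-- if the rank of `Q` is small then `φ g` is close to `1` -/
theorem small_of_rank {n : ℕ} (γ : FreeGroup (Fin k) →* G) (φ : G → unitaryGroup (Fin n) ℂ)
    {r : ℕ} {t κ : ℝ} (ht : 0 ≤ t) (hκ : 0 ≤ κ) {Q : Mt n} (hQ : SpQ (gU γ φ) (κ ^ 2) Q) {C1 : ℕ}
    (hrk : rk Q ≤ C1 * r) (ws : Fin k → FreeGroup (Fin k)) (m : Fin k → ℕ)
    (hws : ∀ s, Sm ((FreeGroup.lift (gU γ φ) (ws s)).1 - (gU γ φ s).1) (m s * r) (m s * t))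
    (L : Fin k → ℝ) (F : Fin k → Finset (FreeGroup (Fin k)))
    (hL : ∀ s, ∀ (K : Submodule ℂ (EE n)),
      (∀ s, ∀ x ∈ K, ‖ev ((gU γ φ s).1 - 1) x‖ ≤ κ * ‖x‖) →
      ∀ v, (∀ h ∈ F s, ev (FreeGroup.lift (gU γ φ) h).1 v ∈ K) →
        ‖ev ((FreeGroup.lift (gU γ φ) (ws s)).1 - 1) v‖ ≤ L s * (κ * mv (gU γ φ) v))
    (hκL : (∑ s, L s + 1) * κ ≤ 1 / 2) (g0 : G) (w0 : FreeGroup (Fin k)) (m0 : ℕ)
    (h0 : Sm ((FreeGroup.lift (gU γ φ) w0).1 - (φ g0).1) (m0 * r) (m0 * t)) {ℓ0 : ℝ} (hℓ0 : 1 ≤ ℓ0)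
    (hword0 : ∀ v, ‖ev ((FreeGroup.lift (gU γ φ) w0).1 - 1) v‖ ≤ ℓ0 * mv (gU γ φ) v) (C : ℕ)
    (hC1 : k * (∑ s, m s) + (univ.biUnion F).card * C1 + m0 ≤ C)
    (hC2 : (m0 : ℝ) + ℓ0 * (2 * ((∑ s, m s : ℕ) : ℝ)) ≤ C) :
    Sm ((φ g0).1 - 1) (C * r) (C * t) := by
  classical
  set U := gU γ φ with hU
  set M : ℕ := ∑ s, m s with hM
  have hmM : ∀ s, m s ≤ M := fun s => single_le_sum (f := m) (fun _ _ => Nat.zero_le _) (mem_univ s)
  -- the subspaces
  obtain ⟨W1, hW1, hv1⟩ := inter_big (univ : Finset (Fin k))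
    (fun s v => ‖ev ((FreeGroup.lift U (ws s)).1 - (U s).1) v‖ ≤ (m s * t) * ‖v‖) (M * r)
    fun s _ => by
      obtain ⟨W, hW, hv⟩ := hws s
      exact ⟨W, hW.trans (Nat.add_le_add_left (Nat.mul_le_mul_right _ (hmM s)) _), hv⟩
  obtain ⟨W2, hW2, hv2⟩ := inter_big (univ.biUnion F)
    (fun h v => ev Q (ev (FreeGroup.lift U h).1 v) = 0) (C1 * r) fun h _ => by
      refine ⟨LinearMap.ker (Matrix.toEuclideanLin (𝕜 := ℂ) (Q * (FreeGroup.lift U h).1)), ?_, ?_⟩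
      · have h1 := ker_big (Q * (FreeGroup.lift U h).1)
        have h2 : rk (Q * (FreeGroup.lift U h).1) ≤ C1 * r := by
          rw [rk_eq]
          refine (Matrix.rank_mul_le_left _ _).trans ?_
          rw [← rk_eq]
          exact hrk
        exact h1.le.trans (Nat.add_le_add_left h2 _)
      · intro v hv
        have h1 : ev (Q * (FreeGroup.lift U h).1) v = 0 := hv
        rwa [ev_mul] at h1
  obtain ⟨W3, hW3, hv3⟩ := h0
  refine ⟨W1 ⊓ W2 ⊓ W3, ?_, ?_⟩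
  · have h1 := inf_big (inf_big hW1 hW2) hW3
    refine h1.trans (Nat.add_le_add_left ?_ _)
    rw [card_univ, Fintype.card_fin]
    calc k * (M * r) + (univ.biUnion F).card * (C1 * r) + m0 * r
        = (k * M + (univ.biUnion F).card * C1 + m0) * r := by ring
      _ ≤ C * r := Nat.mul_le_mul_right _ hC1
  · intro v hv
    set K : Submodule ℂ (EE n) := LinearMap.ker (Matrix.toEuclideanLin (𝕜 := ℂ) Q) with hK
    have hKs : ∀ s, ∀ x ∈ K, ‖ev ((U s).1 - 1) x‖ ≤ κ * ‖x‖ := fun s x hx => ker_small hκ hQ hx s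
    have hmv0 := mv_nonneg U v
    have h1 : mv U v ≤ M * t * ‖v‖ + (∑ s, L s) * (κ * mv U v) := by
      have h2 : ∀ s, ‖ev ((U s).1 - 1) v‖ ≤ (m s * t) * ‖v‖ + L s * (κ * mv U v) := by
        intro s
        have h3 := hL s K hKs v fun h hh =>
          hv2 v hv.1.2 h (mem_biUnion.2 ⟨s, mem_univ s, hh⟩)
        have h4 := hv1 v hv.1.1 s (mem_univ s)
        have e : (U s).1 - 1 = -((FreeGroup.lift U (ws s)).1 - (U s).1) +
            ((FreeGroup.lift U (ws s)).1 - 1) := by abel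
        rw [e, ev_add, ev_neg]
        refine (norm_add_le _ _).trans ?_
        rw [norm_neg]
        linarith
      calc mv U v ≤ ∑ s, ((m s * t) * ‖v‖ + L s * (κ * mv U v)) := sum_le_sum fun s _ => h2 s
        _ = M * t * ‖v‖ + (∑ s, L s) * (κ * mv U v) := by
          rw [sum_add_distrib, ← sum_mul, ← sum_mul, ← sum_mul, hM]
          push_cast
          rfl
    have h5 : (∑ s, L s) * (κ * mv U v) ≤ 1 / 2 * mv U v := by
      have h6 : (∑ s, L s) * (κ * mv U v) ≤ (∑ s, L s + 1) * κ * mv U v := by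
        nlinarith [mul_nonneg hκ hmv0]
      exact h6.trans (mul_le_mul_of_nonneg_right hκL hmv0)
    have h7 : mv U v ≤ 2 * M * t * ‖v‖ := by linarith
    have h8 : ‖ev ((φ g0).1 - 1) v‖ ≤ m0 * t * ‖v‖ + ℓ0 * mv U v := by
      have e : (φ g0).1 - 1 = -((FreeGroup.lift U w0).1 - (φ g0).1) +
          ((FreeGroup.lift U w0).1 - 1) := by abel
      rw [e, ev_add, ev_neg]
      refine (norm_add_le _ _).trans ?_
      rw [norm_neg]
      have := hv3 v hv.2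
      have := hword0 v
      linarith
    have h9 : ℓ0 * mv U v ≤ ℓ0 * (2 * M * t * ‖v‖) := mul_le_mul_of_nonneg_left h7 (by linarith)
    have h10 : ((m0 : ℝ) + ℓ0 * (2 * M)) * (t * ‖v‖) ≤ C * (t * ‖v‖) :=
      mul_le_mul_of_nonneg_right hC2 (by positivity)
    nlinarith

theorem fro_hs {n : ℕ} (X : Mt n) : fro n X = √(hs X) := fro_apply X

theorem Rep.hs_le {n : ℕ} {S : Set (Mt n)} {m : ℕ} {X : Mt n} (h : Rep S m X) (y z : Mt n) {c : ℝ}
    (hc : ∀ x ∈ S, hs (y * x * z) ≤ c) (hc0 : 0 ≤ c) : hs (y * X * z) ≤ m ^ 2 * c := by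
  have h1 := h.le (fun x => fro n (y * x * z)) (by simp) (fun x x' => by
    rw [Matrix.mul_add, Matrix.add_mul]
    exact map_add_le_add _ _ _) (c := √c) (fun x hx => by
      rw [fro_hs]
      exact Real.sqrt_le_sqrt (hc x hx))
  rw [fro_hs] at h1
  have h2 := pow_le_pow_left₀ (Real.sqrt_nonneg _) h1 2
  rwa [mul_pow, Real.sq_sqrt (hs_nonneg _), Real.sq_sqrt hc0] at h2

theorem Df_norm {A : Finset G} {n : ℕ} {φ : G → unitaryGroup (Fin n) ℂ} {y : Mt n}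
    (hy : y ∈ Df A φ) : ‖y‖ ≤ 2 := by
  obtain ⟨a, _, b, _, u, v, rfl⟩ := hy
  have h1 : ‖(φ (a * b)).1 - (φ a).1 * (φ b).1‖ ≤ 2 := by
    refine (norm_sub_le _ _).trans ?_
    rw [← UnitaryGroup.mul_val]
    have := norm_u_le (φ (a * b))
    have := norm_u_le (φ a * φ b)
    linarith
  calc ‖u.1 * ((φ (a * b)).1 - (φ a).1 * (φ b).1) * v.1‖
      ≤ ‖u.1 * ((φ (a * b)).1 - (φ a).1 * (φ b).1)‖ * ‖v.1‖ := norm_mul_le _ _
    _ ≤ (‖u.1‖ * ‖(φ (a * b)).1 - (φ a).1 * (φ b).1‖) * ‖v.1‖ :=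
        mul_le_mul_of_nonneg_right (norm_mul_le _ _) (norm_nonneg _)
    _ ≤ (1 * 2) * 1 := by
        have := norm_u_le u
        have := norm_u_le v
        gcongr
    _ = 2 := by norm_num

theorem Df_sm {A : Finset G} {n : ℕ} {φ : G → unitaryGroup (Fin n) ℂ} {r : ℕ} {t : ℝ}
    (h : ∀ a ∈ A, ∀ b ∈ A, Sm ((φ (a * b)).1 - (φ a).1 * (φ b).1) r t) {y : Mt n}
    (hy : y ∈ Df A φ) : Sm y r t := by
  obtain ⟨a, ha, b, hb, u, v, rfl⟩ := hy
  exact ((h a ha b hb).left u).right v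

/-- the key proposition -/
theorem relData2 (hT : HasT G) (hp : commutator G = ⊤) (g0 : G)
    (hnot : ∀ (A : Finset G) (C : ℕ), 1 ≤ C → ∃ (n : ℕ) (φ : G → unitaryGroup (Fin n) ℂ) (r : ℕ)
      (t : ℝ), 0 ≤ t ∧ (∀ a ∈ A, ∀ b ∈ A, Sm ((φ (a * b)).1 - (φ a).1 * (φ b).1) r t) ∧
        ¬ Sm ((φ g0).1 - 1) (C * r) (C * t)) : RelData G := by
  classical
  obtain ⟨k, γ, hγ⟩ := Pool.Agent.N303.KQ.exists_free hT
  obtain ⟨Cg, hCg, hgap⟩ := gap G γ hT hγ
  choose ws hws1 hws2 using fun s : Fin k => exists_comm_word γ hγ hp (γ (FreeGroup.of s))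
  choose L F hL1 hL using fun s : Fin k => comm_ev (ws s) (hws1 s)
  choose As ms hms using fun s : Fin k => EvR.word γ (ws s)
  obtain ⟨w0, hw0⟩ := hγ g0
  obtain ⟨A0, m0, hm0⟩ := EvR.word γ w0
  obtain ⟨ℓ0, hℓ0, hword0⟩ := word_ev w0
  set M : ℕ := ∑ s, ms s with hM
  set LL : ℝ := ∑ s, L s + 1 with hLL
  have hLL0 : 0 ≤ ∑ s, L s := sum_nonneg fun s _ => by linarith [hL1 s]
  have hLL1 : 1 ≤ LL := by linarith
  refine ⟨k, fun s => γ (FreeGroup.of s), 1 / Cg, by positivity, fun A ε hε => ?_⟩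
  choose wa hwa using fun a : G => hγ a
  choose Aa ma hma using fun a : G => EvR.word γ (wa a)
  choose ℓa hℓa hcomm using fun a : G => word_comm (wa a)
  set ℓA : ℝ := ∑ a ∈ A, ℓa a + 1 with hℓA
  have hℓA0 : ∀ a ∈ A, ℓa a ≤ ℓA := by
    intro a ha
    have := single_le_sum (f := ℓa) (fun a _ => hℓa a) ha
    linarith
  have hℓA1 : 1 ≤ ℓA := by
    have := sum_nonneg (s := A) fun a _ => hℓa a
    linarith
  -- the choice of κ
  set κ : ℝ := min (1 / (2 * LL)) (min 1 (ε / (18 * ℓA))) with hκ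
  have hκ0 : 0 < κ := by
    rw [hκ]
    refine lt_min (by positivity) (lt_min one_pos (by positivity))
  have hκ1 : κ ≤ 1 / (2 * LL) := min_le_left _ _
  have hκ2 : κ ≤ 1 := (min_le_right _ _).trans (min_le_left _ _)
  have hκ3 : κ ≤ ε / (18 * ℓA) := (min_le_right _ _).trans (min_le_right _ _)
  have hκL : LL * κ ≤ 1 / 2 := by
    calc LL * κ ≤ LL * (1 / (2 * LL)) := mul_le_mul_of_nonneg_left hκ1 (by linarith)
      _ = 1 / 2 := by field_simp
  obtain ⟨δ1, R, hδ1, hR, hgap⟩ := hgap (κ ^ 2) (by positivity)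
  choose Ar mr hmr using fun w : R => EvR.rel γ w.1 (hR w.1 w.2)
  set A' : Finset G := A ∪ univ.biUnion As ∪ A0 ∪ A.biUnion Aa ∪ R.attach.biUnion Ar with hA'
  have hsA : A ⊆ A' := fun x hx => by simp [hA', hx]
  have hsAs : ∀ s, As s ⊆ A' := fun s x hx => by
    simp only [hA', mem_union, mem_biUnion]
    exact Or.inl (Or.inl (Or.inl (Or.inr ⟨s, mem_univ s, hx⟩)))
  have hsA0 : A0 ⊆ A' := fun x hx => by simp [hA', hx]
  have hsAa : ∀ a ∈ A, Aa a ⊆ A' := fun a ha x hx => by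
    simp only [hA', mem_union, mem_biUnion]
    exact Or.inl (Or.inr ⟨a, ha, hx⟩)
  have hsAr : ∀ w : R, Ar w ⊆ A' := fun w x hx => by
    simp only [hA', mem_union, mem_biUnion]
    exact Or.inr ⟨w, mem_attach _ _, hx⟩
  set MM : ℕ := ∑ a ∈ A, ma a + ∑ w ∈ R.attach, mr w + 1 with hMM
  have hMM1 : (1 : ℝ) ≤ MM := by
    have : 1 ≤ MM := by omega
    exact_mod_cast this
  have hMMa : ∀ a ∈ A, (ma a : ℝ) ≤ MM := by
    intro a ha
    have h1 : ma a ≤ ∑ a ∈ A, ma a := single_le_sum (f := ma) (fun _ _ => Nat.zero_le _) ha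
    have : ma a ≤ MM := by omega
    exact_mod_cast this
  have hMMr : ∀ w : R, (mr w : ℝ) ≤ MM := by
    intro w
    have h1 : mr w ≤ ∑ w ∈ R.attach, mr w :=
      single_le_sum (f := mr) (fun _ _ => Nat.zero_le _) (mem_attach R w)
    have : mr w ≤ MM := by omega
    exact_mod_cast this
  set η : ℝ := min (ε / 9) δ1 / (MM : ℝ) ^ 2 with hη
  have hη0 : 0 < η := by
    rw [hη]
    have : 0 < min (ε / 9) δ1 := lt_min (by positivity) hδ1
    positivity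
  have hη1 : ∀ m : ℕ, (m : ℝ) ≤ MM → (m : ℝ) ^ 2 * η ≤ min (ε / 9) δ1 := by
    intro m hm
    have h1 : (m : ℝ) ^ 2 ≤ (MM : ℝ) ^ 2 := pow_le_pow_left₀ (Nat.cast_nonneg m) hm 2
    calc (m : ℝ) ^ 2 * η ≤ (MM : ℝ) ^ 2 * η := mul_le_mul_of_nonneg_right h1 hη0.le
      _ = min (ε / 9) δ1 := by
        rw [hη]
        field_simp
  set C1 : ℕ := ⌈16 / η⌉₊ with hC1
  set t0 : ℝ := √(η / 4) with ht0d
  have ht00 : 0 < t0 := Real.sqrt_pos.2 (by positivity)
  set C : ℕ := 1 + ⌈2 / t0⌉₊ + (k * M + (univ.biUnion F).card * C1 + m0) +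
    ⌈(m0 : ℝ) + ℓ0 * (2 * (M : ℝ))⌉₊ with hC
  obtain ⟨n, φ, r, t, ht, hSm, hnS⟩ := hnot A' C (by omega)
  have hSmS : ∀ y ∈ Df A' φ, Sm y r t := fun y hy => Df_sm hSm hy
  set U := gU γ φ with hU
  have hCt : ∀ x : ℝ, x ≤ C → x * t ≤ C * t := fun x hx => mul_le_mul_of_nonneg_right hx ht
  -- t is small
  have htt : t < t0 := by
    by_contra hcon
    push Not at hcon
    apply hnS
    refine ⟨⊤, ?_, fun v _ => ?_⟩
    · rw [finrank_top, finrank_euclideanSpace, Fintype.card_fin]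
      omega
    · have h1 : ‖ev ((φ g0).1 - 1) v‖ ≤ 2 * ‖v‖ := by
        rw [ev_sub, ev_one]
        refine (norm_sub_le _ _).trans ?_
        rw [norm_ev_u]
        linarith
      have h2 : (2 : ℝ) ≤ C * t := by
        have h3 : 2 / t0 ≤ C := by
          refine (Nat.le_ceil _).trans ?_
          have : ⌈2 / t0⌉₊ ≤ C := by omega
          exact_mod_cast this
        calc (2 : ℝ) = 2 / t0 * t0 := by field_simp
          _ ≤ C * t := mul_le_mul h3 hcon ht00.le (Nat.cast_nonneg C)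
      exact h1.trans (mul_le_mul_of_nonneg_right h2 (norm_nonneg v))
  obtain ⟨Q, hQ⟩ := exists_spQ U (κ ^ 2)
  have hhs : hs Q = rk Q := hs_pr hQ.pr
  -- the rank of Q is large
  have hrk : C1 * r < rk Q := by
    by_contra hcon
    push Not at hcon
    apply hnS
    refine small_of_rank γ φ ht hκ0.le hQ hcon ws ms (fun s => ?_) L F
      (fun s K hK v hv => hL s n U K κ hκ0.le hK v hv) hκL g0 w0 m0 ?_ hℓ0 (fun v => hword0 n U v)
      C ?_ ?_
    · have h1 := ((hms s n φ).mono (Df_mono (hsAs s) φ)).sm hSmS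
      rw [hws2 s] at h1
      exact h1
    · have h1 := ((hm0 n φ).mono (Df_mono hsA0 φ)).sm hSmS
      rw [hw0] at h1
      exact h1
    · rw [hC, ← hM]
      omega
    · rw [← hM]
      refine (Nat.le_ceil _).trans ?_
      have : ⌈(m0 : ℝ) + ℓ0 * (2 * (M : ℝ))⌉₊ ≤ C := by omega
      exact_mod_cast this
  have hQ0 : 0 < hs Q := by
    rw [hhs]
    exact_mod_cast lt_of_le_of_lt (Nat.zero_le _) hrk
  -- conversion of errors
  have h8 : 8 * (r : ℝ) ≤ η / 2 * hs Q := by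
    have h1 : (C1 : ℝ) * r ≤ hs Q := by
      rw [hhs]
      exact_mod_cast hrk.le
    have h2 : 16 / η ≤ C1 := Nat.le_ceil _
    have h3 : 16 / η * r ≤ hs Q := (mul_le_mul_of_nonneg_right h2 (Nat.cast_nonneg r)).trans h1
    calc 8 * (r : ℝ) = η / 2 * (16 / η * r) := by field_simp; ring
      _ ≤ η / 2 * hs Q := mul_le_mul_of_nonneg_left h3 (by positivity)
  have h9 : 2 * (t ^ 2 * hs Q) ≤ η / 2 * hs Q := by
    have h1 : t ^ 2 ≤ η / 4 := by
      have := pow_le_pow_left₀ ht htt.le 2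
      rwa [ht0d, Real.sq_sqrt (by positivity)] at this
    nlinarith
  have hdf : ∀ y ∈ Df A' φ, hs (y * Q) ≤ η * hs Q ∧ hs (Q * y) ≤ η * hs Q := by
    intro y hy
    obtain ⟨h1, h2⟩ := Sm.hs_le ht (hSmS y hy) (Df_norm hy) (norm_pr_le hQ.pr)
    exact ⟨by linarith, by linarith⟩
  have hrep : ∀ (m : ℕ) (X : Mt n), Rep (Df A' φ) m X → (m : ℝ) ≤ MM →
      hs (X * Q) ≤ min (ε / 9) δ1 * hs Q ∧ hs (Q * X) ≤ min (ε / 9) δ1 * hs Q := by
    intro m X hX hm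
    have h1 := hX.hs_le 1 Q (c := η * hs Q) (fun x hx => by
      rw [Matrix.one_mul]; exact (hdf x hx).1) (by positivity)
    have h2 := hX.hs_le Q 1 (c := η * hs Q) (fun x hx => by
      rw [Matrix.mul_one]; exact (hdf x hx).2) (by positivity)
    rw [Matrix.one_mul] at h1
    rw [Matrix.mul_one] at h2
    have h3 := mul_le_mul_of_nonneg_right (hη1 m hm) hQ0.le
    constructor
    · calc hs (X * Q) ≤ (m : ℝ) ^ 2 * (η * hs Q) := h1
        _ = (m : ℝ) ^ 2 * η * hs Q := by ring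
        _ ≤ _ := h3
    · calc hs (Q * X) ≤ (m : ℝ) ^ 2 * (η * hs Q) := h2
        _ = (m : ℝ) ^ 2 * η * hs Q := by ring
        _ ≤ _ := h3
  refine ⟨n, φ, Q, hQ.pr, hQ0, ?_, ?_, ?_⟩
  · -- multiplicativity
    intro a ha b hb
    have h1 := (hdf _ (mem_Df φ (hsA ha) (hsA hb))).1
    refine h1.trans (mul_le_mul_of_nonneg_right ?_ hQ0.le)
    have h2 := hη1 1 (by exact_mod_cast hMM1)
    rw [Nat.cast_one, one_pow, one_mul] at h2
    have h3 := min_le_left (ε / 9) δ1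
    linarith
  · -- commutators
    intro a ha
    have h1 := (hma a n φ).mono (Df_mono (hsAa a ha) φ)
    rw [hwa a] at h1
    obtain ⟨h2, h3⟩ := hrep _ _ h1 (hMMa a ha)
    have h2' := h2.trans (mul_le_mul_of_nonneg_right (min_le_left (ε / 9) δ1) hQ0.le)
    have h3' := h3.trans (mul_le_mul_of_nonneg_right (min_le_left (ε / 9) δ1) hQ0.le)
    have h4 := hcomm a n U Q (2 * (κ ^ 2 * hs Q)) fun s => hQ.almost (by positivity) s
    have h5 : ℓa a * (2 * (κ ^ 2 * hs Q)) ≤ ε / 9 * hs Q := by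
      have h6 : ℓa a * (2 * κ ^ 2) ≤ ε / 9 := by
        have h7 : κ ^ 2 ≤ ε / (18 * ℓA) := by
          calc κ ^ 2 = κ * κ := sq κ
            _ ≤ κ * 1 := mul_le_mul_of_nonneg_left hκ2 hκ0.le
            _ = κ := mul_one κ
            _ ≤ _ := hκ3
        have h8 : ℓA * (ε / (18 * ℓA)) = ε / 18 := by field_simp
        have h9 : ℓa a * κ ^ 2 ≤ ℓA * (ε / (18 * ℓA)) :=
          mul_le_mul (hℓA0 a ha) h7 (by positivity) (by linarith)
        linarith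
      calc ℓa a * (2 * (κ ^ 2 * hs Q)) = (ℓa a * (2 * κ ^ 2)) * hs Q := by ring
        _ ≤ _ := mul_le_mul_of_nonneg_right h6 hQ0.le
    set W := (FreeGroup.lift U (wa a)).1 with hW
    have e : (φ a).1 * Q - Q * (φ a).1 = -((W - (φ a).1) * Q) + (W * Q - Q * W) +
        Q * (W - (φ a).1) := by noncomm_ring
    rw [e]
    refine (hs_add3_le _ _ _).trans ?_
    rw [hs_neg]
    linarith
  · -- the gap
    have h1 : ∀ w ∈ R, hs (((FreeGroup.lift U w : Mt n) - 1) * Q) ≤ δ1 * hs Q := by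
      intro w hw
      have h2 := (hmr ⟨w, hw⟩ n φ).mono (Df_mono (hsAr ⟨w, hw⟩) φ)
      exact ((hrep _ _ h2 (hMMr ⟨w, hw⟩)).1).trans
        (mul_le_mul_of_nonneg_right (min_le_right _ _) hQ0.le)
    have h3 := hgap n U Q hQ h1
    have h4 : 1 / Cg * hs Q ≤ 1 / Cg * (Cg * ∑ s, hs (((U s : Mt n) - 1) * Q)) :=
      mul_le_mul_of_nonneg_left h3 (by positivity)
    rw [← mul_assoc, one_div_mul_cancel hCg.ne', one_mul] at h4
    exact h4

/-- domination of singular numbers -/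
theorem sv_dom (hT : HasT G) (hno : NoHyp G) (g : G) : ∃ (A : Finset G) (C : ℕ), 1 ≤ C ∧
    ∀ (n : ℕ) (φ : G → unitaryGroup (Fin n) ℂ) (r : ℕ) (t : ℝ), 0 ≤ t →
      (∀ a ∈ A, ∀ b ∈ A, Sm ((φ (a * b)).1 - (φ a).1 * (φ b).1) r t) →
        Sm ((φ g).1 - 1) (C * r) (C * t) := by
  by_contra hcon
  push Not at hcon
  obtain ⟨K, hK, hne, hh⟩ := quot_of_rel (relData2 hT (perfect_of_noHyp hno) g hcon)
  apply hne
  rw [eq_top_iff]
  intro g _
  exact (QuotientGroup.eq_one_iff g).1 (hno (G ⧸ K) hh (QuotientGroup.mk' K) g)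

/-- **The main theorem**: `φ g - 1` is a bounded sum of unitary translates of defects. -/
theorem rep_of_noHyp (hT : HasT G) (hno : NoHyp G) (g : G) : ∃ (A : Finset G) (m : ℕ),
    ∀ (n : ℕ) (φ : G → unitaryGroup (Fin n) ℂ), Rep (Df A φ) m ((φ g).1 - 1) := by
  classical
  obtain ⟨A, C, hC, h⟩ := sv_dom hT hno g
  refine ⟨A, cnt C (Fintype.card (A × A)), fun n φ => ?_⟩
  refine rep_of_dom C hC (fun p : A × A => (φ (p.1.1 * p.2.1)).1 - (φ p.1.1).1 * (φ p.2.1).1) _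
    (fun r t ht hj => ?_) (Df_bi A φ) fun p => mem_Df φ p.1.2 p.2.2
  exact h n φ r t ht fun a ha b hb => hj (⟨a, ha⟩, ⟨b, hb⟩)

end

end Pool.Agent.Helper28.UI
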