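import Pool.Agent.Helper28.UI.Fac

/-!
# Sums of unitary translates
-/

set_option autoImplicit false

namespace Pool.Agent.Helper28.UI

open Matrix Finset Module
open scoped ComplexOrder Matrix.Norms.L2Operator
open Pool.Agent.W661.RC Pool.Agent.W683.RC
open Pool.Agent.H80R2.HG Pool.Agent.H80R2.HG.PSAux

noncomputable section

variable {n : ℕ}

/-- `X` is a sum of `m` elements of `S` -/
def Rep (S : Set (Mt n)) (m : ℕ) (X : Mt n) : Prop :=
  ∃ l : List (Mt n), l.length = m ∧ (∀ y ∈ l, y ∈ S) ∧ l.sum = X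

theorem Rep.zero {S : Set (Mt n)} : Rep S 0 0 := ⟨[], rfl, by simp, rfl⟩

theorem Rep.one {S : Set (Mt n)} {y : Mt n} (hy : y ∈ S) : Rep S 1 y :=
  ⟨[y], rfl, by simpa using hy, by simp⟩

theorem Rep.add {S : Set (Mt n)} {m m' : ℕ} {X Y : Mt n} (h : Rep S m X) (h' : Rep S m' Y) :
    Rep S (m + m') (X + Y) := by
  obtain ⟨l, rfl, h1, rfl⟩ := h
  obtain ⟨l', rfl, h2, rfl⟩ := h'
  refine ⟨l ++ l', List.length_append, fun y hy => ?_, List.sum_append⟩
  rcases List.mem_append.1 hy with hy | hy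
  · exact h1 y hy
  · exact h2 y hy

theorem Rep.nsmul {S : Set (Mt n)} {m : ℕ} {X : Mt n} (h : Rep S m X) (k : ℕ) :
    Rep S (k * m) (k • X) := by
  induction k with
  | zero => rw [zero_mul, zero_smul]; exact Rep.zero
  | succ k ih =>
    rw [add_mul, one_mul, succ_nsmul]
    exact ih.add h

theorem Rep.sum {S : Set (Mt n)} {m : ℕ} {ι : Type*} (s : Finset ι) (f : ι → Mt n)
    (h : ∀ i ∈ s, Rep S m (f i)) : Rep S (s.card * m) (∑ i ∈ s, f i) := by
  classical
  induction s using Finset.induction_on with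
  | empty => rw [card_empty, zero_mul, sum_empty]; exact Rep.zero
  | insert a s ha ih =>
    rw [card_insert_of_notMem ha, sum_insert ha, add_mul, one_mul, add_comm (s.card * m)]
    exact (h a (mem_insert_self a s)).add (ih fun i hi => h i (mem_insert_of_mem hi))

theorem Rep.mono {S T : Set (Mt n)} (hST : S ⊆ T) {m : ℕ} {X : Mt n} (h : Rep S m X) :
    Rep T m X := by
  obtain ⟨l, h0, h1, h2⟩ := h
  exact ⟨l, h0, fun y hy => hST (h1 y hy), h2⟩

/-- invariance under unitary matrices -/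
def BiInv (S : Set (Mt n)) : Prop := ∀ (u v : unitaryGroup (Fin n) ℂ), ∀ y ∈ S, u.1 * y * v.1 ∈ S

theorem Rep.uni {S : Set (Mt n)} (hS : BiInv S) {m : ℕ} {X : Mt n} (h : Rep S m X)
    (u v : unitaryGroup (Fin n) ℂ) : Rep S m (u.1 * X * v.1) := by
  obtain ⟨l, rfl, h1, rfl⟩ := h
  refine ⟨l.map fun y => u.1 * y * v.1, List.length_map _, ?_, ?_⟩
  · intro y hy
    obtain ⟨z, hz, rfl⟩ := List.mem_map.1 hy
    exact hS u v z (h1 z hz)
  · clear h1
    induction l with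
    | nil => simp
    | cons a l ih =>
      rw [List.map_cons, List.sum_cons, ih, List.sum_cons, Matrix.mul_add, Matrix.add_mul]

theorem Rep.left {S : Set (Mt n)} (hS : BiInv S) {m : ℕ} {X : Mt n} (h : Rep S m X)
    (u : unitaryGroup (Fin n) ℂ) : Rep S m (u.1 * X) := by
  have := h.uni hS u 1
  rwa [OneMemClass.coe_one, Matrix.mul_one] at this

theorem Rep.right {S : Set (Mt n)} (hS : BiInv S) {m : ℕ} {X : Mt n} (h : Rep S m X)
    (u : unitaryGroup (Fin n) ℂ) : Rep S m (X * u.1) := by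
  have := h.uni hS 1 u
  rwa [OneMemClass.coe_one, Matrix.one_mul] at this

/-- `-1` as a unitary matrix -/
def negU : unitaryGroup (Fin n) ℂ := ⟨-1, by
  rw [mem_unitaryGroup_iff, star_neg, star_one, neg_mul_neg, mul_one]⟩

theorem Rep.neg {S : Set (Mt n)} (hS : BiInv S) {m : ℕ} {X : Mt n} (h : Rep S m X) :
    Rep S m (-X) := by
  have := h.left hS negU
  have e : (negU : unitaryGroup (Fin n) ℂ).1 * X = -X := by
    show (-1 : Mt n) * X = -X
    rw [Matrix.neg_mul, Matrix.one_mul]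
  rwa [e] at this

theorem Rep.sub {S : Set (Mt n)} (hS : BiInv S) {m m' : ℕ} {X Y : Mt n} (h : Rep S m X)
    (h' : Rep S m' Y) : Rep S (m + m') (X - Y) := by
  rw [sub_eq_add_neg]
  exact h.add (h'.neg hS)

/-! ### contractions -/

theorem star_dot (y : Fin n → ℂ) : star y ⬝ᵥ y = ((‖(WithLp.toLp 2 y : EE n)‖ ^ 2 : ℝ) : ℂ) := by
  rw [EuclideanSpace.norm_sq_eq]
  push_cast
  unfold dotProduct
  refine sum_congr rfl fun i _ => ?_
  rw [Pi.star_apply, Complex.star_def, mul_comm, Complex.mul_conj, Complex.normSq_eq_norm_sq]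
  push_cast
  rfl

theorem le_one_of_norm {b : Mt n} (hb : ‖b‖ ≤ 1) : Le (bᴴ * b) 1 := by
  unfold Le
  refine Matrix.PosSemidef.of_dotProduct_mulVec_nonneg
    (isHermitian_one.sub (isHermitian_conjTranspose_mul_self b)) fun x => ?_
  rw [Matrix.sub_mulVec, dotProduct_sub, Matrix.one_mulVec]
  have h1 : star x ⬝ᵥ ((bᴴ * b) *ᵥ x) = star (b *ᵥ x) ⬝ᵥ (b *ᵥ x) := by
    rw [← mulVec_mulVec, dotProduct_mulVec, star_mulVec]
  rw [h1, star_dot, star_dot, ← Complex.ofReal_sub]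
  apply Complex.zero_le_real.2
  have h2 := norm_ev_le b (WithLp.toLp 2 x)
  have h3 : ev b (WithLp.toLp 2 x) = WithLp.toLp 2 (b *ᵥ x) := by
    unfold ev
    rw [Matrix.toEuclideanCLM_toLp]
  rw [h3] at h2
  have h4 : ‖b‖ * ‖(WithLp.toLp 2 x : EE n)‖ ≤ 1 * ‖(WithLp.toLp 2 x : EE n)‖ :=
    mul_le_mul_of_nonneg_right hb (norm_nonneg _)
  rw [one_mul] at h4
  have h5 := pow_le_pow_left₀ (norm_nonneg _) (h2.trans h4) 2
  linarith

/-- matrices of norm at most `C` are `C` times a sum of two unitary matrices -/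
theorem exists_unit_sum (C : ℕ) (hC : 1 ≤ C) (a : Mt n) (ha : ‖a‖ ≤ C) :
    ∃ u v : unitaryGroup (Fin n) ℂ, a = C • (u.1 + v.1) := by
  have hC0 : (0 : ℝ) < C := by exact_mod_cast hC
  set b : Mt n := ((1 / (2 * (C : ℝ)) : ℝ) : ℂ) • a with hb
  have hb1 : ‖b‖ ≤ 1 := by
    rw [hb, norm_smul, Complex.norm_real, Real.norm_of_nonneg (by positivity)]
    calc 1 / (2 * (C : ℝ)) * ‖a‖ ≤ 1 / (2 * (C : ℝ)) * C :=
          mul_le_mul_of_nonneg_left ha (by positivity)
      _ = 1 / 2 := by field_simp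
      _ ≤ 1 := by norm_num
  obtain ⟨u, v, h⟩ := contr_avg b (le_one_of_norm hb1)
  refine ⟨u, v, ?_⟩
  have h1 : a = (((2 * (C : ℝ)) : ℝ) : ℂ) • b := by
    rw [hb, smul_smul, ← Complex.ofReal_mul]
    have : 2 * (C : ℝ) * (1 / (2 * C)) = 1 := by field_simp
    rw [this, Complex.ofReal_one, one_smul]
  rw [h1, h, smul_smul, ← Nat.cast_smul_eq_nsmul ℂ]
  congr 1
  push_cast
  ring

theorem Rep.mul_left {S : Set (Mt n)} (hS : BiInv S) {m : ℕ} {X : Mt n} (h : Rep S m X) {C : ℕ}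
    (hC : 1 ≤ C) {a : Mt n} (ha : ‖a‖ ≤ C) : Rep S (C * (m + m)) (a * X) := by
  obtain ⟨u, v, rfl⟩ := exists_unit_sum C hC a ha
  have e : (C • (u.1 + v.1)) * X = C • (u.1 * X + v.1 * X) := by
    rw [smul_mul_assoc, Matrix.add_mul]
  rw [e]
  exact ((h.left hS u).add (h.left hS v)).nsmul C

theorem Rep.mul_right {S : Set (Mt n)} (hS : BiInv S) {m : ℕ} {X : Mt n} (h : Rep S m X) {C : ℕ}
    (hC : 1 ≤ C) {a : Mt n} (ha : ‖a‖ ≤ C) : Rep S (C * (m + m)) (X * a) := by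
  obtain ⟨u, v, rfl⟩ := exists_unit_sum C hC a ha
  have e : X * (C • (u.1 + v.1)) = C • (X * u.1 + X * v.1) := by
    rw [mul_smul_comm, Matrix.mul_add]
  rw [e]
  exact ((h.right hS u).add (h.right hS v)).nsmul C

/-- the count in `rep_of_dom` -/
def cnt (C p : ℕ) : ℕ := C * (p * (C * (1 * (1 + 1) + 1 * (1 + 1))))

theorem rep_of_dom {ι : Type*} [Fintype ι] (C : ℕ) (hC : 1 ≤ C) (E : ι → Mt n) (X : Mt n)
    (h : ∀ (r : ℕ) (t : ℝ), 0 ≤ t → (∀ j, Sm (E j) r t) → Sm X (C * r) (C * t))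
    {S : Set (Mt n)} (hS : BiInv S) (hE : ∀ j, E j ∈ S) :
    Rep S (cnt C (Fintype.card ι)) X := by
  obtain ⟨a, b, ha, hb, rfl⟩ := factor C hC E X h
  have h1 : ∀ k j, Rep S (C * (1 * (1 + 1) + 1 * (1 + 1))) (a k j * E j * b k) := by
    intro k j
    have h2 := ((Rep.one (hE j)).mul_right hS le_rfl (a := b k) (by simpa using hb k)).mul_left hS hC
      (ha k j)
    rw [Matrix.mul_assoc]
    exact h2
  have h2 := Rep.sum (S := S) univ (fun k => ∑ j, a k j * E j * b k) fun k _ =>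
    Rep.sum (S := S) univ (fun j => a k j * E j * b k) fun j _ => h1 k j
  rw [card_univ, card_univ, Fintype.card_fin] at h2
  exact h2

/-! ### subadditive functions -/

theorem Rep.le {S : Set (Mt n)} {m : ℕ} {X : Mt n} (h : Rep S m X) (N : Mt n → ℝ) (hN0 : N 0 ≤ 0)
    (hN : ∀ x y, N (x + y) ≤ N x + N y) {c : ℝ} (hc : ∀ y ∈ S, N y ≤ c) : N X ≤ m * c := by
  obtain ⟨l, rfl, h1, rfl⟩ := h
  induction l with
  | nil => simpa using hN0
  | cons a l ih =>
    have h2 := ih fun y hy => h1 y (List.mem_cons_of_mem _ hy)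
    have h3 := hc a (h1 a List.mem_cons_self)
    rw [List.sum_cons, List.length_cons]
    refine (hN _ _).trans ?_
    push_cast
    linarith

theorem Rep.sm {S : Set (Mt n)} {m : ℕ} {X : Mt n} (h : Rep S m X) {r : ℕ} {t : ℝ}
    (hS : ∀ y ∈ S, Sm y r t) : Sm X (m * r) (m * t) := by
  obtain ⟨l, rfl, h1, rfl⟩ := h
  induction l with
  | nil => simpa using Sm.zero
  | cons a l ih =>
    have h2 := ih fun y hy => h1 y (List.mem_cons_of_mem _ hy)
    have h3 := hS a (h1 a List.mem_cons_self)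
    rw [List.sum_cons, List.length_cons]
    have h4 := h3.add h2
    have e1 : (l.length + 1) * r = r + l.length * r := by ring
    have e2 : ((l.length + 1 : ℕ) : ℝ) * t = t + l.length * t := by push_cast; ring
    rw [e1, e2]
    exact h4

end

end Pool.Agent.Helper28.UI
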