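import Pool.Graph.R_pool_sql_team_seeded_63374d34.N52.NH.Fin
import Pool.Graph.R_seed8.H21R2.HCrit

/-!
# Groups without nontrivial hyperlinear quotients

* `hyp_of_sep`: residually hyperlinear groups are hyperlinear.
* `main'`: the criterion for non-hyperlinearity of the library, for quotients.
* `noHQ_e3`: the elementary group `E_3(A)` of the Leavitt algebra has no nontrivial hyperlinear
  quotient.
-/

set_option autoImplicit false
set_option linter.unusedSimpArgs false

namespace Pool.Agent.Helper28.UI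

open Matrix Finset
open Pool.Agent.H21R2 (IsHyperlinear RelativeHSCriterion criterion_of_hyperlinear
  hyperlinear_of_criterion)
open Pool.Agent.W661.RC (HasT)

/-- Every homomorphism from `G` to a hyperlinear group is trivial. -/
def NoHyp (G : Type) [Group G] : Prop :=
  ∀ (H : Type) [Group H], IsHyperlinear H → ∀ (f : G →* H) (g : G), f g = 1

theorem hyp_of_sep {G : Type} [Group G]
    (h : ∀ g : G, g ≠ 1 → ∃ (H : Type) (_ : Group H) (f : G →* H), IsHyperlinear H ∧ f g ≠ 1) :
    IsHyperlinear G := by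
  classical
  apply hyperlinear_of_criterion
  intro A h1A g hgA hg ε hε
  obtain ⟨H, _, f, hH, hf⟩ := h g hg
  obtain ⟨n, φ, T, hT, p1, p2, p3, p4⟩ := criterion_of_hyperlinear hH (A.image f)
    (mem_image.2 ⟨1, h1A, map_one f⟩) (f g) (mem_image_of_mem f hgA) hf ε hε
  refine ⟨n, fun x => φ (f x), T, hT, ?_, p2, fun a ha => p3 (f a) (mem_image_of_mem f ha), ?_⟩
  · show φ (f 1) = 1
    rw [map_one]; exact p1
  · intro a ha b hb hab
    have := p4 (f a) (mem_image_of_mem f ha) (f b) (mem_image_of_mem f hb)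
      (by rw [← map_mul]; exact mem_image_of_mem f hab)
    have e : f (a * b) = f a * f b := map_mul f a b
    show Pool.Agent.H21R2.hs (((φ (f (a * b))).1 - (φ (f a)).1 * (φ (f b)).1) * T) ≤ _
    rw [e]
    exact this

theorem hyp_of_inj {G H : Type} [Group G] [Group H] (f : G →* H) (hf : Function.Injective f)
    (hH : IsHyperlinear H) : IsHyperlinear G :=
  hyp_of_sep fun g hg => ⟨H, _, f, hH, fun h => hg (hf (by rw [h, map_one]))⟩

/-- the hyperlinear residual -/
def Rs (G : Type) [Group G] : Subgroup G where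
  carrier := {g | ∀ (H : Type) [Group H], IsHyperlinear H → ∀ f : G →* H, f g = 1}
  one_mem' := fun H _ _ f => map_one f
  mul_mem' := fun {a b} ha hb H _ hH f => by rw [map_mul, ha H hH f, hb H hH f, one_mul]
  inv_mem' := fun {a} ha H _ hH f => by rw [map_inv, ha H hH f, inv_one]

theorem mem_Rs {G : Type} [Group G] {g : G} :
    g ∈ Rs G ↔ ∀ (H : Type) [Group H], IsHyperlinear H → ∀ f : G →* H, f g = 1 := Iff.rfl

instance (G : Type) [Group G] : (Rs G).Normal where
  conj_mem := fun n hn g H _ hH f => by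
    rw [map_mul, map_mul, map_inv, hn H hH f, mul_one, mul_inv_cancel]

theorem Rs_map {G : Type} [Group G] (θ : G →* G) {g : G} (hg : g ∈ Rs G) : θ g ∈ Rs G :=
  fun H _ hH f => hg H hH (f.comp θ)

theorem hyp_quot (G : Type) [Group G] : IsHyperlinear (G ⧸ Rs G) := by
  apply hyp_of_sep
  intro x hx
  obtain ⟨g, rfl⟩ := QuotientGroup.mk_surjective x
  have hg : g ∉ Rs G := fun h => hx ((QuotientGroup.eq_one_iff g).2 h)
  rw [mem_Rs] at hg
  push Not at hg
  obtain ⟨H, iH, hH, f, hf⟩ := hg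
  exact ⟨H, iH, QuotientGroup.lift (Rs G) f fun y hy => hy H hH f, hH, hf⟩

theorem hasT_quot {G : Type} [Group G] (hT : HasT G) (N : Subgroup G) [N.Normal] :
    HasT (G ⧸ N) := by
  classical
  intro H _ _ _ π hπ
  obtain ⟨v, hv, h⟩ := hT H (π.comp (QuotientGroup.mk' N)) (by
    intro K ε hε
    obtain ⟨v, hv, h⟩ := hπ (K.image (QuotientGroup.mk' N)) ε hε
    exact ⟨v, hv, fun g hg => h _ (mem_image_of_mem _ hg)⟩)
  refine ⟨v, hv, fun x => ?_⟩
  obtain ⟨g, rfl⟩ := QuotientGroup.mk_surjective x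
  exact h g

section main

open Pool.Agent.N52.NH Pool.Agent.N303.KQ Pool.Agent.W661.RC Pool.Agent.W683.RC
open Pool.Agent.N52.NH.MAINH (hs_word lift_lift)

/-- The criterion of the library with a weaker hypothesis on `η`. -/
theorem main' {G : Type} [Group G] (θ η : G →* G) (h : G) (hT : HasT G)
    (comm : ∀ a b, θ a * η b = η b * θ a)
    (mono : ∀ a, ∃ b, θ a = h * θ b * h⁻¹)
    (sub : ∀ a, ∃ b, η a = h * θ b * h⁻¹)
    (gen : Subgroup.closure {g : G | ∀ a, ∃ b, θ a = g * θ b * g⁻¹} = ⊤)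
    (l1 l2 : G) (hl : η l1 * η l2 ≠ η l2 * η l1) : ¬ IsHyperlinear G := by
  intro hHyp
  classical
  have hR := t_red
  have hB := BLK.main
  have hG := Pool.Agent.N169.NH52.main
  have hC := Pool.Agent.N957.NH.core
  obtain ⟨k, γ, s0, hγ, hs0, hmon⟩ := hG G θ h hT mono gen
  choose w hw using fun t : Fin k => hγ (θ (γ (FreeGroup.of t)))
  have hlw : ∀ b : FreeGroup (Fin k), γ (FreeGroup.lift w b) = θ (γ b) := by
    intro b
    have h1 : γ.comp (FreeGroup.lift w) = θ.comp γ := by
      apply FreeGroup.ext_hom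
      intro j
      simp [hw]
    exact congrFun (congrArg DFunLike.coe h1) b
  -- conjugation words
  have hv : ∀ s t : Fin k, ∃ v : FreeGroup (Fin k), θ (γ (FreeGroup.of t)) =
      γ (FreeGroup.of s) * θ (γ v) * (γ (FreeGroup.of s))⁻¹ := by
    intro s t
    obtain ⟨b, hb⟩ := hmon s (γ (FreeGroup.of t))
    obtain ⟨v, rfl⟩ := hγ b
    exact ⟨v, hb⟩
  choose v hv using hv
  let ll : Fin 2 → G := ![l1, l2]
  choose vw hvw using fun j : Fin 2 => hγ (η (ll j))
  have hvl : ∀ j : Fin 2, ∃ v : FreeGroup (Fin k), η (ll j) = h * θ (γ v) * h⁻¹ := by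
    intro j
    obtain ⟨b, hb⟩ := sub (ll j)
    obtain ⟨v, rfl⟩ := hγ b
    exact ⟨v, hb⟩
  choose vl hvl using hvl
  obtain ⟨K1, hK1, hR⟩ := hR G k γ hT hγ hHyp
  obtain ⟨K0, hK0, hB⟩ := hB G k γ hT hγ
  obtain ⟨ε, hε, hC⟩ := hC k K0 (max K1 1) v (v s0) vl hK0 (le_max_right _ _)
  obtain ⟨R, δ, hRw, hδ, hB⟩ := hB ε hε
  -- the relators
  let rel : FreeGroup (Fin k) → FreeGroup (Fin k) → FreeGroup (Fin k) := fun a b => a * b⁻¹
  let E1 : Finset (FreeGroup (Fin k)) := univ.image fun p : Fin k × Fin k =>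
    rel (w p.2 * FreeGroup.of p.1) (FreeGroup.of p.1 * FreeGroup.lift w (v p.1 p.2))
  let E3 : Finset (FreeGroup (Fin k)) := univ.image fun p : Fin 2 × Fin k =>
    rel (w p.2 * vw p.1) (vw p.1 * w p.2)
  let E4 : Finset (FreeGroup (Fin k)) := univ.image fun j : Fin 2 =>
    rel (vw j * FreeGroup.of s0) (FreeGroup.of s0 * FreeGroup.lift w (vl j))
  let E5 : Finset (FreeGroup (Fin k)) := R.image fun r => FreeGroup.lift w r
  have hE : ∀ x ∈ E1 ∪ E3 ∪ E4 ∪ E5, γ x = 1 := by
    intro x hx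
    simp only [mem_union] at hx
    rcases hx with ((hx | hx) | hx) | hx
    · obtain ⟨⟨s, t⟩, -, rfl⟩ := mem_image.1 hx
      simp only [rel, map_mul, map_inv, hw, hlw]
      rw [hv s t]
      group
    · obtain ⟨⟨j, t⟩, -, rfl⟩ := mem_image.1 hx
      simp only [rel, map_mul, map_inv, hw, hvw]
      rw [comm]
      group
    · obtain ⟨j, -, rfl⟩ := mem_image.1 hx
      simp only [rel, map_mul, map_inv, hlw, hvw, hs0]
      rw [hvl j]
      group
    · obtain ⟨r, hr, rfl⟩ := mem_image.1 hx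
      rw [hlw, hRw r hr, map_one]
  have hw0 : γ (rel (vw 0 * vw 1) (vw 1 * vw 0)) ≠ 1 := by
    simp only [rel, map_mul, map_inv, hvw]
    intro h1
    rw [mul_inv_eq_one] at h1
    exact hl h1
  obtain ⟨d, U, hd, hU, hU0, hIrr⟩ := hR (E1 ∪ E3 ∪ E4 ∪ E5) _ (min ε δ) hE hw0 (lt_min hε hδ)
  have hdr : (0 : ℝ) < d := by exact_mod_cast hd
  have hle1 : min ε δ * d ≤ ε * d := mul_le_mul_of_nonneg_right (min_le_left _ _) hdr.le
  have hle2 : min ε δ * d ≤ δ * d := mul_le_mul_of_nonneg_right (min_le_right _ _) hdr.le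
  set UK : Fin k → unitaryGroup (Fin d) ℂ := fun t => FreeGroup.lift U (w t) with hUK
  have hlUK : ∀ b, FreeGroup.lift UK b = FreeGroup.lift U (FreeGroup.lift w b) := by
    intro b
    rw [hUK, lift_lift]
  obtain ⟨O, hO⟩ := hB d UK hd fun r hr => by
    rw [hlUK]
    exact (hU _ (by
      simp only [mem_union]
      exact Or.inr (mem_image.2 ⟨r, hr, rfl⟩))).trans hle2
  have key := hC d U UK (U s0) (fun j => FreeGroup.lift U (vw j)) O hd hO.en hO.near hO.size ?_
    ?_ ?_ ?_ ?_
  · have h1 : hs ((FreeGroup.lift U (rel (vw 0 * vw 1) (vw 1 * vw 0)) : Mt d) - 1) =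
        hs ((FreeGroup.lift U (vw 0) : Mt d) * (FreeGroup.lift U (vw 1) : Mt d) -
          (FreeGroup.lift U (vw 1) : Mt d) * (FreeGroup.lift U (vw 0) : Mt d)) := by
      simp only [rel]
      rw [hs_word, map_mul, map_mul, UnitaryGroup.mul_val, UnitaryGroup.mul_val]
    rw [h1] at hU0
    linarith
  · intro x hx
    obtain ⟨m, hm⟩ := hIrr x hx
    refine ⟨m, hm.trans ?_⟩
    have h1 : 0 ≤ en (fun s => (U s : Mt d)) x :=
      sum_nonneg fun s _ => Pool.Agent.W683.RC.hs_nonneg _
    have h2 := mul_le_mul_of_nonneg_right (le_max_left K1 1) h1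
    linarith
  · intro s t
    have h1 := hU (rel (w t * FreeGroup.of s) (FreeGroup.of s * FreeGroup.lift w (v s t))) (by
      simp only [mem_union]
      exact Or.inl (Or.inl (Or.inl (mem_image.2 ⟨(s, t), mem_univ _, rfl⟩))))
    simp only [rel] at h1
    rw [hs_word, map_mul, map_mul, UnitaryGroup.mul_val, UnitaryGroup.mul_val,
      FreeGroup.lift_apply_of, ← hlUK] at h1
    exact h1.trans hle1
  · intro t
    have h1 := hU (rel (w t * FreeGroup.of s0) (FreeGroup.of s0 * FreeGroup.lift w (v s0 t))) (by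
      simp only [mem_union]
      exact Or.inl (Or.inl (Or.inl (mem_image.2 ⟨(s0, t), mem_univ _, rfl⟩))))
    simp only [rel] at h1
    rw [hs_word, map_mul, map_mul, UnitaryGroup.mul_val, UnitaryGroup.mul_val,
      FreeGroup.lift_apply_of, ← hlUK] at h1
    exact h1.trans hle1
  · intro j t
    have h1 := hU (rel (w t * vw j) (vw j * w t)) (by
      simp only [mem_union]
      exact Or.inl (Or.inl (Or.inr (mem_image.2 ⟨(j, t), mem_univ _, rfl⟩))))
    simp only [rel] at h1
    rw [hs_word, map_mul, map_mul, UnitaryGroup.mul_val, UnitaryGroup.mul_val] at h1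
    exact h1.trans hle1
  · intro j
    have h1 := hU (rel (vw j * FreeGroup.of s0) (FreeGroup.of s0 * FreeGroup.lift w (vl j))) (by
      simp only [mem_union]
      exact Or.inl (Or.inr (mem_image.2 ⟨j, mem_univ _, rfl⟩)))
    simp only [rel] at h1
    rw [hs_word, map_mul, map_mul, UnitaryGroup.mul_val, UnitaryGroup.mul_val,
      FreeGroup.lift_apply_of, ← hlUK] at h1
    exact h1.trans hle1

end main

/-- the endomorphism induced on the quotient by the residual -/
def ind {G : Type} [Group G] (θ : G →* G) : G ⧸ Rs G →* G ⧸ Rs G :=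
  QuotientGroup.map (Rs G) (Rs G) θ fun _ hg => Rs_map θ hg

theorem ind_mk {G : Type} [Group G] (θ : G →* G) (g : G) :
    ind θ (g : G ⧸ Rs G) = ((θ g : G) : G ⧸ Rs G) := rfl

/-- In a Kazhdan group with the data of the criterion, `η(G)` lies in the hyperlinear residual. -/
theorem eta_mem {G : Type} [Group G] (θ η : G →* G) (h : G) (hT : HasT G)
    (hD : Pool.Agent.N44.NS.Dat G θ η h) (g : G) : η g ∈ Rs G := by
  by_cases hab : ∀ a b : G, (η a * η b) * (η b * η a)⁻¹ ∈ Rs G
  · -- abelian image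
    have h1 : commutator G ≤ (Rs G).comap η := by
      rw [commutator_def, Subgroup.commutator_le]
      intro a _ b _
      rw [Subgroup.mem_comap]
      have := hab a b
      rw [map_commutatorElement, commutatorElement_def]
      have e : η a * η b * (η a)⁻¹ * (η b)⁻¹ = η a * η b * (η b * η a)⁻¹ := by group
      rw [e]
      exact this
    rw [hD.perf] at h1
    exact h1 (Subgroup.mem_top g)
  · exfalso
    push Not at hab
    obtain ⟨a, b, hab⟩ := hab
    refine main' (ind θ) (ind η) (h : G ⧸ Rs G) (hasT_quot hT _) ?_ ?_ ?_ ?_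
      (a : G ⧸ Rs G) (b : G ⧸ Rs G) ?_ (hyp_quot G)
    · intro x y
      obtain ⟨x, rfl⟩ := QuotientGroup.mk_surjective x
      obtain ⟨y, rfl⟩ := QuotientGroup.mk_surjective y
      rw [ind_mk, ind_mk, ← QuotientGroup.mk_mul, ← QuotientGroup.mk_mul, hD.comm]
    · intro x
      obtain ⟨x, rfl⟩ := QuotientGroup.mk_surjective x
      obtain ⟨y, hy⟩ := hD.mono x
      exact ⟨(y : G ⧸ Rs G), by
        rw [ind_mk, ind_mk, hy, QuotientGroup.mk_mul, QuotientGroup.mk_mul, QuotientGroup.mk_inv]⟩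
    · intro x
      obtain ⟨x, rfl⟩ := QuotientGroup.mk_surjective x
      obtain ⟨y, hy⟩ := hD.sub x
      exact ⟨(y : G ⧸ Rs G), by
        rw [ind_mk, ind_mk, hy, QuotientGroup.mk_mul, QuotientGroup.mk_mul, QuotientGroup.mk_inv]⟩
    · rw [eq_top_iff]
      have h2 : (⊤ : Subgroup G) ≤ (Subgroup.closure {g : G ⧸ Rs G | ∀ a, ∃ b,
          ind θ a = g * ind θ b * g⁻¹}).comap (QuotientGroup.mk' (Rs G)) := by
        rw [← hD.gen, Subgroup.closure_le]
        intro x hx
        apply Subgroup.subset_closure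
        intro y
        obtain ⟨y, rfl⟩ := QuotientGroup.mk_surjective y
        obtain ⟨z, hz⟩ := hx y
        exact ⟨(z : G ⧸ Rs G), by
          rw [ind_mk, ind_mk, hz, QuotientGroup.mk_mul, QuotientGroup.mk_mul,
            QuotientGroup.mk_inv]; rfl⟩
      intro x _
      obtain ⟨x, rfl⟩ := QuotientGroup.mk_surjective x
      exact h2 (Subgroup.mem_top x)
    · intro h3
      apply hab
      rw [ind_mk, ind_mk, ← QuotientGroup.mk_mul, ← QuotientGroup.mk_mul] at h3
      rw [← QuotientGroup.eq_one_iff, QuotientGroup.mk_mul, QuotientGroup.mk_inv, h3,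
        mul_inv_cancel]

section e3

open Pool.Agent.N44.NS Pool.Agent.N46.NS

variable {A : Type} [Ring A]

theorem comm_mem {G : Type} [Group G] (N : Subgroup G) [N.Normal] (a b : G)
    (h : a ∈ N ∨ b ∈ N) : a * b * a⁻¹ * b⁻¹ ∈ N := by
  rcases h with h | h
  · have e : a * b * a⁻¹ * b⁻¹ = a * (b * a⁻¹ * b⁻¹) := by group
    rw [e]
    exact N.mul_mem h (Subgroup.Normal.conj_mem inferInstance _ (N.inv_mem h) b)
  · exact N.mul_mem (Subgroup.Normal.conj_mem inferInstance _ h a) (N.inv_mem h)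

/-- a normal subgroup which contains the corner subgroup is everything -/
theorem top_of_corner (p q : Fin 3 → A) (hqp : ∀ i, q i * p i = 1) (N : Subgroup (E3 A)) [N.Normal]
    (h : ∀ a, ThE p q hqp a ∈ N) : N = ⊤ := by
  apply top_of
  intro i j hij b
  obtain ⟨m, him, hmj⟩ := Pool.Agent.N46.NS.third i j
  -- entries in the corner
  have h1 : ∀ (i j : Fin 3) (hij : i ≠ j), eE i j hij (p i * q j) ∈ N := by
    intro i j hij
    have := h (eE i j hij 1)
    rwa [ThE_eE, mul_one] at this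
  -- multiply from the right
  have h2 : eE i m him (p i * b) ∈ N := by
    have e := eE_comm i j m hij hmj.symm him (p i * q j) (p j * b)
    have e2 : p i * q j * (p j * b) = p i * b := by
      rw [mul_assoc, ← mul_assoc (q j), hqp, one_mul]
    rw [e2] at e
    rw [e]
    exact comm_mem N _ _ (Or.inl (h1 i j hij))
  have h3 : eE j m hmj.symm (q i * (p i * b)) ∈ N := by
    rw [eE_comm j i m hij.symm him hmj.symm]
    exact comm_mem N _ _ (Or.inr h2)
  rw [← mul_assoc, hqp, one_mul] at h3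
  have h4 : eE i m him (1 * b) ∈ N := by
    rw [eE_comm i j m hij hmj.symm him]
    exact comm_mem N _ _ (Or.inr h3)
  rw [one_mul] at h4
  have h5 := eE_comm i m j him hmj hij b 1
  rw [mul_one] at h5
  rw [h5]
  exact comm_mem N _ _ (Or.inl h4)

/-- the data of the library with the form of `η` -/
theorem data' (A : Type) [Ring A] [Nontrivial A] (x1 x2 y1 y2 : A) (hL : Leav x1 x2 y1 y2) :
    ∃ (θ : E3 A →* E3 A) (p q : Fin 3 → A) (hqp : ∀ i, q i * p i = 1) (h : E3 A),
      Dat (E3 A) θ (ThE p q hqp) h := by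
  have a1 := hL.r11
  have a2 := hL.r22
  have a3 := hL.r12
  have a4 := hL.r21
  have b1 : ∀ z, y1 * (x1 * z) = z := fun z => by rw [← mul_assoc, a1, one_mul]
  have b2 : ∀ z, y2 * (x2 * z) = z := fun z => by rw [← mul_assoc, a2, one_mul]
  have b3 : ∀ z, y1 * (x2 * z) = 0 := fun z => by rw [← mul_assoc, a3, zero_mul]
  have b4 : ∀ z, y2 * (x1 * z) = 0 := fun z => by rw [← mul_assoc, a4, zero_mul]
  obtain ⟨u, hu⟩ : ∃ u : A, u = x1 * (y1 * y1) + x2 * (x1 * (y2 * y1)) + x2 * (x2 * y2) := ⟨_, rfl⟩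
  obtain ⟨ui, hui⟩ : ∃ ui : A, ui = x1 * (x1 * y1) + x1 * (x2 * (y1 * y2)) + x2 * (y2 * y2) := ⟨_, rfl⟩
  have c1 : u * ui = 1 := by
    rw [hu, hui]
    simp only [mul_add, add_mul, mul_assoc, a1, a2, a3, a4, b1, b2, b3, b4, mul_zero, zero_mul,
      mul_one, one_mul, add_zero, zero_add]
    calc _ = x1 * y1 + x2 * ((x1 * y1 + x2 * y2) * y2) := by noncomm_ring
      _ = 1 := by rw [hL.rs, one_mul, hL.rs]
  have c2 : ui * u = 1 := by
    rw [hu, hui]
    simp only [mul_add, add_mul, mul_assoc, a1, a2, a3, a4, b1, b2, b3, b4, mul_zero, zero_mul,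
      mul_one, one_mul, add_zero, zero_add]
    calc _ = x1 * ((x1 * y1 + x2 * y2) * y1) + x2 * y2 := by noncomm_ring
      _ = 1 := by rw [hL.rs, one_mul, hL.rs]
  -- the relations
  have d1 : u * x1 * x1 = x1 := by
    rw [hu]
    simp only [mul_add, add_mul, mul_assoc, a1, a2, a3, a4, b1, b2, b3, b4, mul_zero, zero_mul,
      mul_one, one_mul, add_zero, zero_add]
  have d2 : ui * x2 * x2 = x2 := by
    rw [hui]
    simp only [mul_add, add_mul, mul_assoc, a1, a2, a3, a4, b1, b2, b3, b4, mul_zero, zero_mul,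
      mul_one, one_mul, add_zero, zero_add]
  have d3 : y1 * (y1 * ui) = y1 := by
    rw [hui]
    simp only [mul_add, add_mul, mul_assoc, a1, a2, a3, a4, b1, b2, b3, b4, mul_zero, zero_mul,
      mul_one, one_mul, add_zero, zero_add]
  have d4 : y2 * (y2 * u) = y2 := by
    rw [hu]
    simp only [mul_add, add_mul, mul_assoc, a1, a2, a3, a4, b1, b2, b3, b4, mul_zero, zero_mul,
      mul_one, one_mul, add_zero, zero_add]
  have d5 : u * x1 * x2 = x2 * x1 := by
    rw [hu]
    simp only [mul_add, add_mul, mul_assoc, a1, a2, a3, a4, b1, b2, b3, b4, mul_zero, zero_mul,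
      mul_one, one_mul, add_zero, zero_add]
  have d6 : ui * x2 * x1 = x1 * x2 := by
    rw [hui]
    simp only [mul_add, add_mul, mul_assoc, a1, a2, a3, a4, b1, b2, b3, b4, mul_zero, zero_mul,
      mul_one, one_mul, add_zero, zero_add]
  have d7 : y2 * (y1 * ui) = y1 * y2 := by
    rw [hui]
    simp only [mul_add, add_mul, mul_assoc, a1, a2, a3, a4, b1, b2, b3, b4, mul_zero, zero_mul,
      mul_one, one_mul, add_zero, zero_add]
  have d8 : y1 * (y2 * u) = y2 * y1 := by
    rw [hu]
    simp only [mul_add, add_mul, mul_assoc, a1, a2, a3, a4, b1, b2, b3, b4, mul_zero, zero_mul,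
      mul_one, one_mul, add_zero, zero_add]
  have d9 : ui * (u * u) = u := by rw [← mul_assoc, c2, one_mul]
  have f1 : u * u * (ui * ui) = 1 := by
    calc u * u * (ui * ui) = u * (u * ui) * ui := by simp only [mul_assoc]
      _ = 1 := by rw [c1, mul_one, c1]
  have f2 : ui * ui * (u * u) = 1 := by
    calc ui * ui * (u * u) = ui * (ui * u) * u := by simp only [mul_assoc]
      _ = 1 := by rw [c2, mul_one, c2]
  -- the element
  obtain ⟨g1, hg1, hg1v⟩ := w01 u ui c1 c2
  obtain ⟨g2, hg2, hg2v⟩ := w12 (u * u) (ui * ui) f1 f2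
  refine ⟨_, _, _, _, _, dat_of ![x1, x1, x2] ![y1, y1, y2] ![x2 * x1, x2 * x1, x1 * x2]
    ![y1 * y2, y1 * y2, y2 * y1] ![x1, x1, x2 * x2] ![y1, y1, y2 * y2] ![x2, x2, x2 * x1]
    ![y2, y2, y1 * y2] ![u, u, ui * ui] ![ui, ui, u * u]
    ?_ ?_ ?_ ?_ ?_ ?_ ?_ ?_ ?_ ?_ ?_ ?_ (g1 * g2) (mul_mem hg1 hg2) ?_⟩
  · intro i
    fin_cases i <;> simp [a1, a2]
  · intro i
    fin_cases i <;> simp [mul_assoc, a1, a2, b1, b2]
  · intro i
    fin_cases i <;> simp [b3, b4]
  · intro i
    fin_cases i <;> simp [mul_assoc, a3, a4]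
  · intro i
    fin_cases i <;> simp [mul_assoc, a1, a2, b2]
  · intro i
    fin_cases i <;> simp [mul_assoc, a1, a2, b2]
  · intro i
    fin_cases i
    · exact c1
    · exact c1
    · exact f2
  · intro i
    fin_cases i
    · exact c2
    · exact c2
    · exact f1
  · intro i
    fin_cases i
    · exact d1
    · exact d1
    · change ui * ui * x2 * (x2 * x2) = x2
      calc ui * ui * x2 * (x2 * x2) = ui * (ui * x2 * x2) * x2 := by simp only [mul_assoc]
        _ = x2 := by rw [d2, d2]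
  · intro i
    fin_cases i
    · exact d3
    · exact d3
    · change y2 * y2 * (y2 * (u * u)) = y2
      calc y2 * y2 * (y2 * (u * u)) = y2 * (y2 * (y2 * u)) * u := by simp only [mul_assoc]
        _ = y2 := by rw [d4, mul_assoc, d4]
  · intro i
    fin_cases i
    · exact d5
    · exact d5
    · change ui * ui * x2 * (x2 * x1) = x1 * x2
      calc ui * ui * x2 * (x2 * x1) = ui * (ui * x2 * x2) * x1 := by simp only [mul_assoc]
        _ = x1 * x2 := by rw [d2, d6]
  · intro i
    fin_cases i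
    · exact d7
    · exact d7
    · change y1 * y2 * (y2 * (u * u)) = y2 * y1
      calc y1 * y2 * (y2 * (u * u)) = y1 * (y2 * (y2 * u)) * u := by simp only [mul_assoc]
        _ = y2 * y1 := by rw [d4, mul_assoc, d8]
  · rw [Units.val_mul, hg1v, hg2v, Matrix.diagonal_mul_diagonal]
    congr 1
    funext i
    fin_cases i
    · exact mul_one u
    · exact d9
    · exact one_mul _

/-- If `A` contains Leavitt elements and `E_3(A)` has property (T), then it has no nontrivial
hyperlinear quotient. -/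
theorem noHyp_of_leav (A : Type) [Ring A] [Nontrivial A] (x1 x2 y1 y2 : A)
    (hL : Leav x1 x2 y1 y2) (hT : HasT (E3 A)) : NoHyp (E3 A) := by
  obtain ⟨θ, p, q, hqp, h, hD⟩ := data' A x1 x2 y1 y2 hL
  have h1 : Rs (E3 A) = ⊤ := top_of_corner p q hqp _ (eta_mem θ _ h hT hD)
  intro H _ hH f g
  have h2 : g ∈ Rs (E3 A) := by rw [h1]; exact Subgroup.mem_top g
  exact h2 H hH f

/-- **The group `E_3(A)` of the Leavitt algebra has no nontrivial hyperlinear quotient.** -/
theorem noHyp_e3 (K : Type) [Field K] [Fintype K] (A : Type) [Ring A] [Algebra K A] [Nontrivial A]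
    (x1 x2 y1 y2 : A) (hK : 256 ≤ Fintype.card K) (hL : Leav x1 x2 y1 y2)
    (hg : Algebra.adjoin K (Set.range ![x1, x2, y1, y2]) = ⊤) :
    HasT (E3 A) ∧ NoHyp (E3 A) := by
  have hT : HasT (E3 A) := Pool.Agent.N169.NS.t_TT K hK A _ hg
  exact ⟨hT, noHyp_of_leav A x1 x2 y1 y2 hL hT⟩

end e3

end Pool.Agent.Helper28.UI
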