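import Pool.Agent.Helper95.UN.Uni

/-!
# Every countable group embeds in a simple quotient of some `E_3(A)`
-/

set_option autoImplicit false
set_option linter.unusedSimpArgs false
set_option linter.unusedSectionVars false
set_option linter.unusedVariables false

namespace Pool.Agent.Helper28.UI

open Pool.Agent.N44.NS (E3 Leav el)
open Pool.Agent.N46.NS (w01 w12)
open Pool.Agent.Helper95.UN

section grp

variable {G : Type} [Group G]

theorem exists_max_normal (t : G) (ht : t ≠ 1) :
    ∃ N : Subgroup G, N.Normal ∧ t ∉ N ∧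
      ∀ M : Subgroup G, M.Normal → N ≤ M → t ∉ M → M = N := by
  have hz : ∀ c ⊆ {N : Subgroup G | N.Normal ∧ t ∉ N}, IsChain (· ≤ ·) c → ∀ y ∈ c,
      ∃ ub ∈ {N : Subgroup G | N.Normal ∧ t ∉ N}, ∀ z ∈ c, z ≤ ub := by
    intro c hc hch y hy
    have hd : DirectedOn (· ≤ ·) c := hch.directedOn
    have hm : ∀ x, x ∈ sSup c ↔ ∃ s ∈ c, x ∈ s := fun x =>
      Subgroup.mem_sSup_of_directedOn ⟨y, hy⟩ hd
    refine ⟨sSup c, ⟨⟨fun n hn g => ?_⟩, fun h => ?_⟩, fun z hz => le_sSup hz⟩
    · obtain ⟨s, hs, hns⟩ := (hm n).1 hn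
      exact (hm _).2 ⟨s, hs, (hc hs).1.conj_mem n hns g⟩
    · obtain ⟨s, hs, hts⟩ := (hm t).1 h
      exact (hc hs).2 hts
  obtain ⟨N, -, hN⟩ := zorn_le_nonempty₀ {N : Subgroup G | N.Normal ∧ t ∉ N} hz ⊥
    ⟨inferInstance, by simpa using ht⟩
  exact ⟨N, hN.prop.1, hN.prop.2, fun M hM hle htM => le_antisymm (hN.2 ⟨hM, htM⟩ hle) hle⟩

/-- if `t` normally generates `G`, the quotient by a normal subgroup maximal without `t` is
simple -/
theorem simple_quotient (t : G) (ht : ∀ N : Subgroup G, N.Normal → t ∈ N → N = ⊤)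
    (N : Subgroup G) [hN : N.Normal] (h1 : t ∉ N)
    (h2 : ∀ M : Subgroup G, M.Normal → N ≤ M → t ∉ M → M = N) : IsSimpleGroup (G ⧸ N) := by
  have hnt : Nontrivial (G ⧸ N) := by
    refine ⟨⟨(t : G ⧸ N), 1, fun h => h1 ?_⟩⟩
    exact (QuotientGroup.eq_one_iff t).1 h
  refine { hnt with eq_bot_or_eq_top_of_normal := fun H hH => ?_ }
  have hc : (H.comap (QuotientGroup.mk' N)).Normal := inferInstance
  have hle : N ≤ H.comap (QuotientGroup.mk' N) := by
    intro x hx
    show (QuotientGroup.mk' N) x ∈ H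
    have : (QuotientGroup.mk' N) x = 1 := (QuotientGroup.eq_one_iff x).2 hx
    rw [this]
    exact H.one_mem
  by_cases htm : t ∈ H.comap (QuotientGroup.mk' N)
  · right
    have h3 := ht _ hc htm
    rw [eq_top_iff]
    intro x _
    obtain ⟨y, rfl⟩ := QuotientGroup.mk'_surjective N x
    have : y ∈ H.comap (QuotientGroup.mk' N) := by
      rw [h3]
      exact Subgroup.mem_top y
    exact this
  · left
    have h3 := h2 _ hc hle htm
    rw [eq_bot_iff]
    intro x hx
    obtain ⟨y, rfl⟩ := QuotientGroup.mk'_surjective N x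
    have : y ∈ H.comap (QuotientGroup.mk' N) := hx
    rw [h3] at this
    exact (QuotientGroup.eq_one_iff y).2 this

end grp

section elem

variable {A : Type} [Ring A]

theorem el_mem' (i j : Fin 3) (h : i ≠ j) (a : A) : el i j h a ∈ E3 A :=
  Subgroup.subset_closure ⟨i, j, h, a, rfl⟩

/-- elementary matrices as elements of `E_3(A)` -/
def ee (i j : Fin 3) (h : i ≠ j) (a : A) : E3 A := ⟨el i j h a, el_mem' i j h a⟩

theorem ee_val (i j : Fin 3) (h : i ≠ j) (a : A) :
    ((ee i j h a : E3 A) : (Matrix (Fin 3) (Fin 3) A)ˣ).val = 1 + Matrix.single i j a := rfl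

theorem ee_rel {i j k : Fin 3} (hij : i ≠ j) (hjk : j ≠ k) (hik : i ≠ k) (a b : A) :
    ee i j hij a * ee j k hjk b = ee i k hik (a * b) * (ee j k hjk b * ee i j hij a) := by
  apply Subtype.ext
  apply Units.ext
  show (1 + Matrix.single i j a) * (1 + Matrix.single j k b) =
    (1 + Matrix.single i k (a * b)) * ((1 + Matrix.single j k b) * (1 + Matrix.single i j a))
  have e1 : Matrix.single i j a * Matrix.single j k b = Matrix.single i k (a * b) := by
    rw [Matrix.single_mul_single_same]
  have e2 : Matrix.single j k b * Matrix.single i j a = 0 :=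
    Matrix.single_mul_single_of_ne _ _ _ _ hik.symm _
  have e3 : Matrix.single i k (a * b) * Matrix.single j k b = 0 :=
    Matrix.single_mul_single_of_ne _ _ _ _ hjk.symm _
  have e4 : Matrix.single i k (a * b) * Matrix.single i j a = 0 :=
    Matrix.single_mul_single_of_ne _ _ _ _ hik.symm _
  simp only [mul_add, add_mul, one_mul, mul_one, e1, e2, e3, e4, mul_zero, add_zero, zero_add]
  abel

theorem memR {N : Subgroup (E3 A)} (hN : N.Normal) {i j : Fin 3} {hij : i ≠ j} {a : A}
    (h : ee i j hij a ∈ N) {k : Fin 3} (hjk : j ≠ k) (hik : i ≠ k) (b : A) :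
    ee i k hik (a * b) ∈ N := by
  have e : ee i k hik (a * b) =
      ee i j hij a * (ee j k hjk b * (ee i j hij a)⁻¹ * (ee j k hjk b)⁻¹) := by
    rw [← mul_assoc, ← mul_assoc, ee_rel hij hjk hik]
    group
  rw [e]
  exact N.mul_mem h (hN.conj_mem _ (N.inv_mem h) _)

theorem memL {N : Subgroup (E3 A)} (hN : N.Normal) {j k : Fin 3} {hjk : j ≠ k} {b : A}
    (h : ee j k hjk b ∈ N) {i : Fin 3} (hij : i ≠ j) (hik : i ≠ k) (a : A) :
    ee i k hik (a * b) ∈ N := by
  have e : ee i k hik (a * b) =
      (ee i j hij a * ee j k hjk b * (ee i j hij a)⁻¹) * (ee j k hjk b)⁻¹ := by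
    rw [ee_rel hij hjk hik]
    group
  rw [e]
  exact N.mul_mem (hN.conj_mem _ h _) (N.inv_mem h)

/-- a normal subgroup containing `e_12(1)` is everything -/
theorem top_of_one {N : Subgroup (E3 A)} (hN : N.Normal)
    (h : ee 1 2 (by decide) (1 : A) ∈ N) : N = ⊤ := by
  have h02 : ∀ a : A, ee 0 2 (by decide) a ∈ N := fun a => by
    simpa using memL hN h (i := 0) (by decide) (by decide) a
  have h10 : ∀ a : A, ee 1 0 (by decide) a ∈ N := fun a => by
    simpa using memR hN h (k := 0) (by decide) (by decide) a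
  have h01 : ∀ a : A, ee 0 1 (by decide) a ∈ N := fun a => by
    simpa using memR hN (h02 1) (k := 1) (by decide) (by decide) a
  have h20 : ∀ a : A, ee 2 0 (by decide) a ∈ N := fun a => by
    simpa using memL hN (h10 1) (i := 2) (by decide) (by decide) a
  have h21 : ∀ a : A, ee 2 1 (by decide) a ∈ N := fun a => by
    simpa using memL hN (h01 1) (i := 2) (by decide) (by decide) a
  have h12 : ∀ a : A, ee 1 2 (by decide) a ∈ N := fun a => by
    simpa using memR hN (h10 1) (k := 2) (by decide) (by decide) a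
  have hall : ∀ (i j : Fin 3) (hij : i ≠ j) (a : A), ee i j hij a ∈ N := by
    intro i j hij a
    fin_cases i <;> fin_cases j
    · exact absurd rfl hij
    · exact h01 a
    · exact h02 a
    · exact h10 a
    · exact absurd rfl hij
    · exact h12 a
    · exact h20 a
    · exact h21 a
    · exact absurd rfl hij
  rw [eq_top_iff]
  rintro ⟨g, hg⟩ -
  have hle : E3 A ≤ N.map (E3 A).subtype := by
    unfold E3
    rw [Subgroup.closure_le]
    rintro _ ⟨i, j, hij, a, rfl⟩
    exact ⟨ee i j hij a, hall i j hij a, rfl⟩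
  obtain ⟨x, hx, hxg⟩ := hle hg
  have : x = ⟨g, hg⟩ := Subtype.ext hxg
  rwa [← this]

/-- a normal subgroup containing `diag(c,1,1)` where `c - 1` is a full element is everything -/
theorem top_of_diag {N : Subgroup (E3 A)} (hN : N.Normal) (d : E3 A) (hd : d ∈ N) (c p q : A)
    (hdv : d.1.val = Matrix.diagonal ![c, 1, 1]) (hpq : p * ((c - 1) * q) = 1) : N = ⊤ := by
  have h01 : ∀ a : A, ee 0 1 (by decide) ((c - 1) * a) ∈ N := by
    intro a
    have e1 : d * ee 0 1 (by decide) a =
        ee 0 1 (by decide) ((c - 1) * a) * (ee 0 1 (by decide) a * d) := by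
      apply Subtype.ext
      apply Units.ext
      show d.1.val * (1 + Matrix.single 0 1 a) =
        (1 + Matrix.single 0 1 ((c - 1) * a)) * ((1 + Matrix.single 0 1 a) * d.1.val)
      rw [hdv]
      ext i j
      fin_cases i <;> fin_cases j <;>
        simp [Matrix.mul_apply, Fin.sum_univ_three, Matrix.diagonal, Matrix.single_apply,
          Matrix.one_apply, sub_mul]
    have e : ee 0 1 (by decide) ((c - 1) * a) = d * (ee 0 1 (by decide) a * d⁻¹ *
        (ee 0 1 (by decide) a)⁻¹) := by
      rw [← mul_assoc, ← mul_assoc, e1]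
      group
    rw [e]
    exact N.mul_mem hd (hN.conj_mem _ (N.inv_mem hd) _)
  have h02 : ∀ a : A, ee 0 2 (by decide) ((c - 1) * a) ∈ N := fun a => by
    have := memR hN (h01 a) (k := 2) (by decide) (by decide) (1 : A)
    rwa [mul_one] at this
  have h12 : ee 1 2 (by decide) (1 : A) ∈ N := by
    have := memL hN (h02 q) (i := 1) (by decide) (by decide) p
    rwa [hpq] at this
  exact top_of_one hN h12

end elem

end Pool.Agent.Helper28.UI
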