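import Pool.Agent.Helper28.UI.Simp

/-!
# Every countable group embeds in a simple quotient of some `E_3(A)`, second part
-/

set_option autoImplicit false
set_option linter.unusedSimpArgs false
set_option linter.unusedSectionVars false
set_option linter.unusedVariables false

namespace Pool.Agent.Helper28.UI

open Pool.Agent.N44.NS (E3 Leav el)
open Pool.Agent.N46.NS (w01 w12)
open Pool.Agent.Helper95.UN

section corner

variable {A : Type} [Ring A] {x1 x2 y1 y2 : A} {Γ : Type} [Group Γ]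

/-- the diagonal embedding of the corner, with its values -/
theorem exists_hom_val (hL : Leav x1 x2 y1 y2) (L : Γ →* A) (h1 : ∀ γ, L γ * x1 = x1 * L γ)
    (h2 : ∀ γ, L γ * x2 = x2 * L γ) :
    ∃ f : Γ →* E3 A, ∀ γ, (f γ).1.val = Matrix.diagonal ![cc hL L γ, 1, 1] := by
  have a1 := hL.r11
  have a2 := hL.r22
  have a3 := hL.r12
  have a4 := hL.r21
  have b1 : ∀ z, y1 * (x1 * z) = z := fun z => by rw [← mul_assoc, a1, one_mul]
  have b2 : ∀ z, y2 * (x2 * z) = z := fun z => by rw [← mul_assoc, a2, one_mul]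
  have b3 : ∀ z, y1 * (x2 * z) = 0 := fun z => by rw [← mul_assoc, a3, zero_mul]
  have b4 : ∀ z, y2 * (x1 * z) = 0 := fun z => by rw [← mul_assoc, a4, zero_mul]
  -- the unit `u`
  obtain ⟨u, hu⟩ : ∃ u : A, u = x1 * (y1 * y1) + x2 * (x1 * (y2 * y1)) + x2 * (x2 * y2) := ⟨_, rfl⟩
  obtain ⟨ui, hui⟩ : ∃ ui : A, ui = x1 * (x1 * y1) + x1 * (x2 * (y1 * y2)) + x2 * (y2 * y2) :=
    ⟨_, rfl⟩
  have c1 : u * ui = 1 := by
    rw [hu, hui]
    simp only [mul_add, add_mul, mul_assoc, a1, a2, a3, a4, b1, b2, b3, b4, mul_zero, zero_mul,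
      mul_one, one_mul, add_zero, zero_add]
    calc _ = x1 * y1 + x2 * ((x1 * y1 + x2 * y2) * y2) := by noncomm_ring
      _ = 1 := by rw [hL.rs, one_mul, hL.rs]
  have c2 : ui * u = 1 := by
    rw [hu, hui]
    simp only [mul_add, add_mul, mul_assoc, a1, a2, a3, a4, b1, b2, b3, b4, mul_zero, zero_mul,
      mul_one, one_mul, add_zero, zero_add]
    calc _ = x1 * ((x1 * y1 + x2 * y2) * y1) + x2 * y2 := by noncomm_ring
      _ = 1 := by rw [hL.rs, one_mul, hL.rs]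
  have hs : ∀ γ : Γ, (x1 * y1 + x2 * (L γ * y2)) * (x1 * y1 + x2 * (L γ⁻¹ * y2)) = 1 := by
    intro γ
    have c3 : ∀ z, L γ * (L γ⁻¹ * z) = z := fun z => by
      rw [← mul_assoc, ← map_mul, mul_inv_cancel, map_one, one_mul]
    simp only [mul_add, add_mul, mul_assoc, a1, a2, a3, a4, b1, b2, b3, b4, c3, mul_zero, zero_mul,
      mul_one, one_mul, add_zero, zero_add]
    exact hL.rs
  have hs' : ∀ γ : Γ, (x1 * y1 + x2 * (L γ⁻¹ * y2)) * (x1 * y1 + x2 * (L γ * y2)) = 1 := by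
    intro γ
    have := hs γ⁻¹
    rwa [inv_inv] at this
  have hone : (Matrix.diagonal ![(1 : A), 1, 1] : Matrix (Fin 3) (Fin 3) A) = 1 := by
    rw [← Matrix.diagonal_one]
    congr 1
    funext i
    fin_cases i <;> rfl
  have hmem : ∀ γ, ∃ g ∈ E3 A, g.val = Matrix.diagonal ![cc hL L γ, 1, 1] := by
    intro γ
    obtain ⟨g1, hg1, e1⟩ := w01 _ _ (hs γ) (hs' γ)
    obtain ⟨g2, hg2, e2⟩ := w02 _ _ c1 c2
    obtain ⟨g3, hg3, e3⟩ := w01 _ _ (hs' γ) (hs γ)
    obtain ⟨g4, hg4, e4⟩ := w02 _ _ c2 c1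
    refine ⟨g1 * g2 * g3 * g4, mul_mem (mul_mem (mul_mem hg1 hg2) hg3) hg4, ?_⟩
    rw [Units.val_mul, Units.val_mul, Units.val_mul, e1, e2, e3, e4, diag3, diag3, diag3,
      mul_one, mul_one, one_mul, mul_one, hs' γ, c2, hu, hui, cc_comm hL L h1 h2 γ]
  choose g hg hgv using hmem
  refine ⟨{ toFun := fun γ => ⟨g γ, hg γ⟩
            map_one' := ?_
            map_mul' := ?_ }, fun γ => hgv γ⟩
  · apply Subtype.ext
    apply Units.ext
    show (g 1).val = 1
    rw [hgv, map_one, hone]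
  · intro γ δ
    apply Subtype.ext
    apply Units.ext
    show (g (γ * δ)).val = (g γ).val * (g δ).val
    rw [hgv, hgv, hgv, diag3, map_mul, mul_one]

/-- the corner embedding is full if `L γ - 1` is full -/
theorem cc_full (hL : Leav x1 x2 y1 y2) (L : Γ →* A) (γ : Γ) (p q : A)
    (h : p * ((L γ - 1) * q) = 1) :
    (p * (y1 * y2)) * ((cc hL L γ - 1) * (x2 * (x1 * q))) = 1 := by
  have a1 := hL.r11
  have a2 := hL.r22
  have b1 : ∀ z, y1 * (x1 * z) = z := fun z => by rw [← mul_assoc, a1, one_mul]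
  have b2 : ∀ z, y2 * (x2 * z) = z := fun z => by rw [← mul_assoc, a2, one_mul]
  rw [cc_apply, ← h]
  simp only [mul_add, add_mul, mul_sub, sub_mul, mul_assoc, b1, b2, mul_one, one_mul, a1]
  abel

end corner

/-! ### The operators -/

section ops

variable (K : Type) [Field K] {Γ : Type} [Group Γ]

/-- `f` spread on `ℕ × 1` -/
noncomputable def BB (ι : ℕ × Γ → ℕ) : Module.End K (V K Γ) := by
  classical
  exact
  { toFun := fun f n h => if h = 1 ∧ ∃ p, ι p = n then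
      f (Function.invFun ι n).1 (Function.invFun ι n).2 else 0
    map_add' := fun f g => by
      funext n h
      by_cases hh : h = 1 ∧ ∃ p, ι p = n
      · simp only [if_pos hh, Pi.add_apply]
      · simp only [if_neg hh, Pi.add_apply, add_zero]
    map_smul' := fun c f => by
      funext n h
      by_cases hh : h = 1 ∧ ∃ p, ι p = n
      · simp only [if_pos hh, Pi.smul_apply, RingHom.id_apply]
      · simp only [if_neg hh, Pi.smul_apply, smul_zero, RingHom.id_apply] }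

/-- a left inverse up to sign -/
def CC (ι : ℕ × Γ → ℕ) : Module.End K (V K Γ) where
  toFun h := fun n g => - h (ι (n, g)) 1
  map_add' a b := by
    funext n g
    show -(a (ι (n, g)) 1 + b (ι (n, g)) 1) = -a (ι (n, g)) 1 + -b (ι (n, g)) 1
    ring
  map_smul' c a := by
    funext n g
    show -(c * a (ι (n, g)) 1) = c * -a (ι (n, g)) 1
    ring

theorem CB (ι : ℕ × Γ → ℕ) (hι : Function.Injective ι) (γ : Γ) (hγ : γ ≠ 1) :
    CC K ι * ((LL K γ - 1) * BB K ι) = 1 := by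
  classical
  apply LinearMap.ext
  intro f
  funext n g
  show -((BB K ι f) (ι (n, g)) (γ⁻¹ * 1) - (BB K ι f) (ι (n, g)) 1) = f n g
  have e1 : (BB K ι f) (ι (n, g)) (γ⁻¹ * 1) = 0 := by
    unfold BB
    show (if γ⁻¹ * 1 = 1 ∧ ∃ p, ι p = ι (n, g) then _ else (0 : K)) = 0
    rw [if_neg]
    rintro ⟨h, -⟩
    apply hγ
    simpa using h
  have e2 : (BB K ι f) (ι (n, g)) 1 = f n g := by
    unfold BB
    show (if (1 : Γ) = 1 ∧ ∃ p, ι p = ι (n, g) then
      f (Function.invFun ι (ι (n, g))).1 (Function.invFun ι (ι (n, g))).2 else (0 : K)) = f n g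
    rw [if_pos ⟨rfl, _, rfl⟩, Function.leftInverse_invFun hι]
  rw [e1, e2]
  ring

end ops

/-- **UNI, full form** -/
theorem uni_full (Γ : Type) [Group Γ] [Countable Γ] :
    ∃ (F A : Type) (_ : Field F) (_ : Fintype F) (_ : Ring A)
    (_ : Algebra F A) (_ : Nontrivial A) (g : Fin 7 → A), 256 ≤ Fintype.card F ∧
      Leav (g 0) (g 1) (g 2) (g 3) ∧ Algebra.adjoin F (Set.range g) = ⊤ ∧
      ∃ f : Γ →* E3 A, ∀ γ, γ ≠ 1 → ∀ N : Subgroup (E3 A), N.Normal → f γ ∈ N → N = ⊤ := by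
  obtain ⟨δ, hδ⟩ := exists_surjective_nat Γ
  obtain ⟨ι, hι⟩ := exists_injective_nat (ℕ × Γ)
  let F : Type := ZMod 257
  have hF : Fact (Nat.Prime 257) := ⟨by norm_num⟩
  let D : Module.End F (V F Γ) := DD F (fun n => δ (padicValNat 2 (n + 1)))
  let gen : Fin 7 → Module.End F (V F Γ) :=
    ![X0 F Γ, X1 F Γ, Y0 F Γ, Y1 F Γ, D, BB F ι, CC F ι]
  let A : Subalgebra F (Module.End F (V F Γ)) := Algebra.adjoin F (Set.range gen)
  have hg : ∀ i, gen i ∈ A := fun i => Algebra.subset_adjoin ⟨i, rfl⟩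
  have hLA : ∀ γ, LL F γ ∈ A := by
    intro γ
    obtain ⟨k, rfl⟩ := hδ γ
    rw [← LL_eq F δ k]
    exact mul_mem (hg 2) (mul_mem (pow_mem (hg 3) k) (mul_mem (hg 4)
      (mul_mem (pow_mem (hg 1) k) (hg 0))))
  let L : Γ →* A := (LL F (Γ := Γ)).codRestrict A hLA
  have hL : Leav (⟨gen 0, hg 0⟩ : A) ⟨gen 1, hg 1⟩ ⟨gen 2, hg 2⟩ ⟨gen 3, hg 3⟩ := {
    r11 := Subtype.ext (leav F (Γ := Γ)).r11
    r22 := Subtype.ext (leav F (Γ := Γ)).r22
    r12 := Subtype.ext (leav F (Γ := Γ)).r12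
    r21 := Subtype.ext (leav F (Γ := Γ)).r21
    rs := Subtype.ext (leav F (Γ := Γ)).rs }
  refine ⟨F, A, inferInstance, inferInstance, inferInstance, inferInstance, inferInstance,
    fun i => ⟨gen i, hg i⟩, ?_, hL, ?_, ?_⟩
  · show 256 ≤ Fintype.card (ZMod 257)
    rw [ZMod.card]
    norm_num
  · apply Subalgebra.map_injective (f := A.val) Subtype.val_injective
    rw [AlgHom.map_adjoin, ← Set.range_comp, Algebra.map_top, Subalgebra.range_val]
    rfl
  · obtain ⟨f, hf⟩ := exists_hom_val hL L (fun γ => Subtype.ext (LL_X0 F γ))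
      (fun γ => Subtype.ext (LL_X1 F γ))
    refine ⟨f, fun γ hγ N hN hmem => ?_⟩
    have h1 : (⟨gen 6, hg 6⟩ : A) * ((L γ - 1) * ⟨gen 5, hg 5⟩) = 1 :=
      Subtype.ext (CB F ι hι γ hγ)
    exact top_of_diag hN (f γ) hmem _ _ _ (hf γ) (cc_full hL L γ _ _ h1)

end Pool.Agent.Helper28.UI
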