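import Pool.Agent.Helper28.UI.UNorm
import Pool.Agent.Helper28.UI.Gap

/-!
# Singular numbers through subspaces
-/

set_option autoImplicit false
set_option linter.deprecated false

namespace Pool.Agent.Helper28.UI

open Matrix Finset Module
open scoped ComplexOrder Matrix.Norms.L2Operator
open Pool.Agent.W661.RC Pool.Agent.W683.RC

noncomputable section

variable {n : ℕ}

/-- the Hilbert space -/
abbrev EE (n : ℕ) := EuclideanSpace ℂ (Fin n)

/-- the action of matrices on vectors -/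
def ev (M : Mt n) (v : EE n) : EE n := Matrix.toEuclideanCLM (𝕜 := ℂ) M v

theorem ev_mul (M M' : Mt n) (v : EE n) : ev (M * M') v = ev M (ev M' v) := by
  unfold ev
  rw [map_mul]
  rfl

theorem ev_one (v : EE n) : ev (1 : Mt n) v = v := by
  unfold ev
  rw [map_one]
  rfl

theorem ev_add (M M' : Mt n) (v : EE n) : ev (M + M') v = ev M v + ev M' v := by
  unfold ev
  rw [map_add]
  rfl

theorem ev_sub (M M' : Mt n) (v : EE n) : ev (M - M') v = ev M v - ev M' v := by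
  unfold ev
  rw [map_sub]
  rfl

theorem ev_neg (M : Mt n) (v : EE n) : ev (-M) v = -ev M v := by
  unfold ev
  rw [map_neg]
  rfl

theorem ev_zero (v : EE n) : ev (0 : Mt n) v = 0 := by
  unfold ev
  rw [map_zero]
  rfl

theorem ev_vadd (M : Mt n) (v w : EE n) : ev M (v + w) = ev M v + ev M w := map_add _ _ _

theorem ev_vsub (M : Mt n) (v w : EE n) : ev M (v - w) = ev M v - ev M w := map_sub _ _ _

theorem norm_ev_le (M : Mt n) (v : EE n) : ‖ev M v‖ ≤ ‖M‖ * ‖v‖ := by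
  unfold ev
  rw [← Matrix.l2_opNorm_toEuclideanCLM]
  exact ContinuousLinearMap.le_opNorm _ _

theorem norm_le_of_ev {M : Mt n} {c : ℝ} (hc : 0 ≤ c) (h : ∀ v, ‖ev M v‖ ≤ c * ‖v‖) : ‖M‖ ≤ c := by
  rw [← Matrix.l2_opNorm_toEuclideanCLM]
  exact ContinuousLinearMap.opNorm_le_bound _ hc h

theorem ev_inner (M : Mt n) (v w : EE n) : inner ℂ (ev M v) w = inner ℂ v (ev Mᴴ w) := by
  unfold ev
  rw [← Matrix.star_eq_conjTranspose, map_star, ContinuousLinearMap.star_eq_adjoint,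
    ContinuousLinearMap.adjoint_inner_right]

theorem norm_sq_ev (M : Mt n) (v : EE n) : ‖ev M v‖ ^ 2 = (inner ℂ v (ev (Mᴴ * M) v)).re := by
  rw [ev_mul, ← ev_inner]
  exact norm_sq_eq_re_inner (𝕜 := ℂ) _

theorem norm_ev_unit {M : Mt n} (hM : Mᴴ * M = 1) (v : EE n) : ‖ev M v‖ = ‖v‖ := by
  have h := norm_sq_ev M v
  rw [hM, ev_one] at h
  have h2 := norm_sq_eq_re_inner (𝕜 := ℂ) v
  have h3 : ‖ev M v‖ ^ 2 = ‖v‖ ^ 2 := by rw [h, h2]; rfl
  exact (pow_left_inj₀ (norm_nonneg _) (norm_nonneg _) two_ne_zero).1 h3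

theorem norm_ev_u (u : unitaryGroup (Fin n) ℂ) (v : EE n) : ‖ev u.1 v‖ = ‖v‖ :=
  norm_ev_unit (Pool.Agent.H80R2.HG.PSAux.uh u) v

/-! ### Hilbert-Schmidt norms and columns -/

/-- columns -/
def cl (M : Mt n) (j : Fin n) : EE n := WithLp.toLp 2 fun i => M i j

theorem hs_cl (M : Mt n) : hs M = ∑ j, ‖cl M j‖ ^ 2 := by
  unfold hs
  rw [sum_comm]
  refine sum_congr rfl fun j _ => ?_
  rw [EuclideanSpace.norm_sq_eq]
  rfl

theorem cl_mul (M M' : Mt n) (j : Fin n) : cl (M * M') j = ev M (cl M' j) := by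
  unfold cl ev
  rw [Matrix.toEuclideanCLM_toLp]
  rfl

theorem hs_mul_le (M M' : Mt n) : hs (M * M') ≤ ‖M‖ ^ 2 * hs M' := by
  rw [hs_cl, hs_cl, mul_sum]
  refine sum_le_sum fun j _ => ?_
  rw [cl_mul, ← mul_pow]
  exact pow_le_pow_left₀ (norm_nonneg _) (norm_ev_le _ _) 2

theorem hs_mul_le' (M M' : Mt n) : hs (M * M') ≤ hs M * ‖M'‖ ^ 2 := by
  rw [← hs_conjTranspose, Matrix.conjTranspose_mul]
  refine (hs_mul_le _ _).trans ?_
  rw [hs_conjTranspose, ← Matrix.star_eq_conjTranspose, norm_star, mul_comm]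

/-! ### ranks -/

/-- the rank -/
def rk (M : Mt n) : ℕ := finrank ℂ (LinearMap.range (Matrix.toEuclideanLin (𝕜 := ℂ) M))

theorem rk_eq (M : Mt n) : rk M = M.rank := by
  unfold rk
  rw [Matrix.toEuclideanLin_eq_toLin]
  exact (Matrix.rank_eq_finrank_range_toLin M _ _).symm

theorem tr_pr {P : Mt n} (hP : IsPr P) : Matrix.trace P = (rk P : ℂ) := by
  set f := Matrix.toEuclideanLin (𝕜 := ℂ) P with hf
  have h1 : LinearMap.trace ℂ (EE n) f = Matrix.trace P := by
    rw [LinearMap.trace_eq_matrix_trace ℂ (PiLp.basisFun 2 ℂ (Fin n)) f, hf,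
      Matrix.toEuclideanLin_eq_toLin, LinearMap.toMatrix_toLin]
  have h2 : IsIdempotentElem f := by
    show f ∘ₗ f = f
    apply LinearMap.ext
    intro v
    show Matrix.toEuclideanCLM (𝕜 := ℂ) P (Matrix.toEuclideanCLM (𝕜 := ℂ) P v) =
      Matrix.toEuclideanCLM (𝕜 := ℂ) P v
    have := ev_mul P P v
    rw [hP.2] at this
    exact this.symm
  rw [← h1, (LinearMap.IsIdempotentElem.isProj_range f h2).trace]
  rfl

theorem hs_pr {P : Mt n} (hP : IsPr P) : hs P = rk P := by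
  rw [hs_eq_tr, hP.1, hP.2]
  unfold tr
  rw [tr_pr hP]
  simp

theorem ker_big (M : Mt n) : n = finrank ℂ (LinearMap.ker (Matrix.toEuclideanLin (𝕜 := ℂ) M)) +
    rk M := by
  have := LinearMap.finrank_range_add_finrank_ker (Matrix.toEuclideanLin (𝕜 := ℂ) M)
  rw [finrank_euclideanSpace, Fintype.card_fin] at this
  unfold rk
  omega

theorem mem_ker {M : Mt n} {v : EE n} :
    v ∈ LinearMap.ker (Matrix.toEuclideanLin (𝕜 := ℂ) M) ↔ ev M v = 0 := Iff.rfl

theorem inf_big {W W' : Submodule ℂ (EE n)} {c c' : ℕ} (h : n ≤ finrank ℂ W + c)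
    (h' : n ≤ finrank ℂ W' + c') : n ≤ finrank ℂ (W ⊓ W' : Submodule ℂ (EE n)) + (c + c') := by
  have h1 := Submodule.finrank_sup_add_finrank_inf_eq W W'
  have h2 := (W ⊔ W').finrank_le
  rw [finrank_euclideanSpace, Fintype.card_fin] at h2
  omega

/-- finite intersections of large subspaces are large -/
theorem inter_big {ι : Type*} (s : Finset ι) (P : ι → EE n → Prop) (c : ℕ)
    (h : ∀ i ∈ s, ∃ W : Submodule ℂ (EE n), n ≤ finrank ℂ W + c ∧ ∀ v ∈ W, P i v) :
    ∃ W : Submodule ℂ (EE n), n ≤ finrank ℂ W + s.card * c ∧ ∀ v ∈ W, ∀ i ∈ s, P i v := by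
  classical
  induction s using Finset.induction_on with
  | empty =>
    refine ⟨⊤, ?_, fun v _ i hi => absurd hi (notMem_empty i)⟩
    rw [finrank_top, finrank_euclideanSpace, Fintype.card_fin]
    omega
  | insert a s ha ih =>
    obtain ⟨W, hW, h1⟩ := h a (mem_insert_self a s)
    obtain ⟨W', hW', h2⟩ := ih fun i hi => h i (mem_insert_of_mem hi)
    refine ⟨W ⊓ W', ?_, fun v hv i hi => ?_⟩
    · have := inf_big hW hW'
      rw [card_insert_of_notMem ha]
      have e : (s.card + 1) * c = c + s.card * c := by ring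
      rw [e]
      exact this
    · rcases mem_insert.1 hi with rfl | hi
      · exact h1 v hv.1
      · exact h2 v hv.2 i hi

/-! ### the projection onto a subspace -/

/-- the matrix of the orthogonal projection -/
def prj (W : Submodule ℂ (EE n)) : Mt n :=
  (Matrix.toEuclideanCLM (𝕜 := ℂ) (n := Fin n)).symm W.starProjection

theorem tc_inj {A B : Mt n} (h : Matrix.toEuclideanCLM (𝕜 := ℂ) A =
    Matrix.toEuclideanCLM (𝕜 := ℂ) B) : A = B := EquivLike.injective _ h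

theorem tc_prj (W : Submodule ℂ (EE n)) :
    Matrix.toEuclideanCLM (𝕜 := ℂ) (prj W) = W.starProjection := by
  unfold prj
  rw [StarAlgEquiv.apply_symm_apply]

theorem ev_prj (W : Submodule ℂ (EE n)) (v : EE n) : ev (prj W) v = W.starProjection v := by
  unfold ev prj
  rw [StarAlgEquiv.apply_symm_apply]

theorem ev_prj_mem (W : Submodule ℂ (EE n)) (v : EE n) : ev (prj W) v ∈ W := by
  rw [ev_prj]
  exact Submodule.starProjection_apply_mem W v

theorem prj_pr (W : Submodule ℂ (EE n)) : IsPr (prj W) := by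
  have h := isStarProjection_starProjection (U := W)
  constructor
  · apply tc_inj
    rw [← Matrix.star_eq_conjTranspose, map_star, tc_prj, h.isSelfAdjoint.star_eq]
  · apply tc_inj
    rw [map_mul, tc_prj, h.isIdempotentElem.eq]

theorem hs_prj (W : Submodule ℂ (EE n)) {c : ℕ} (h : n ≤ finrank ℂ W + c) :
    hs (1 - prj W) ≤ c := by
  rw [hs_pr (pr_compl (prj_pr W))]
  have h1 : LinearMap.range (Matrix.toEuclideanLin (𝕜 := ℂ) (1 - prj W)) ≤ Wᗮ := by
    rintro _ ⟨v, rfl⟩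
    have e : Matrix.toEuclideanLin (𝕜 := ℂ) (1 - prj W) v = v - W.starProjection v := by
      have := ev_sub 1 (prj W) v
      rw [ev_one, ev_prj] at this
      exact this
    rw [e]
    exact Submodule.sub_starProjection_mem_orthogonal v
  have h2 : rk (1 - prj W) ≤ finrank ℂ Wᗮ := Submodule.finrank_mono h1
  have h3 : finrank ℂ W + finrank ℂ Wᗮ = n := by
    rw [W.finrank_add_finrank_orthogonal, finrank_euclideanSpace, Fintype.card_fin]
  have h4 : rk (1 - prj W) ≤ c := by omega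
  exact_mod_cast h4

/-! ### small matrices -/

/-- `X` has norm at most `t` on a subspace of codimension at most `c` -/
def Sm (X : Mt n) (c : ℕ) (t : ℝ) : Prop :=
  ∃ W : Submodule ℂ (EE n), n ≤ finrank ℂ W + c ∧ ∀ v ∈ W, ‖ev X v‖ ≤ t * ‖v‖

theorem norm_pr_le {P : Mt n} (hP : IsPr P) : ‖P‖ ≤ 1 := by
  have h : ‖P‖ * ‖P‖ = ‖P‖ := by
    have := CStarRing.norm_star_mul_self (x := P)
    rw [Matrix.star_eq_conjTranspose, hP.1, hP.2] at this
    exact this.symm
  nlinarith [norm_nonneg P]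

theorem norm_u_le (u : unitaryGroup (Fin n) ℂ) : ‖u.1‖ ≤ 1 :=
  norm_le_of_ev zero_le_one fun v => by rw [norm_ev_u, one_mul]

theorem Sm.norm_mul_prj {X : Mt n} {W : Submodule ℂ (EE n)} {t : ℝ} (ht : 0 ≤ t)
    (h : ∀ v ∈ W, ‖ev X v‖ ≤ t * ‖v‖) : ‖X * prj W‖ ≤ t := by
  apply norm_le_of_ev ht
  intro v
  rw [ev_mul]
  refine (h _ (ev_prj_mem W v)).trans (mul_le_mul_of_nonneg_left ?_ ht)
  have := norm_ev_le (prj W) v
  have h2 := norm_pr_le (prj_pr W)
  nlinarith [norm_nonneg v]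

theorem Sm.hs_le {X : Mt n} {c : ℕ} {t : ℝ} (ht : 0 ≤ t) (h : Sm X c t) (hX : ‖X‖ ≤ 2) {y : Mt n}
    (hy : ‖y‖ ≤ 1) : hs (X * y) ≤ 8 * c + 2 * (t ^ 2 * hs y) ∧
      hs (y * X) ≤ 8 * c + 2 * (t ^ 2 * hs y) := by
  obtain ⟨W, hW, h⟩ := h
  have h1 := Sm.norm_mul_prj ht h
  have h2 := hs_prj W hW
  set P := prj W with hP
  have h0 := hs_nonneg (1 - P)
  have hX2 : ‖X‖ ^ 2 ≤ 4 := by nlinarith [norm_nonneg X]
  have hy2 : ‖y‖ ^ 2 ≤ 1 := by nlinarith [norm_nonneg y]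
  have hXP : ‖X * P‖ ^ 2 ≤ t ^ 2 := pow_le_pow_left₀ (norm_nonneg _) h1 2
  constructor
  · have e : X * y = X * P * y + X * ((1 - P) * y) := by noncomm_ring
    rw [e]
    refine (hs_add_le _ _).trans ?_
    have h3 : hs (X * P * y) ≤ t ^ 2 * hs y :=
      (hs_mul_le _ _).trans (mul_le_mul_of_nonneg_right hXP (hs_nonneg _))
    have h4 : hs (X * ((1 - P) * y)) ≤ 4 * c := by
      refine (hs_mul_le _ _).trans ?_
      have h5 : hs ((1 - P) * y) ≤ c := by
        refine (hs_mul_le' _ _).trans ?_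
        nlinarith
      nlinarith [hs_nonneg ((1 - P) * y), sq_nonneg ‖X‖]
    linarith
  · have e : y * X = y * (X * P) + y * X * (1 - P) := by noncomm_ring
    rw [e]
    refine (hs_add_le _ _).trans ?_
    have h3 : hs (y * (X * P)) ≤ t ^ 2 * hs y := by
      refine (hs_mul_le' _ _).trans ?_
      rw [mul_comm]
      exact mul_le_mul_of_nonneg_right hXP (hs_nonneg _)
    have h4 : hs (y * X * (1 - P)) ≤ 4 * c := by
      refine (hs_mul_le _ _).trans ?_
      have h5 : ‖y * X‖ ≤ 2 := by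
        refine (norm_mul_le _ _).trans ?_
        nlinarith [norm_nonneg y, norm_nonneg X]
      have h6 : ‖y * X‖ ^ 2 ≤ 4 := by nlinarith [norm_nonneg (y * X)]
      nlinarith
    linarith

theorem Sm.add {X Y : Mt n} {c c' : ℕ} {t t' : ℝ} (h : Sm X c t) (h' : Sm Y c' t') :
    Sm (X + Y) (c + c') (t + t') := by
  obtain ⟨W, hW, h⟩ := h
  obtain ⟨W', hW', h'⟩ := h'
  refine ⟨W ⊓ W', inf_big hW hW', fun v hv => ?_⟩
  rw [ev_add, add_mul]
  exact (norm_add_le _ _).trans (add_le_add (h v hv.1) (h' v hv.2))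

theorem Sm.left {X : Mt n} {c : ℕ} {t : ℝ} (h : Sm X c t) (u : unitaryGroup (Fin n) ℂ) :
    Sm (u.1 * X) c t := by
  obtain ⟨W, hW, h⟩ := h
  refine ⟨W, hW, fun v hv => ?_⟩
  rw [ev_mul, norm_ev_u]
  exact h v hv

theorem Sm.right {X : Mt n} {c : ℕ} {t : ℝ} (h : Sm X c t) (u : unitaryGroup (Fin n) ℂ) :
    Sm (X * u.1) c t := by
  obtain ⟨W, hW, h⟩ := h
  refine ⟨W.map (Matrix.toEuclideanLin (𝕜 := ℂ) u.1ᴴ), ?_, ?_⟩
  · have hinj : Function.Injective (Matrix.toEuclideanLin (𝕜 := ℂ) u.1ᴴ) := by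
      intro v w hvw
      have h1 : ev u.1ᴴ v = ev u.1ᴴ w := hvw
      have h2 := congrArg (ev u.1) h1
      rw [← ev_mul, ← ev_mul, Pool.Agent.H80R2.HG.PSAux.hu, ev_one, ev_one] at h2
      exact h2
    have h3 := (Submodule.equivMapOfInjective _ hinj W).finrank_eq
    rw [← h3]
    exact hW
  · rintro _ ⟨v, hv, rfl⟩
    have e : Matrix.toEuclideanLin (𝕜 := ℂ) u.1ᴴ v = ev u.1ᴴ v := rfl
    rw [e, ev_mul, ← ev_mul u.1, Pool.Agent.H80R2.HG.PSAux.hu, ev_one,
      norm_ev_unit (M := u.1ᴴ) (by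
        rw [Matrix.conjTranspose_conjTranspose]
        exact Pool.Agent.H80R2.HG.PSAux.hu u)]
    exact h v hv

theorem Sm.mono {X : Mt n} {c c' : ℕ} {t t' : ℝ} (h : Sm X c t) (hc : c ≤ c') (ht : t ≤ t') :
    Sm X c' t' := by
  obtain ⟨W, hW, h⟩ := h
  exact ⟨W, by omega, fun v hv => (h v hv).trans (mul_le_mul_of_nonneg_right ht (norm_nonneg _))⟩

theorem Sm.zero : Sm (0 : Mt n) 0 0 := by
  refine ⟨⊤, ?_, fun v _ => ?_⟩
  · rw [finrank_top, finrank_euclideanSpace, Fintype.card_fin]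
    omega
  · rw [ev_zero, norm_zero, zero_mul]

end

end Pool.Agent.Helper28.UI
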