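import Pool.Agent.Helper28.UI.Defs
import Pool.Graph.R_seed8.H80R2.HG.PS
import Pool.Graph.R_pool_sql_team_seeded_63374d34.N303.KQ.Pol

/-!
# Unitarily invariant seminorms: averaging
-/

set_option autoImplicit false

namespace Pool.Agent.Helper28.UI

open Matrix Finset
open scoped ComplexOrder
open Pool.Agent.W661.RC Pool.Agent.W683.RC
open Pool.Agent.H80R2.HG Pool.Agent.H80R2.HG.PSAux

noncomputable section

variable {d : ℕ} {N : Seminorm ℂ (Mt d)}

theorem UnitarilyInvariant.left (hN : UnitarilyInvariant N) (u : unitaryGroup (Fin d) ℂ)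
    (x : Mt d) : N (u.1 * x) = N x := by
  have := hN u 1 x
  rwa [OneMemClass.coe_one, Matrix.mul_one] at this

theorem UnitarilyInvariant.right (hN : UnitarilyInvariant N) (u : unitaryGroup (Fin d) ℂ)
    (x : Mt d) : N (x * u.1) = N x := by
  have := hN 1 u x
  rwa [OneMemClass.coe_one, Matrix.one_mul] at this

/-- average of two unitary matrices -/
theorem UnitarilyInvariant.avg (hN : UnitarilyInvariant N) (u v : unitaryGroup (Fin d) ℂ)
    (b x : Mt d) (hb : b = (1 / 2 : ℂ) • (u.1 + v.1)) : N (b * x) ≤ N x := by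
  rw [hb, Matrix.smul_mul, Matrix.add_mul, map_smul_eq_mul]
  have h1 := map_add_le_add N (u.1 * x) (v.1 * x)
  rw [hN.left, hN.left] at h1
  have h2 : ‖(1 / 2 : ℂ)‖ = 1 / 2 := by norm_num
  rw [h2]
  linarith

/-- `2 Q - 1` is unitary for a projection `Q` -/
def refl (Q : Mt d) (hQ : IsPr Q) : unitaryGroup (Fin d) ℂ :=
  ⟨(2 : ℂ) • Q - 1, by
    rw [mem_unitaryGroup_iff, Matrix.star_eq_conjTranspose, Matrix.conjTranspose_sub,
      Matrix.conjTranspose_smul, Matrix.conjTranspose_one, hQ.1]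
    have h2 : star (2 : ℂ) = 2 := by simp
    rw [h2, Matrix.sub_mul, Matrix.mul_sub, Matrix.smul_mul, Matrix.mul_smul, hQ.2, smul_smul,
      Matrix.mul_one, Matrix.one_mul]
    have h4 : ((2 : ℂ) * 2) • Q = (2 : ℂ) • Q + (2 : ℂ) • Q := by rw [← add_smul]; norm_num
    rw [h4]
    abel⟩

theorem refl_val (Q : Mt d) (hQ : IsPr Q) : (refl Q hQ).1 = (2 : ℂ) • Q - 1 := rfl

theorem UnitarilyInvariant.proj (hN : UnitarilyInvariant N) {Q : Mt d} (hQ : IsPr Q) (x : Mt d) :
    N (Q * x) ≤ N x := by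
  refine hN.avg 1 (refl Q hQ) Q x ?_
  rw [refl_val, OneMemClass.coe_one, add_sub_cancel, smul_smul]
  norm_num

theorem conjD_add (V : unitaryGroup (Fin d) ℂ) (a b : Fin d → ℂ) :
    (V : Mt d) * diagonal a * (V : Mt d)ᴴ + (V : Mt d) * diagonal b * (V : Mt d)ᴴ =
      (V : Mt d) * diagonal (fun i => a i + b i) * (V : Mt d)ᴴ := by
  rw [← Matrix.add_mul, ← Matrix.mul_add, diagonal_add]

/-- a unitary matrix with given eigenvectors and eigenvalues of modulus one -/
def mkU (V : unitaryGroup (Fin d) ℂ) (a : Fin d → ℂ) (ha : ∀ i, a i * star (a i) = 1) :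
    unitaryGroup (Fin d) ℂ :=
  ⟨(V : Mt d) * diagonal a * (V : Mt d)ᴴ, by
    rw [mem_unitaryGroup_iff, Matrix.star_eq_conjTranspose, Matrix.conjTranspose_mul,
      Matrix.conjTranspose_mul, Matrix.conjTranspose_conjTranspose, diagonal_conjTranspose]
    calc (V : Mt d) * diagonal a * (V : Mt d)ᴴ * ((V : Mt d) * (diagonal (star a) * (V : Mt d)ᴴ))
        = (V : Mt d) * (diagonal a * ((V : Mt d)ᴴ * (V : Mt d)) * diagonal (star a)) * (V : Mt d)ᴴ := by
          simp only [Matrix.mul_assoc]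
      _ = (V : Mt d) * (1 : Mt d) * (V : Mt d)ᴴ := by
          rw [uh, Matrix.mul_one, diagonal_mul_diagonal]
          congr 2
          rw [← diagonal_one]
          congr 1
          funext i
          exact ha i
      _ = 1 := by rw [Matrix.mul_one, hu]⟩

theorem mkU_val (V : unitaryGroup (Fin d) ℂ) (a : Fin d → ℂ) (ha : ∀ i, a i * star (a i) = 1) :
    (mkU V a ha).1 = (V : Mt d) * diagonal a * (V : Mt d)ᴴ := rfl

/-- a contraction is the average of two unitary matrices -/
theorem contr_avg (b : Mt d) (hb : Le (bᴴ * b) 1) :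
    ∃ u v : unitaryGroup (Fin d) ℂ, b = (1 / 2 : ℂ) • (u.1 + v.1) := by
  obtain ⟨w, P, hP, hW, hPP⟩ := polar b
  have hP1 : Le P 1 := Pool.Agent.N303.KQ.le_one_of_sq hP (by rw [hPP]; exact hb)
  have h1 := herm_eq P hP.1
  set V := hP.1.eigenvectorUnitary
  set lam := hP.1.eigenvalues with hlam
  have h0 : ∀ i, 0 ≤ lam i := fun i => hP.eigenvalues_nonneg i
  have h4 : ∀ i, lam i ≤ 1 := by
    intro i
    have h2 : (1 - P).PosSemidef := hP1
    have h3 : (V : Mt d)ᴴ * (1 - P) * (V : Mt d) = 1 - diagonal (fun i => (lam i : ℂ)) := by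
      rw [Matrix.mul_sub, Matrix.sub_mul, Matrix.mul_one, uh V, h1]
      unfold conjD
      congr 1
      calc (V : Mt d)ᴴ * ((V : Mt d) * diagonal (fun i => (lam i : ℂ)) * (V : Mt d)ᴴ) * (V : Mt d)
          = ((V : Mt d)ᴴ * (V : Mt d)) * diagonal (fun i => (lam i : ℂ)) *
            ((V : Mt d)ᴴ * (V : Mt d)) := by simp only [Matrix.mul_assoc]
        _ = _ := by rw [uh V, Matrix.one_mul, Matrix.mul_one]
    have h5 := diag_nonneg V _ h2 i
    rw [h3, Matrix.sub_apply, Matrix.one_apply_eq, diagonal_apply_eq] at h5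
    have h6 : (0 : ℂ) ≤ ((1 - lam i : ℝ) : ℂ) := by
      push_cast
      exact h5
    have h7 : 0 ≤ 1 - lam i := by exact_mod_cast h6
    linarith
  have hsq : ∀ i, (lam i) ^ 2 + √(1 - (lam i) ^ 2) ^ 2 = 1 := by
    intro i
    rw [Real.sq_sqrt (by nlinarith [h0 i, h4 i])]
    ring
  have hmod : ∀ (i : Fin d) (σ : ℝ), σ ^ 2 = 1 →
      ((lam i : ℂ) + σ * (√(1 - (lam i) ^ 2) : ℝ) * Complex.I) *
        star ((lam i : ℂ) + σ * (√(1 - (lam i) ^ 2) : ℝ) * Complex.I) = 1 := by
    intro i σ hσ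
    rw [Complex.star_def, map_add, map_mul, map_mul, Complex.conj_ofReal, Complex.conj_ofReal,
      Complex.conj_ofReal, Complex.conj_I]
    have h := hsq i
    have h' : ((lam i : ℂ)) ^ 2 + ((√(1 - (lam i) ^ 2) : ℝ) : ℂ) ^ 2 = 1 := by exact_mod_cast h
    have hσ' : (σ : ℂ) ^ 2 = 1 := by exact_mod_cast hσ
    have hI := Complex.I_sq
    linear_combination h' + ((√(1 - (lam i) ^ 2) : ℝ) : ℂ) ^ 2 * hσ' -
      (σ : ℂ) ^ 2 * ((√(1 - (lam i) ^ 2) : ℝ) : ℂ) ^ 2 * hI
  refine ⟨w * mkU V (fun i => (lam i : ℂ) + (1 : ℝ) * (√(1 - (lam i) ^ 2) : ℝ) * Complex.I)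
      (fun i => hmod i 1 (by norm_num)),
    w * mkU V (fun i => (lam i : ℂ) + (-1 : ℝ) * (√(1 - (lam i) ^ 2) : ℝ) * Complex.I)
      (fun i => hmod i (-1) (by norm_num)), ?_⟩
  rw [UnitaryGroup.mul_val, UnitaryGroup.mul_val, mkU_val, mkU_val, ← Matrix.mul_add, conjD_add, hW,
    ← Matrix.mul_smul]
  congr 1
  rw [h1]
  unfold conjD
  rw [← Matrix.smul_mul, ← Matrix.mul_smul]
  congr 2
  ext i j
  by_cases h : i = j
  · subst h
    rw [Matrix.smul_apply, diagonal_apply_eq, diagonal_apply_eq]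
    push_cast
    simp only [smul_eq_mul]
    ring
  · rw [Matrix.smul_apply, diagonal_apply_ne _ h, diagonal_apply_ne _ h]
    simp

theorem UnitarilyInvariant.contr (hN : UnitarilyInvariant N) {b : Mt d} (hb : Le (bᴴ * b) 1)
    (x : Mt d) : N (b * x) ≤ N x := by
  obtain ⟨u, v, h⟩ := contr_avg b hb
  exact hN.avg u v b x h

/-- `N (a x) ≤ κ N (x)` if the operator norm of `a` is at most `κ` -/
theorem UnitarilyInvariant.mul_le (hN : UnitarilyInvariant N) {a : Mt d} {κ : ℝ} (hκ : 0 < κ)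
    (ha : Le (aᴴ * a) (((κ ^ 2 : ℝ) : ℂ) • 1)) (x : Mt d) : N (a * x) ≤ κ * N x := by
  set b : Mt d := ((κ⁻¹ : ℝ) : ℂ) • a with hb
  have h1 : Le (bᴴ * b) 1 := by
    have h2 := Le_smul ha (c := κ⁻¹ ^ 2) (by positivity)
    have e1 : (((κ⁻¹ ^ 2 : ℝ)) : ℂ) • ((((κ ^ 2 : ℝ) : ℂ)) • (1 : Mt d)) = 1 := by
      rw [smul_smul, ← Complex.ofReal_mul]
      have : κ⁻¹ ^ 2 * κ ^ 2 = 1 := by field_simp
      rw [this, Complex.ofReal_one, one_smul]
    have e2 : bᴴ * b = (((κ⁻¹ ^ 2 : ℝ)) : ℂ) • (aᴴ * a) := by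
      rw [hb, Matrix.conjTranspose_smul, Matrix.smul_mul, Matrix.mul_smul, smul_smul,
        Complex.star_def, Complex.conj_ofReal, ← Complex.ofReal_mul, ← sq]
    rw [e1] at h2
    rw [e2]
    exact h2
  have h3 := hN.contr h1 x
  have h4 : a * x = ((κ : ℝ) : ℂ) • (b * x) := by
    rw [hb, Matrix.smul_mul, smul_smul, ← Complex.ofReal_mul, mul_inv_cancel₀ hκ.ne',
      Complex.ofReal_one, one_smul]
  rw [h4, map_smul_eq_mul, Complex.norm_real, Real.norm_of_nonneg hκ.le]
  exact mul_le_mul_of_nonneg_left h3 hκ.le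

/-! ### the trace inequality -/

/-- sum over a nonempty finite set of a seminorm -/
theorem seminorm_sum_le {ι : Type*} (s : Finset ι) (f : ι → Mt d) (c : ℝ)
    (h : ∀ i ∈ s, N (f i) ≤ c) : N (∑ i ∈ s, f i) ≤ s.card * c := by
  classical
  induction s using Finset.induction_on with
  | empty => simp
  | insert a s ha ih =>
    rw [Finset.sum_insert ha, Finset.card_insert_of_notMem ha]
    have h1 := map_add_le_add N (f a) (∑ i ∈ s, f i)
    have h2 := ih fun i hi => h i (Finset.mem_insert_of_mem hi)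
    have h3 := h a (Finset.mem_insert_self a s)
    push_cast
    linarith

/-- signs -/
def sg (b : Bool) : ℂ := if b then 1 else -1

theorem sg_mul_self (b : Bool) : sg b * sg b = 1 := by
  cases b <;> simp [sg]

theorem star_sg (b : Bool) : star (sg b) = sg b := by
  cases b <;> simp [sg]

theorem sg_not (b : Bool) : sg (!b) = -sg b := by
  cases b <;> simp [sg]

theorem sum_sign' (i i' : Fin d) (h : i ≠ i') : ∑ ε : Fin d → Bool, sg (ε i) * sg (ε i') = 0 := by
  classical
  let e : (Fin d → Bool) ≃ (Fin d → Bool) :=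
    { toFun := fun ε => Function.update ε i (!ε i)
      invFun := fun ε => Function.update ε i (!ε i)
      left_inv := fun ε => by simp
      right_inv := fun ε => by simp }
  have h1 : ∑ ε : Fin d → Bool, sg (ε i) * sg (ε i') =
      ∑ ε : Fin d → Bool, sg ((e ε) i) * sg ((e ε) i') :=
    (Equiv.sum_comp e fun ε => sg (ε i) * sg (ε i')).symm
  have h2 : ∀ ε : Fin d → Bool, sg ((e ε) i) * sg ((e ε) i') = -(sg (ε i) * sg (ε i')) := by
    intro ε
    show sg (Function.update ε i (!ε i) i) * sg (Function.update ε i (!ε i) i') = _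
    rw [Function.update_self, Function.update_of_ne h.symm, sg_not]
    ring
  simp only [h2, sum_neg_distrib] at h1
  have h3 : (2 : ℂ) * ∑ ε : Fin d → Bool, sg (ε i) * sg (ε i') = 0 := by
    linear_combination h1
  simpa using h3

/-- diagonal sign matrices -/
def sgU (ε : Fin d → Bool) : unitaryGroup (Fin d) ℂ :=
  ⟨diagonal fun i => sg (ε i), by
    rw [mem_unitaryGroup_iff, Matrix.star_eq_conjTranspose, diagonal_conjTranspose,
      diagonal_mul_diagonal, ← diagonal_one]
    congr 1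
    funext i
    rw [Pi.star_apply, star_sg, sg_mul_self]⟩

/-- the diagonal part -/
theorem UnitarilyInvariant.diag_le (hN : UnitarilyInvariant N) (y : Mt d) :
    N (diagonal fun i => y i i) ≤ N y := by
  classical
  have h1 : ∑ ε : Fin d → Bool, (sgU ε).1 * y * (sgU ε).1 =
      ((Fintype.card (Fin d → Bool) : ℕ) : ℂ) • diagonal (fun i => y i i) := by
    ext i j
    rw [Matrix.sum_apply, Matrix.smul_apply]
    have h2 : ∀ ε : Fin d → Bool, ((sgU ε).1 * y * (sgU ε).1) i j = (sg (ε i) * sg (ε j)) * y i j := by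
      intro ε
      show (diagonal (fun i => sg (ε i)) * y * diagonal fun i => sg (ε i)) i j = _
      rw [mul_diagonal, diagonal_mul]
      ring
    rw [sum_congr rfl fun ε _ => h2 ε, ← sum_mul]
    by_cases h : i = j
    · subst h
      rw [diagonal_apply_eq]
      simp only [sg_mul_self, sum_const, card_univ, nsmul_eq_mul, mul_one, smul_eq_mul]
    · rw [sum_sign' i j h, diagonal_apply_ne _ h, zero_mul, smul_zero]
  have h3 := seminorm_sum_le (N := N) univ (fun ε : Fin d → Bool => (sgU ε).1 * y * (sgU ε).1) (N y)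
    fun ε _ => (hN _ _ _).le
  rw [h1, map_smul_eq_mul, card_univ] at h3
  have h4 : (0 : ℝ) < Fintype.card (Fin d → Bool) := by exact_mod_cast Fintype.card_pos
  have h5 : ‖((Fintype.card (Fin d → Bool) : ℕ) : ℂ)‖ = (Fintype.card (Fin d → Bool) : ℝ) := by
    rw [Complex.norm_natCast]
  rw [h5] at h3
  exact le_of_mul_le_mul_left h3 h4

/-- permutation matrices -/
def pmU (τ : Equiv.Perm (Fin d)) : unitaryGroup (Fin d) ℂ :=
  ⟨fun i j => if τ i = j then 1 else 0, by
    rw [mem_unitaryGroup_iff, Matrix.star_eq_conjTranspose]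
    ext i j
    rw [Matrix.mul_apply]
    simp only [conjTranspose_apply]
    rw [sum_eq_single (τ i)]
    · rw [Matrix.one_apply]
      by_cases h : i = j
      · subst h; simp
      · have h2 : ¬ τ j = τ i := fun h3 => h (τ.injective h3).symm
        simp [h, h2]
    · intro k _ hk
      rw [if_neg (Ne.symm hk), zero_mul]
    · intro h; exact absurd (mem_univ _) h⟩

theorem UnitarilyInvariant.perm (hN : UnitarilyInvariant N) (τ : Equiv.Perm (Fin d))
    (a : Fin d → ℂ) : N (diagonal fun i => a (τ i)) = N (diagonal a) := by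
  have h1 : (diagonal fun i => a (τ i) : Mt d) = (pmU τ).1 * diagonal a * ((pmU τ)⁻¹).1 := by
    have h2 : (pmU τ).1 * diagonal a = (diagonal fun i => a (τ i)) * (pmU τ).1 := by
      ext i j
      rw [mul_diagonal, diagonal_mul]
      show (if τ i = j then (1 : ℂ) else 0) * a j = a (τ i) * (if τ i = j then (1 : ℂ) else 0)
      by_cases h : τ i = j
      · rw [if_pos h, h]; ring
      · rw [if_neg h]; ring
    rw [h2, Matrix.mul_assoc]
    have h3 : (pmU τ).1 * ((pmU τ)⁻¹).1 = 1 := by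
      rw [← UnitaryGroup.mul_val, mul_inv_cancel]; rfl
    rw [h3, Matrix.mul_one]
  rw [h1, hN]

/-- averaging over a subset of the diagonal -/
theorem UnitarilyInvariant.mean_le (hN : UnitarilyInvariant N) (S : Finset (Fin d))
    (a : Fin d → ℂ) (ha : ∀ i ∉ S, a i = 0) :
    N ((∑ i ∈ S, a i) • diagonal (fun i => if i ∈ S then (1 : ℂ) else 0)) ≤
      S.card * N (diagonal a) := by
  classical
  rcases S.eq_empty_or_nonempty with hS | hS
  · subst hS
    simp
  · obtain ⟨r, hr⟩ : ∃ r, S.card = r + 1 := ⟨S.card - 1, by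
      have := Finset.card_pos.2 hS; omega⟩
    let e : {i // i ∈ S} ≃ Fin (r + 1) := (S.equivFin).trans (finCongr hr)
    let τ : Fin (r + 1) → Equiv.Perm (Fin d) := fun j =>
      Equiv.Perm.ofSubtype (p := fun i => i ∈ S) (e.symm.permCongr (Equiv.addRight j))
    have hτ : ∀ (j : Fin (r + 1)) (i : Fin d) (hi : i ∈ S),
        τ j i = (e.symm (e ⟨i, hi⟩ + j)).1 := by
      intro j i hi
      show (Equiv.Perm.ofSubtype (e.symm.permCongr (Equiv.addRight j))) i = _
      rw [Equiv.Perm.ofSubtype_apply_of_mem _ hi]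
      rfl
    have hτ' : ∀ (j : Fin (r + 1)) (i : Fin d), i ∉ S → τ j i = i := by
      intro j i hi
      exact Equiv.Perm.ofSubtype_apply_of_not_mem _ hi
    have h1 : ∑ j : Fin (r + 1), (diagonal fun i => a (τ j i) : Mt d) =
        (∑ i ∈ S, a i) • diagonal (fun i => if i ∈ S then (1 : ℂ) else 0) := by
      ext i l
      rw [Matrix.sum_apply, Matrix.smul_apply]
      by_cases hil : i = l
      · subst hil
        simp only [diagonal_apply_eq]
        by_cases hi : i ∈ S
        · rw [if_pos hi, smul_eq_mul, mul_one]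
          simp only [hτ _ i hi]
          have h2 : ∑ j : Fin (r + 1), a (e.symm (e ⟨i, hi⟩ + j)).1 =
              ∑ t : Fin (r + 1), a (e.symm t).1 :=
            Equiv.sum_comp (Equiv.addLeft (e ⟨i, hi⟩)) (fun t => a (e.symm t).1)
          rw [h2, Equiv.sum_comp e.symm (fun x : {i // i ∈ S} => a x.1)]
          exact Finset.sum_coe_sort S a
        · rw [if_neg hi, smul_zero]
          refine sum_eq_zero fun j _ => ?_
          rw [hτ' j i hi, ha i hi]
      · simp only [diagonal_apply_ne _ hil, sum_const_zero, smul_zero]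
    rw [← h1]
    have h3 := seminorm_sum_le (N := N) univ (fun j : Fin (r + 1) => (diagonal fun i => a (τ j i) : Mt d))
      (N (diagonal a)) fun j _ => (hN.perm _ _).le
    rw [card_univ, Fintype.card_fin] at h3
    rw [hr]
    exact h3

/-- **The trace inequality.** -/
theorem UnitarilyInvariant.trace_le (hN : UnitarilyInvariant N) {Q : Mt d} (hQ : IsPr Q)
    (z : Mt d) : |tr (Q * z)| * N Q ≤ tr Q * N z := by
  classical
  have h1 := herm_eq Q hQ.1
  set V := (show Q.IsHermitian from hQ.1).eigenvectorUnitary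
  set lam := (show Q.IsHermitian from hQ.1).eigenvalues with hlam
  -- the eigenvalues are 0 and 1
  have hl : ∀ i, lam i * lam i = lam i := by
    intro i
    have h2 : conjD V (fun i => lam i * lam i) = conjD V lam := by
      rw [← conjD_mul]
      have h3 : Q * Q = Q := hQ.2
      rw [h1] at h3
      exact h3
    have h4 := congrArg (fun X : Mt d => (V : Mt d)ᴴ * X * (V : Mt d)) h2
    have h5 : ∀ e : Fin d → ℝ, (V : Mt d)ᴴ * conjD V e * (V : Mt d) =
        diagonal fun i => (e i : ℂ) := by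
      intro e
      unfold conjD
      calc (V : Mt d)ᴴ * ((V : Mt d) * diagonal (fun i => (e i : ℂ)) * (V : Mt d)ᴴ) * (V : Mt d)
          = ((V : Mt d)ᴴ * (V : Mt d)) * diagonal (fun i => (e i : ℂ)) *
            ((V : Mt d)ᴴ * (V : Mt d)) := by simp only [Matrix.mul_assoc]
        _ = _ := by rw [uh V, Matrix.one_mul, Matrix.mul_one]
    simp only [h5] at h4
    have h6 := congrFun (congrFun h4 i) i
    rw [diagonal_apply_eq, diagonal_apply_eq] at h6
    exact_mod_cast h6
  set S : Finset (Fin d) := univ.filter fun i => lam i = 1 with hS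
  have hlS : ∀ i, (lam i : ℂ) = if i ∈ S then 1 else 0 := by
    intro i
    by_cases h : lam i = 1
    · rw [if_pos (by rw [hS, mem_filter]; exact ⟨mem_univ _, h⟩), h]; simp
    · rw [if_neg (by rw [hS, mem_filter]; exact fun h' => h h'.2)]
      have h2 : lam i * (lam i - 1) = 0 := by rw [mul_sub, hl, mul_one, sub_self]
      rcases mul_eq_zero.1 h2 with h3 | h3
      · rw [h3]; simp
      · exact absurd (sub_eq_zero.1 h3) h
  have hQe : Q = (V : Mt d) * diagonal (fun i => if i ∈ S then (1 : ℂ) else 0) * (V : Mt d)ᴴ := by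
    have h2 : Q = (V : Mt d) * diagonal (fun i => (lam i : ℂ)) * (V : Mt d)ᴴ := h1
    rw [h2]
    congr 2
    congr 1
    funext i
    exact hlS i
  set y : Mt d := (V : Mt d)ᴴ * z * (V : Mt d) with hy
  have hNy : N y = N z := by
    have := hN V⁻¹ V z
    rw [UnitaryGroup.inv_val, Matrix.star_eq_conjTranspose] at this
    exact this
  have hNQ : N Q = N (diagonal (fun i => if i ∈ S then (1 : ℂ) else 0)) := by
    rw [hQe]
    have := hN V V⁻¹ (diagonal (fun i => if i ∈ S then (1 : ℂ) else 0))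
    rw [UnitaryGroup.inv_val, Matrix.star_eq_conjTranspose] at this
    exact this
  have htr : Matrix.trace (Q * z) = ∑ i ∈ S, y i i := by
    have e1 : Matrix.trace (Q * z) =
        Matrix.trace (diagonal (fun i => if i ∈ S then (1 : ℂ) else 0) * y) := by
      rw [hQe, hy]
      rw [Matrix.mul_assoc, Matrix.mul_assoc, Matrix.trace_mul_comm (V : Mt d)]
      simp only [Matrix.mul_assoc]
    rw [e1, Matrix.trace]
    simp only [diag_apply, diagonal_mul]
    rw [← Finset.sum_filter_add_sum_filter_not univ (fun i => i ∈ S)]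
    rw [Finset.sum_congr (s₂ := S) (by ext i; simp) (g := fun i => y i i) (by
      intro i hi; rw [if_pos hi, one_mul])]
    rw [Finset.sum_eq_zero (s := univ.filter fun i => i ∉ S) (by
      intro i hi; rw [if_neg (mem_filter.1 hi).2, zero_mul]), add_zero]
  have htrQ : tr Q = S.card := by
    unfold tr
    have e1 : Matrix.trace Q = (S.card : ℂ) := by
      rw [hQe, Matrix.trace_mul_comm, ← Matrix.mul_assoc, uh, Matrix.one_mul, Matrix.trace]
      simp
    rw [e1]
    simp
  -- the averaged matrix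
  have h7 : N (diagonal fun i => if i ∈ S then y i i else 0) ≤ N y := by
    have e1 : (diagonal fun i => if i ∈ S then y i i else 0 : Mt d) =
        diagonal (fun i => if i ∈ S then (1 : ℂ) else 0) * diagonal (fun i => y i i) := by
      rw [diagonal_mul_diagonal]
      congr 1
      funext i
      split_ifs <;> simp
    rw [e1]
    refine (hN.proj ⟨?_, ?_⟩ _).trans (hN.diag_le y)
    · rw [diagonal_conjTranspose]
      congr 1
      funext i
      rw [Pi.star_apply]
      split_ifs <;> simp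
    · rw [diagonal_mul_diagonal]
      congr 1
      funext i
      split_ifs <;> simp
  have h8 := hN.mean_le S (fun i => if i ∈ S then y i i else 0) (fun i hi => if_neg hi)
  rw [map_smul_eq_mul, ← hNQ] at h8
  have e2 : ∑ i ∈ S, (if i ∈ S then y i i else 0) = Matrix.trace (Q * z) := by
    rw [htr]
    exact Finset.sum_congr rfl fun i hi => if_pos hi
  rw [e2] at h8
  have h9 : |tr (Q * z)| ≤ ‖Matrix.trace (Q * z)‖ := Complex.abs_re_le_norm _
  have h10 : (0 : ℝ) ≤ N Q := apply_nonneg N Q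
  calc |tr (Q * z)| * N Q ≤ ‖Matrix.trace (Q * z)‖ * N Q := mul_le_mul_of_nonneg_right h9 h10
    _ ≤ S.card * N (diagonal fun i => if i ∈ S then y i i else 0) := h8
    _ ≤ S.card * N y := mul_le_mul_of_nonneg_left h7 (Nat.cast_nonneg _)
    _ = tr Q * N z := by rw [htrQ, hNy]

/-- The relative Hilbert-Schmidt size on `Q` of the difference of two unitaries is controlled by
any unitarily invariant seminorm. -/
theorem UnitarilyInvariant.hs_le (hN : UnitarilyInvariant N) {Q : Mt d} (hQ : IsPr Q)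
    (u v : unitaryGroup (Fin d) ℂ) :
    hs ((u.1 - v.1) * Q) * N Q ≤ 2 * (hs Q * N (u.1 - v.1)) := by
  have hu := uh u
  have hv := uh v
  set w : Mt d := 1 - (u.1)ᴴ * v.1 with hw
  have h1 : hs ((u.1 - v.1) * Q) = 2 * tr (Q * w) := by
    rw [hs_eq_tr, Matrix.conjTranspose_mul, hQ.1]
    have e1 : Q * (u.1 - v.1)ᴴ * ((u.1 - v.1) * Q) =
        Q * (((u.1 - v.1)ᴴ * (u.1 - v.1)) * Q) := by simp only [Matrix.mul_assoc]
    have e2 : (u.1 - v.1)ᴴ * (u.1 - v.1) = w + wᴴ := by
      rw [hw, Matrix.conjTranspose_sub, Matrix.conjTranspose_sub, Matrix.conjTranspose_mul,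
        Matrix.conjTranspose_conjTranspose, Matrix.conjTranspose_one, Matrix.sub_mul,
        Matrix.mul_sub, Matrix.mul_sub, hu, hv]
      abel
    have e3 : tr (Q * wᴴ) = tr (Q * w) := by
      rw [← tr_conjTranspose (Q * wᴴ), Matrix.conjTranspose_mul, Matrix.conjTranspose_conjTranspose,
        hQ.1, tr_mul_comm]
    rw [e1, tr_mul_comm, Matrix.mul_assoc, hQ.2, e2, Matrix.add_mul, tr_add, tr_mul_comm w,
      tr_mul_comm wᴴ, e3]
    ring
  have h2 : N w = N (u.1 - v.1) := by
    have e1 : (u.1)ᴴ * (u.1 - v.1) = w := by rw [Matrix.mul_sub, hu]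
    rw [← e1]
    have := hN.left u⁻¹ (u.1 - v.1)
    rwa [UnitaryGroup.inv_val, Matrix.star_eq_conjTranspose] at this
  have h3 := hN.trace_le hQ w
  have h4 : tr (Q * w) * N Q ≤ |tr (Q * w)| * N Q :=
    mul_le_mul_of_nonneg_right (le_abs_self _) (apply_nonneg N Q)
  rw [h1, ← pr_tr_eq_hs hQ, ← h2]
  linarith

/-- The same from the left. -/
theorem UnitarilyInvariant.hs_le' (hN : UnitarilyInvariant N) {Q : Mt d} (hQ : IsPr Q)
    (u v : unitaryGroup (Fin d) ℂ) :
    hs (Q * (u.1 - v.1)) * N Q ≤ 2 * (hs Q * N (u.1 - v.1)) := by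
  have h1 := hN.hs_le hQ u⁻¹ v⁻¹
  have e1 : hs (((u⁻¹).1 - (v⁻¹).1) * Q) = hs (Q * (u.1 - v.1)) := by
    rw [← hs_conjTranspose]
    congr 1
    rw [Matrix.conjTranspose_mul, hQ.1, Matrix.conjTranspose_sub, UnitaryGroup.inv_val,
      UnitaryGroup.inv_val, Matrix.star_eq_conjTranspose, Matrix.star_eq_conjTranspose,
      Matrix.conjTranspose_conjTranspose, Matrix.conjTranspose_conjTranspose]
  have e2 : N ((u⁻¹).1 - (v⁻¹).1) = N (u.1 - v.1) := by
    have e3 : u.1 * ((u⁻¹).1 - (v⁻¹).1) * v.1 = -(u.1 - v.1) := by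
      have h5 : u.1 * (u⁻¹).1 = 1 := by rw [← UnitaryGroup.mul_val, mul_inv_cancel]; rfl
      have h6 : (v⁻¹).1 * v.1 = 1 := by rw [← UnitaryGroup.mul_val, inv_mul_cancel]; rfl
      rw [Matrix.mul_sub, Matrix.sub_mul, h5, Matrix.one_mul, Matrix.mul_assoc, h6, Matrix.mul_one]
      abel
    rw [← hN u v, e3, map_neg_eq_map]
  rw [e1, e2] at h1
  exact h1

end

end Pool.Agent.Helper28.UI
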