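import Pool.Graph.R_pool_sql_team_seeded_63374d34.N44.NS.Defs

/-!
# Statement of the embedding module
-/

set_option autoImplicit false

namespace Pool.Agent.Helper28.UI

open Pool.Agent.N44.NS (E3 Leav)

/-- UNI: every countable group embeds in `E_3(A)` for an algebra `A` over a finite field with at
least 256 elements, generated by six elements, the first four of which satisfy the Leavitt
relations. -/
def S_UNI : Prop :=
  ∀ (Γ : Type) [Group Γ] [Countable Γ], ∃ (F A : Type) (_ : Field F) (_ : Fintype F) (_ : Ring A)
    (_ : Algebra F A) (_ : Nontrivial A) (g : Fin 6 → A), 256 ≤ Fintype.card F ∧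
      Leav (g 0) (g 1) (g 2) (g 3) ∧ Algebra.adjoin F (Set.range g) = ⊤ ∧
      ∃ f : Γ →* E3 A, Function.Injective f

end Pool.Agent.Helper28.UI
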