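import Pool.Agent.Helper28.UI.Rep
import Pool.Agent.Helper28.UI.Ev

/-!
# Words and defects
-/

set_option autoImplicit false

namespace Pool.Agent.Helper28.UI

open Matrix Finset Module
open scoped ComplexOrder Matrix.Norms.L2Operator
open Pool.Agent.W661.RC Pool.Agent.W683.RC
open Pool.Agent.H80R2.HG Pool.Agent.H80R2.HG.PSAux
open scoped commutatorElement

noncomputable section

variable {G : Type} [Group G]

/-- the unitary translates of the defects -/
def Df (A : Finset G) {n : ℕ} (φ : G → unitaryGroup (Fin n) ℂ) : Set (Mt n) :=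
  {y | ∃ a ∈ A, ∃ b ∈ A, ∃ u v : unitaryGroup (Fin n) ℂ,
    y = u.1 * ((φ (a * b)).1 - (φ a).1 * (φ b).1) * v.1}

theorem Df_bi (A : Finset G) {n : ℕ} (φ : G → unitaryGroup (Fin n) ℂ) : BiInv (Df A φ) := by
  rintro u v _ ⟨a, ha, b, hb, u', v', rfl⟩
  refine ⟨a, ha, b, hb, u * u', v' * v, ?_⟩
  rw [UnitaryGroup.mul_val, UnitaryGroup.mul_val]
  simp only [Matrix.mul_assoc]

theorem Df_mono {A B : Finset G} (h : A ⊆ B) {n : ℕ} (φ : G → unitaryGroup (Fin n) ℂ) :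
    Df A φ ⊆ Df B φ := by
  rintro _ ⟨a, ha, b, hb, u', v', rfl⟩
  exact ⟨a, h ha, b, h hb, u', v', rfl⟩

theorem mem_Df {A : Finset G} {n : ℕ} (φ : G → unitaryGroup (Fin n) ℂ) {a b : G} (ha : a ∈ A)
    (hb : b ∈ A) : (φ (a * b)).1 - (φ a).1 * (φ b).1 ∈ Df A φ :=
  ⟨a, ha, b, hb, 1, 1, by rw [OneMemClass.coe_one, Matrix.one_mul, Matrix.mul_one]⟩

/-- `P` is uniformly a bounded sum of unitary translates of defects -/
def EvR (P : ∀ n, (G → unitaryGroup (Fin n) ℂ) → Mt n) : Prop :=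
  ∃ (A : Finset G) (m : ℕ), ∀ n (φ : G → unitaryGroup (Fin n) ℂ), Rep (Df A φ) m (P n φ)

theorem EvR.add {P P' : ∀ n, (G → unitaryGroup (Fin n) ℂ) → Mt n} (h : EvR P) (h' : EvR P') :
    EvR fun n φ => P n φ + P' n φ := by
  classical
  obtain ⟨A, m, h⟩ := h
  obtain ⟨A', m', h'⟩ := h'
  exact ⟨A ∪ A', m + m', fun n φ => ((h n φ).mono (Df_mono subset_union_left φ)).add
    ((h' n φ).mono (Df_mono subset_union_right φ))⟩

theorem EvR.uni {P : ∀ n, (G → unitaryGroup (Fin n) ℂ) → Mt n} (h : EvR P)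
    (u v : ∀ n, (G → unitaryGroup (Fin n) ℂ) → unitaryGroup (Fin n) ℂ) :
    EvR fun n φ => (u n φ).1 * P n φ * (v n φ).1 := by
  obtain ⟨A, m, h⟩ := h
  exact ⟨A, m, fun n φ => (h n φ).uni (Df_bi A φ) _ _⟩

theorem EvR.neg {P : ∀ n, (G → unitaryGroup (Fin n) ℂ) → Mt n} (h : EvR P) :
    EvR fun n φ => -P n φ := by
  obtain ⟨A, m, h⟩ := h
  exact ⟨A, m, fun n φ => (h n φ).neg (Df_bi A φ)⟩

theorem EvR.congr {P P' : ∀ n, (G → unitaryGroup (Fin n) ℂ) → Mt n} (h : EvR P)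
    (e : ∀ n φ, P n φ = P' n φ) : EvR P' := by
  obtain ⟨A, m, h⟩ := h
  exact ⟨A, m, fun n φ => by rw [← e]; exact h n φ⟩

theorem EvR.err (a b : G) : EvR fun n (φ : G → unitaryGroup (Fin n) ℂ) =>
    (φ (a * b)).1 - (φ a).1 * (φ b).1 := by
  classical
  exact ⟨{a, b}, 1, fun n φ => Rep.one (mem_Df φ (by simp) (by simp))⟩

theorem EvR.one : EvR fun n (φ : G → unitaryGroup (Fin n) ℂ) => (φ 1).1 - 1 := by
  refine ((EvR.err (1 : G) 1).uni (fun n φ => (φ 1)⁻¹) (fun _ _ => 1)).neg.congr fun n φ => ?_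
  have h : ((φ 1)⁻¹).1 * (φ 1).1 = 1 := by
    rw [← UnitaryGroup.mul_val, inv_mul_cancel, OneMemClass.coe_one]
  rw [one_mul, OneMemClass.coe_one, Matrix.mul_one, Matrix.mul_sub, ← Matrix.mul_assoc, h,
    Matrix.one_mul, neg_sub]

theorem EvR.inv (a : G) : EvR fun n (φ : G → unitaryGroup (Fin n) ℂ) =>
    ((φ a)⁻¹).1 - (φ a⁻¹).1 := by
  refine ((EvR.err a a⁻¹).add EvR.one.neg).uni (fun n φ => (φ a)⁻¹) (fun _ _ => 1) |>.congr
    fun n φ => ?_
  have h : ((φ a)⁻¹).1 * (φ a).1 = 1 := by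
    rw [← UnitaryGroup.mul_val, inv_mul_cancel, OneMemClass.coe_one]
  rw [mul_inv_cancel, OneMemClass.coe_one, Matrix.mul_one]
  have e : (φ 1).1 - (φ a).1 * (φ a⁻¹).1 + -((φ 1).1 - 1) = 1 - (φ a).1 * (φ a⁻¹).1 := by abel
  rw [e, Matrix.mul_sub, Matrix.mul_one, ← Matrix.mul_assoc, h, Matrix.one_mul]

variable {k : ℕ}

theorem EvR.word (γ : FreeGroup (Fin k) →* G) (w : FreeGroup (Fin k)) :
    EvR fun n (φ : G → unitaryGroup (Fin n) ℂ) =>
      (FreeGroup.lift (gU γ φ) w).1 - (φ (γ w)).1 := by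
  induction w using FreeGroup.induction_on with
  | C1 =>
    refine EvR.one.neg.congr fun n φ => ?_
    rw [map_one, map_one, OneMemClass.coe_one, neg_sub]
  | of s =>
    refine ⟨∅, 0, fun n φ => ?_⟩
    have e : (FreeGroup.lift (gU γ φ) (FreeGroup.of s)).1 - (φ (γ (FreeGroup.of s))).1 = 0 := by
      rw [FreeGroup.lift_apply_of]
      exact sub_self _
    show Rep _ 0 ((FreeGroup.lift (gU γ φ) (FreeGroup.of s)).1 - (φ (γ (FreeGroup.of s))).1)
    rw [e]
    exact Rep.zero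
  | inv_of s _ =>
    refine (EvR.inv (γ (FreeGroup.of s))).congr fun n φ => ?_
    rw [map_inv, map_inv, FreeGroup.lift_apply_of]
    rfl
  | mul w w' h1 h2 =>
    refine (((h1.uni (fun _ _ => 1) fun n φ => FreeGroup.lift (gU γ φ) w').add
      (h2.uni (fun n φ => φ (γ w)) fun _ _ => 1)).add (EvR.err (γ w) (γ w')).neg).congr
      fun n φ => ?_
    rw [map_mul, map_mul, UnitaryGroup.mul_val, OneMemClass.coe_one, Matrix.one_mul, Matrix.mul_one]
    noncomm_ring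

theorem EvR.rel (γ : FreeGroup (Fin k) →* G) (w : FreeGroup (Fin k)) (hw : γ w = 1) :
    EvR fun n (φ : G → unitaryGroup (Fin n) ℂ) => (FreeGroup.lift (gU γ φ) w).1 - 1 := by
  refine ((EvR.word γ w).add EvR.one).congr fun n φ => ?_
  rw [hw]
  abel

/-! ### vectors -/

/-- the sum of the displacements by the generators -/
def mv {n : ℕ} (U : Fin k → unitaryGroup (Fin n) ℂ) (v : EE n) : ℝ :=
  ∑ s, ‖ev ((U s).1 - 1) v‖

theorem mv_nonneg {n : ℕ} (U : Fin k → unitaryGroup (Fin n) ℂ) (v : EE n) : 0 ≤ mv U v :=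
  sum_nonneg fun _ _ => norm_nonneg _

theorem word_ev (w : FreeGroup (Fin k)) : ∃ ℓ : ℝ, 1 ≤ ℓ ∧ ∀ (n : ℕ)
    (U : Fin k → unitaryGroup (Fin n) ℂ) (v : EE n),
      ‖ev ((FreeGroup.lift U w).1 - 1) v‖ ≤ ℓ * mv U v := by
  induction w using FreeGroup.induction_on with
  | C1 =>
    refine ⟨1, le_rfl, fun n U v => ?_⟩
    rw [map_one, OneMemClass.coe_one, sub_self, ev_zero, norm_zero, one_mul]
    exact mv_nonneg U v
  | of s =>
    refine ⟨1, le_rfl, fun n U v => ?_⟩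
    rw [FreeGroup.lift_apply_of, one_mul]
    exact single_le_sum (f := fun s => ‖ev ((U s).1 - 1) v‖) (fun _ _ => norm_nonneg _)
      (mem_univ s)
  | inv_of s _ =>
    refine ⟨1, le_rfl, fun n U v => ?_⟩
    rw [map_inv, FreeGroup.lift_apply_of, one_mul]
    have e : ((U s)⁻¹).1 - 1 = -(((U s)⁻¹).1 * ((U s).1 - 1)) := by
      rw [Matrix.mul_sub, ← UnitaryGroup.mul_val, inv_mul_cancel, Matrix.mul_one,
        OneMemClass.coe_one, neg_sub]
    rw [e, ev_neg, norm_neg, ev_mul, norm_ev_u]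
    exact single_le_sum (f := fun s => ‖ev ((U s).1 - 1) v‖) (fun _ _ => norm_nonneg _)
      (mem_univ s)
  | mul w w' h1 h2 =>
    obtain ⟨ℓ1, hℓ1, h1⟩ := h1
    obtain ⟨ℓ2, hℓ2, h2⟩ := h2
    refine ⟨ℓ1 + ℓ2, by linarith, fun n U v => ?_⟩
    have e : (FreeGroup.lift U (w * w')).1 - 1 =
        (FreeGroup.lift U w).1 * ((FreeGroup.lift U w').1 - 1) +
          ((FreeGroup.lift U w).1 - 1) := by
      rw [map_mul, UnitaryGroup.mul_val, Matrix.mul_sub, Matrix.mul_one]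
      abel
    rw [e, ev_add, ev_mul]
    refine (norm_add_le _ _).trans ?_
    rw [norm_ev_u]
    have := h1 n U v
    have := h2 n U v
    linarith

theorem mv_word (h : FreeGroup (Fin k)) : ∃ c : ℝ, 0 ≤ c ∧ ∀ (n : ℕ)
    (U : Fin k → unitaryGroup (Fin n) ℂ) (v : EE n),
      mv U (ev (FreeGroup.lift U h).1 v) ≤ c * mv U v := by
  obtain ⟨ℓ, hℓ, h1⟩ := word_ev h
  choose m hm h2 using fun s : Fin k => word_ev (FreeGroup.of s * h)
  refine ⟨∑ s, (m s + ℓ), sum_nonneg fun s _ => by linarith [hm s], fun n U v => ?_⟩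
  rw [sum_mul]
  refine sum_le_sum fun s _ => ?_
  have e : ev ((U s).1 - 1) (ev (FreeGroup.lift U h).1 v) =
      ev ((FreeGroup.lift U (FreeGroup.of s * h)).1 - 1) v - ev ((FreeGroup.lift U h).1 - 1) v := by
    rw [map_mul, UnitaryGroup.mul_val, FreeGroup.lift_apply_of, ← ev_mul, ← ev_sub]
    congr 1
    rw [Matrix.sub_mul, Matrix.one_mul]
    abel
  rw [e, add_mul]
  exact (norm_sub_le _ _).trans (add_le_add (h2 s n U v) (h1 n U v))

/-- commutators are small of second order -/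
theorem comm_ev (w : FreeGroup (Fin k)) (hw : w ∈ commutator (FreeGroup (Fin k))) :
    ∃ (L : ℝ) (F : Finset (FreeGroup (Fin k))), 1 ≤ L ∧ ∀ (n : ℕ)
      (U : Fin k → unitaryGroup (Fin n) ℂ) (K : Submodule ℂ (EE n)) (κ : ℝ), 0 ≤ κ →
      (∀ s, ∀ x ∈ K, ‖ev ((U s).1 - 1) x‖ ≤ κ * ‖x‖) →
      ∀ v, (∀ h ∈ F, ev (FreeGroup.lift U h).1 v ∈ K) →
        ‖ev ((FreeGroup.lift U w).1 - 1) v‖ ≤ L * (κ * mv U v) := by
  classical
  rw [commutator_eq_closure] at hw
  induction hw using Subgroup.closure_induction with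
  | mem x hx =>
    obtain ⟨a, b, rfl⟩ := hx
    obtain ⟨ℓ1, hℓ1, h1⟩ := word_ev a
    obtain ⟨ℓ2, hℓ2, h2⟩ := word_ev b
    obtain ⟨c, hc, h3⟩ := mv_word (b * a)⁻¹
    refine ⟨2 * ℓ1 * ℓ2 * k * c + 1, {(b * a)⁻¹, b * (b * a)⁻¹, a * (b * a)⁻¹}, ?_,
      fun n U K κ hκ hU v hv => ?_⟩
    · have : 0 ≤ 2 * ℓ1 * ℓ2 * k * c := by positivity
      linarith
    · set p := FreeGroup.lift U a with hp
      set q := FreeGroup.lift U b with hq
      set v' := ev (FreeGroup.lift U (b * a)⁻¹).1 v with hv'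
      have hK0 : v' ∈ K := hv _ (by simp)
      have hKb : ev q.1 v' ∈ K := by
        have := hv (b * (b * a)⁻¹) (by simp)
        rwa [map_mul, UnitaryGroup.mul_val, ev_mul] at this
      have hKa : ev p.1 v' ∈ K := by
        have := hv (a * (b * a)⁻¹) (by simp)
        rwa [map_mul, UnitaryGroup.mul_val, ev_mul] at this
      have e0 : FreeGroup.lift U (⁅a, b⁆ : FreeGroup (Fin k)) =
          (p * q) * FreeGroup.lift U (b * a)⁻¹ := by
        rw [commutatorElement_def, map_mul, map_mul, map_mul, map_inv, map_inv, map_inv, map_mul,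
          ← hp, ← hq]
        group
      have e1 : (1 : unitaryGroup (Fin n) ℂ) = (q * p) * FreeGroup.lift U (b * a)⁻¹ := by
        rw [map_inv, map_mul, ← hp, ← hq, mul_inv_cancel]
      have e2 : ev ((FreeGroup.lift U (⁅a, b⁆ : FreeGroup (Fin k))).1 - 1) v =
          ev (p.1 - 1) (ev (q.1 - 1) v') - ev (q.1 - 1) (ev (p.1 - 1) v') := by
        have e3 : (1 : Mt n) = (q.1 * p.1) * (FreeGroup.lift U (b * a)⁻¹).1 := by
          rw [← UnitaryGroup.mul_val, ← UnitaryGroup.mul_val, ← e1, OneMemClass.coe_one]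
        rw [e0, UnitaryGroup.mul_val, UnitaryGroup.mul_val]
        nth_rewrite 1 [e3]
        rw [← Matrix.sub_mul, ev_mul _ (FreeGroup.lift U (b * a)⁻¹).1 v, ← hv', ← ev_mul (p.1 - 1),
          ← ev_mul (q.1 - 1), ← ev_sub]
        congr 1
        noncomm_ring
      have hmx : ∀ x ∈ K, mv U x ≤ k * κ * ‖x‖ := by
        intro x hx
        calc mv U x ≤ ∑ _s : Fin k, κ * ‖x‖ := sum_le_sum fun s _ => hU s x hx
          _ = k * κ * ‖x‖ := by
            rw [sum_const, card_univ, Fintype.card_fin, nsmul_eq_mul]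
            ring
      have hB : ev (q.1 - 1) v' ∈ K := by
        rw [ev_sub, ev_one]
        exact K.sub_mem hKb hK0
      have hA : ev (p.1 - 1) v' ∈ K := by
        rw [ev_sub, ev_one]
        exact K.sub_mem hKa hK0
      have hm0 := mv_nonneg U v'
      have hk0 : (0 : ℝ) ≤ k := Nat.cast_nonneg k
      have f1 : ‖ev (p.1 - 1) (ev (q.1 - 1) v')‖ ≤ ℓ1 * (k * κ * (ℓ2 * mv U v')) := by
        refine (h1 n U _).trans (mul_le_mul_of_nonneg_left ((hmx _ hB).trans ?_) (by linarith))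
        exact mul_le_mul_of_nonneg_left (h2 n U v') (by positivity)
      have f2 : ‖ev (q.1 - 1) (ev (p.1 - 1) v')‖ ≤ ℓ2 * (k * κ * (ℓ1 * mv U v')) := by
        refine (h2 n U _).trans (mul_le_mul_of_nonneg_left ((hmx _ hA).trans ?_) (by linarith))
        exact mul_le_mul_of_nonneg_left (h1 n U v') (by positivity)
      rw [e2]
      refine (norm_sub_le _ _).trans ?_
      have f3 := h3 n U v
      have f4 : 2 * ℓ1 * ℓ2 * k * κ * mv U v' ≤ 2 * ℓ1 * ℓ2 * k * κ * (c * mv U v) :=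
        mul_le_mul_of_nonneg_left f3 (by positivity)
      have f5 : 0 ≤ κ * mv U v := mul_nonneg hκ (mv_nonneg U v)
      nlinarith
  | one =>
    refine ⟨1, ∅, le_rfl, fun n U K κ hκ hU v hv => ?_⟩
    rw [map_one, OneMemClass.coe_one, sub_self, ev_zero, norm_zero, one_mul]
    exact mul_nonneg hκ (mv_nonneg _ _)
  | mul x y _ _ hx hy =>
    obtain ⟨L1, F1, hL1, h1⟩ := hx
    obtain ⟨L2, F2, hL2, h2⟩ := hy
    refine ⟨L1 + L2, F1 ∪ F2, by linarith, fun n U K κ hκ hU v hv => ?_⟩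
    have e : (FreeGroup.lift U (x * y)).1 - 1 = (FreeGroup.lift U x).1 *
        ((FreeGroup.lift U y).1 - 1) + ((FreeGroup.lift U x).1 - 1) := by
      rw [map_mul, UnitaryGroup.mul_val, Matrix.mul_sub, Matrix.mul_one]
      abel
    rw [e, ev_add, ev_mul]
    refine (norm_add_le _ _).trans ?_
    rw [norm_ev_u]
    have := h1 n U K κ hκ hU v fun h hh => hv h (mem_union_left _ hh)
    have := h2 n U K κ hκ hU v fun h hh => hv h (mem_union_right _ hh)
    linarith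
  | inv x _ hx =>
    obtain ⟨L1, F1, hL1, h1⟩ := hx
    refine ⟨L1, F1, hL1, fun n U K κ hκ hU v hv => ?_⟩
    have e : (FreeGroup.lift U x⁻¹).1 - 1 = -((FreeGroup.lift U x⁻¹).1 *
        ((FreeGroup.lift U x).1 - 1)) := by
      rw [Matrix.mul_sub, ← UnitaryGroup.mul_val, ← map_mul, inv_mul_cancel, map_one,
        Matrix.mul_one, OneMemClass.coe_one, neg_sub]
    rw [e, ev_neg, norm_neg, ev_mul, norm_ev_u]
    exact h1 n U K κ hκ hU v hv

end

end Pool.Agent.Helper28.UI
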